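import Pool.Agent.Helper34.LT.Df

/-!
PROJECT LU (LT2), block Z2: definition of the theta functions of the vector extension.
-/

namespace Pool.Agent.Helper63.LU

open Pool.Agent.Helper34.LT (Theta)

/-- Theta functions of degree `k` on the vector extension, polynomial of degree at most `L` in the vector
variables (the coordinates `inr i`). The real linear map `σ` gives the vector part of the periods. -/
def Theta2 {ι A : Type} [Fintype ι] [AddCommGroup A] (γ : A →+ (ι → ℂ))
    (l : A →+ ((ι → ℂ) →ₗ[ℂ] ℂ)) (c : A → ℂ) (σ : (ι → ℂ) →ₗ[ℝ] (ι → ℂ)) (k L : ℕ)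
    (F : (ι ⊕ ι → ℂ) → ℂ) : Prop :=
  Differentiable ℂ F ∧
  (∀ a z, F (z + Sum.elim (γ a) (σ (γ a))) =
    Complex.exp (k * (l a (fun i => z (Sum.inl i)) + c a)) * F z) ∧
  ∀ z : ι → ℂ, ∃ P : MvPolynomial ι ℂ, P.totalDegree ≤ L ∧
    ∀ w : ι → ℂ, F (Sum.elim z w) = MvPolynomial.eval w P

end Pool.Agent.Helper63.LU
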