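import Pool.Agent.Helper63.LU.Yi
import Pool.Agent.Helper35.LU.Sa

/-!
PROJECT LU (LT2), block Z2. Part m: the zero estimate for vector extensions.
-/

namespace Pool.Agent.Helper63.LU

open Finset MvPowerSeries
open Pool.Agent.Helper34.LT (Theta)
open Pool.Agent.Helper63.LT (Ent dE iter_line cc)

/-- Zero estimate for the vector extension, general form (semistability of `W`). `him` = the map given by the theta functions
of degree 1 is an immersion at `0`. In the hypothesis on `W` the subspaces `H` run through the possible Lie algebras of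
stabilisers; `{x | x (inl i) = 0}` is the vertical part. -/
theorem Z2_semi {ι A : Type} [Fintype ι] [AddCommGroup A] (γ : A →+ (ι → ℂ))
    (l : A →+ ((ι → ℂ) →ₗ[ℂ] ℂ)) (c : A → ℂ) (σ : (ι → ℂ) →ₗ[ℝ] (ι → ℂ))
    (hσ : ∀ (a : A) (x : ι → ℂ), l a x = ∑ i, σ (γ a) i * x i)
    (hc : ∃ R : ℝ, ∀ z, ∃ a, ‖z - γ a‖ ≤ R)
    (hb : ∀ p, ∃ F, Theta γ l c 1 F ∧ F p ≠ 0)
    (him : ∀ a : ι → ℂ, a ≠ 0 → ∃ F G, Theta γ l c 1 F ∧ Theta γ l c 1 G ∧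
      fderiv ℂ F 0 a * G 0 ≠ F 0 * fderiv ℂ G 0 a) :
    ∃ C : ℕ, ∀ W : Submodule ℂ (ι ⊕ ι → ℂ),
      (∀ H : Submodule ℂ (ι ⊕ ι → ℂ), H ≠ ⊤ →
        (∀ x ∈ H, Sum.elim (0 : ι → ℂ) (fun i => x (Sum.inr i) - σ (fun j => x (Sum.inl j)) i) ∈ H) →
        (∀ x ∈ H, (fun i => x (Sum.inl i)) ∈ Submodule.span ℝ
          {y : ι → ℂ | ∃ a, y = γ a ∧ Sum.elim (γ a) (σ (γ a)) ∈ H}) →
        ¬ W ≤ H ∧ Fintype.card ι + Module.finrank ℂ (W ⊓ H : Submodule ℂ (ι ⊕ ι → ℂ)) ≤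
          Module.finrank ℂ W + Module.finrank ℂ
            (H ⊓ LinearMap.ker (LinearMap.funLeft ℂ ℂ (Sum.inl : ι → ι ⊕ ι)) :
              Submodule ℂ (ι ⊕ ι → ℂ))) →
      ∀ k L : ℕ, 1 ≤ k → 1 ≤ L → ∀ F, Theta2 γ l c σ k L F → (∃ z, F z ≠ 0) → ∀ T : ℕ, 1 ≤ T →
        (∀ v ∈ W, ∀ j ≤ 2 * Fintype.card ι * T,
          iteratedDeriv j (fun s : ℂ => F (s • v)) 0 = 0) →
        T ≤ C * k ^ Fintype.card ι * L := by
  obtain ⟨X, C0, hX, hX', hC0⟩ := exists_LE γ l c σ hc hb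
  have hlow := exists_Low γ l c σ hσ him X hX
  refine ⟨(Fintype.card (ι ⊕ ι) + 1) ^ Fintype.card (ι ⊕ ι) * C0 *
    (2 * Fintype.card (ι ⊕ ι) + 1) ^ (Fintype.card ι + Fintype.card ι), ?_⟩
  intro W hW k L hk hL F hF hF0 T hT hvan
  have hT1 : ∀ k L (F : Ent (ι ⊕ ι)), F ∈ X.T k L → Theta2 γ l c σ k L (F : (ι ⊕ ι → ℂ) → ℂ) := by
    intro k L F hF
    rw [hX] at hF
    exact (mem_Th2 γ l c σ).1 hF
  have hb' : ∀ z : ι ⊕ ι → ℂ, ∃ F ∈ X.T 1 0, (F : (ι ⊕ ι → ℂ) → ℂ) z ≠ 0 := by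
    intro z
    obtain ⟨G, hG, hGz⟩ := hb (fun i => z (Sum.inl i))
    refine ⟨lft ι ⟨G, hG.1⟩, ?_, hGz⟩
    rw [hX]
    exact lft_Th2 γ l c σ (F := ⟨G, hG.1⟩) hG
  let F' : Ent (ι ⊕ ι) := ⟨F, hF.1⟩
  have hF' : F' ∈ X.T k L := by
    rw [hX]
    exact (mem_Th2 γ l c σ).2 hF
  have hF0' : F' ≠ 0 := by
    intro h
    obtain ⟨z, hz⟩ := hF0
    have h1 : (F' : (ι ⊕ ι → ℂ) → ℂ) z = ((0 : Ent (ι ⊕ ι)) : (ι ⊕ ι → ℂ) → ℂ) z := by rw [h]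
    exact hz h1
  refine X.core _ hlow (Fintype.card ι) C0 (Fintype.card_sum) hC0 W ?_ k L hk hL F' hF' hF0' T hT ?_
  · intro p hp hp0 hne
    exact hW (X.hh p) hne
      (fun x hx => (Pool.Agent.Helper35.LU.S1 γ l c σ X hT1 p hc hb' hp hp0 x hx).1)
      (fun x hx => (Pool.Agent.Helper35.LU.S1 γ l c σ X hT1 p hc hb' hp hp0 x hx).2)
  · intro v hv j hj
    have h1 := hvan v hv j hj
    have h2 := iter_line F' 0 v j 0
    rw [zero_smul, add_zero] at h2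
    rw [← h2]
    have h3 : (fun s : ℂ => (F' : (ι ⊕ ι → ℂ) → ℂ) (0 + s • v)) = fun s : ℂ => F (s • v) := by
      funext s
      rw [zero_add]
    rw [h3]
    exact h1

end Pool.Agent.Helper63.LU
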