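import Pool.Agent.Helper63.LU.Df

/-!
PROJECT LU (LT2), block Z2: the target. DO NOT IMPORT IN FINAL FILES; the proof will be
`Pool.Agent.Helper63.LU.Z2_main` in Pool/Agent/Helper63/LU/Ym.lean, word for word.
-/

namespace Pool.Agent.Helper63.LU.Stub

open Pool.Agent.Helper34.LT (Theta)
open Pool.Agent.Helper63.LU

/-- Zero estimate for the vector extension. -/
theorem Z2_main {ι A : Type} [Fintype ι] [AddCommGroup A] (γ : A →+ (ι → ℂ))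
    (l : A →+ ((ι → ℂ) →ₗ[ℂ] ℂ)) (c : A → ℂ) (σ : (ι → ℂ) →ₗ[ℝ] (ι → ℂ))
    (hσ : ∀ (a : A) (x : ι → ℂ), l a x = ∑ i, σ (γ a) i * x i)
    (hc : ∃ R : ℝ, ∀ z, ∃ a, ‖z - γ a‖ ≤ R)
    (hb : ∀ p, ∃ F, Theta γ l c 1 F ∧ F p ≠ 0) :
    ∃ C : ℕ, ∀ W : Submodule ℂ (ι ⊕ ι → ℂ), Fintype.card ι ≤ Module.finrank ℂ W →
      (∃ x ∈ W, ∃ i, x (Sum.inl i) ≠ 0) →
      (∀ H : Submodule ℂ (ι ⊕ ι → ℂ),
        (∀ x ∈ H, Sum.elim (0 : ι → ℂ) (fun i => x (Sum.inr i) - σ (fun j => x (Sum.inl j)) i) ∈ H) →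
        (∀ x ∈ H, (fun i => x (Sum.inl i)) ∈ Submodule.span ℝ
          {y : ι → ℂ | ∃ a, y = γ a ∧ Sum.elim (γ a) (σ (γ a)) ∈ H}) →
        (∃ x ∈ H, ∃ i, x (Sum.inl i) ≠ 0) → W ⊔ H = ⊤) →
      ∀ k L : ℕ, 1 ≤ k → 1 ≤ L → ∀ F, Theta2 γ l c σ k L F → (∃ z, F z ≠ 0) → ∀ T : ℕ, 1 ≤ T →
        (∀ v ∈ W, ∀ j ≤ 2 * Fintype.card ι * T,
          iteratedDeriv j (fun s : ℂ => F (s • v)) 0 = 0) →
        T ≤ C * k ^ Fintype.card ι * L := by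
  sorry

/-- Zero estimate for the vector extension, general form (semistability of `W`). `him` = the map given by the theta functions
of degree 1 is an immersion at `0`. In the hypothesis on `W` the subspaces `H` run through the possible Lie algebras of
stabilisers; `{x | x (inl i) = 0}` is the vertical part. -/
theorem Z2_semi {ι A : Type} [Fintype ι] [AddCommGroup A] (γ : A →+ (ι → ℂ))
    (l : A →+ ((ι → ℂ) →ₗ[ℂ] ℂ)) (c : A → ℂ) (σ : (ι → ℂ) →ₗ[ℝ] (ι → ℂ))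
    (hσ : ∀ (a : A) (x : ι → ℂ), l a x = ∑ i, σ (γ a) i * x i)
    (hc : ∃ R : ℝ, ∀ z, ∃ a, ‖z - γ a‖ ≤ R)
    (hb : ∀ p, ∃ F, Theta γ l c 1 F ∧ F p ≠ 0)
    (him : ∀ a : ι → ℂ, a ≠ 0 → ∃ F G, Theta γ l c 1 F ∧ Theta γ l c 1 G ∧
      fderiv ℂ F 0 a * G 0 ≠ F 0 * fderiv ℂ G 0 a) :
    ∃ C : ℕ, ∀ W : Submodule ℂ (ι ⊕ ι → ℂ),
      (∀ H : Submodule ℂ (ι ⊕ ι → ℂ), H ≠ ⊤ →
        (∀ x ∈ H, Sum.elim (0 : ι → ℂ) (fun i => x (Sum.inr i) - σ (fun j => x (Sum.inl j)) i) ∈ H) →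
        (∀ x ∈ H, (fun i => x (Sum.inl i)) ∈ Submodule.span ℝ
          {y : ι → ℂ | ∃ a, y = γ a ∧ Sum.elim (γ a) (σ (γ a)) ∈ H}) →
        ¬ W ≤ H ∧ Fintype.card ι + Module.finrank ℂ (W ⊓ H : Submodule ℂ (ι ⊕ ι → ℂ)) ≤
          Module.finrank ℂ W + Module.finrank ℂ
            (H ⊓ LinearMap.ker (LinearMap.funLeft ℂ ℂ (Sum.inl : ι → ι ⊕ ι)) :
              Submodule ℂ (ι ⊕ ι → ℂ))) →
      ∀ k L : ℕ, 1 ≤ k → 1 ≤ L → ∀ F, Theta2 γ l c σ k L F → (∃ z, F z ≠ 0) → ∀ T : ℕ, 1 ≤ T →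
        (∀ v ∈ W, ∀ j ≤ 2 * Fintype.card ι * T,
          iteratedDeriv j (fun s : ℂ => F (s • v)) 0 = 0) →
        T ≤ C * k ^ Fintype.card ι * L := by
  sorry

end Pool.Agent.Helper63.LU.Stub
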