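import Mathlib

/-!
PROJECT LU (LT2), block Z2. Part a: formal power series over a field.
-/

namespace Pool.Agent.Helper63.LU

open Finset MvPowerSeries

noncomputable section

section ps

variable {ι : Type} [Fintype ι] {K : Type} [Field K]

/-! Piece Zb-1: the maximal ideal -/

/-- The maximal ideal. -/
def mm (ι : Type) (K : Type) [Field K] : Ideal (MvPowerSeries ι K) :=
  RingHom.ker (constantCoeff : MvPowerSeries ι K →+* K)

theorem mem_mm {f : MvPowerSeries ι K} : f ∈ mm ι K ↔ constantCoeff f = 0 := Iff.rfl

/-- PROOF. Choose for every `α ≠ 0` an index `c α` with `α (c α) ≠ 0`. `g i` has the coefficient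
`coeff (β + single i 1) f` at `β` if `c (β + single i 1) = i`, and `0` otherwise. The coefficient of
`∑ i, X i * g i` at `α ≠ 0` has only the term `i = c α`. For `β = 0`: `c (single i 1) = i`. -/
theorem mm_dec (f : MvPowerSeries ι K) (hf : constantCoeff f = 0) :
    ∃ g : ι → MvPowerSeries ι K, f = ∑ i, X i * g i ∧
      ∀ i, constantCoeff (g i) = coeff (Finsupp.single i 1) f := by
  classical
  have h1 : ∀ α : ι →₀ ℕ, ∃ i : Option ι, α ≠ 0 → ∃ j, i = some j ∧ α j ≠ 0 := by
    intro α
    by_cases h : α = 0
    · exact ⟨none, fun h' => absurd h h'⟩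
    · obtain ⟨j, hj⟩ := Finsupp.ne_iff.mp h
      exact ⟨some j, fun _ => ⟨j, rfl, hj⟩⟩
  choose c hc using h1
  let g : ι → MvPowerSeries ι K := fun i β =>
    if c (β + Finsupp.single i 1) = some i then coeff (β + Finsupp.single i 1) f else 0
  have hg : ∀ i β, coeff β (g i) =
      if c (β + Finsupp.single i 1) = some i then coeff (β + Finsupp.single i 1) f else 0 :=
    fun i β => rfl
  refine ⟨g, ?_, ?_⟩
  · refine MvPowerSeries.ext fun α => ?_
    rw [map_sum]
    have h2 : ∀ i, coeff α (X i * g i) =
        if Finsupp.single i 1 ≤ α then (if c α = some i then coeff α f else 0) else 0 := by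
      intro i
      rw [X_def, coeff_monomial_mul]
      by_cases h3 : Finsupp.single i 1 ≤ α
      · rw [if_pos h3, if_pos h3, one_mul, hg, tsub_add_cancel_of_le h3]
      · rw [if_neg h3, if_neg h3]
    rw [Finset.sum_congr rfl fun i _ => h2 i]
    by_cases h : α = 0
    · subst h
      rw [Finset.sum_eq_zero]
      · exact hf
      · intro i _
        rw [if_neg]
        intro h3
        have := h3 i
        simp at this
    · obtain ⟨j, hj, hj'⟩ := hc α h
      rw [Finset.sum_eq_single j]
      · rw [if_pos, if_pos hj]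
        rw [Finsupp.single_le_iff]
        omega
      · intro i _ hi
        have : ¬ c α = some i := by
          rw [hj]
          intro h'
          exact hi (Option.some_injective _ h').symm
        rw [if_neg this]
        exact ite_self _
      · intro h'
        exact absurd (Finset.mem_univ _) h'
  · intro i
    rw [← coeff_zero_eq_constantCoeff_apply, hg, zero_add]
    have h3 : (Finsupp.single i 1 : ι →₀ ℕ) ≠ 0 := by
      rw [Ne, Finsupp.single_eq_zero]
      omega
    obtain ⟨j, hj, hj'⟩ := hc _ h3
    have h4 : i = j := by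
      by_contra hne
      exact hj' (Finsupp.single_eq_of_ne (Ne.symm hne))
    rw [hj, if_pos (by rw [h4])]

theorem mm_eq : mm ι K = Ideal.span (Set.range (X : ι → MvPowerSeries ι K)) := by
  apply le_antisymm
  · intro f hf
    obtain ⟨g, hg, -⟩ := mm_dec f hf
    rw [hg]
    refine Ideal.sum_mem _ fun i _ => ?_
    exact Ideal.mul_mem_right _ _ (Ideal.subset_span ⟨i, rfl⟩)
  · rw [Ideal.span_le]
    rintro _ ⟨i, rfl⟩
    exact constantCoeff_X i

theorem mm_fg : (mm ι K).FG := by
  rw [mm_eq]
  exact Submodule.fg_span (Set.finite_range _)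

/-- PROOF. `mm_dec`: the `g i` are in `mm ι K`. -/
theorem mem_mm_sq {f : MvPowerSeries ι K} (h0 : constantCoeff f = 0)
    (h1 : ∀ i, coeff (Finsupp.single i 1) f = 0) : f ∈ mm ι K ^ 2 := by
  obtain ⟨g, hg, hg'⟩ := mm_dec f h0
  rw [hg, pow_two]
  refine Ideal.sum_mem _ fun i _ => Ideal.mul_mem_mul (constantCoeff_X i) ?_
  rw [mem_mm, hg', h1]

/-- Systems of parameters.
PROOF. The matrix `A j i = coeff (single i 1) (y j)` is invertible, so every `X i` is a linear
combination of the `y j` up to an element with vanishing constant and linear terms, which is in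
`mm ι K ^ 2` (`mem_mm_sq`). So `mm ≤ span y ⊔ mm * mm`; Nakayama
(`Submodule.le_of_le_smul_of_le_jacobson_bot`): `MvPowerSeries ι K` is a local ring with maximal
ideal `mm ι K` (nonunits have constant coefficient `0`: `MvPowerSeries.isUnit_iff_constantCoeff`),
`mm_fg`. -/
theorem span_params (y : ι → MvPowerSeries ι K) (h0 : ∀ j, constantCoeff (y j) = 0)
    (h1 : LinearIndependent K fun j => fun i => coeff (Finsupp.single i 1) (y j)) :
    Ideal.span (Set.range y) = mm ι K := by
  classical
  apply le_antisymm
  · rw [Ideal.span_le]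
    rintro _ ⟨j, rfl⟩
    exact h0 j
  · have hj : mm ι K ≤ Ideal.jacobson ⊥ := by
      intro f hf
      rw [Ideal.mem_jacobson_bot]
      intro g
      rw [MvPowerSeries.isUnit_iff_constantCoeff, map_add, map_mul, mem_mm.mp hf, zero_mul,
        zero_add, map_one]
      exact isUnit_one
    refine Submodule.le_of_le_smul_of_le_jacobson_bot mm_fg hj ?_
    have hs : Submodule.span K (Set.range fun j => fun i => coeff (Finsupp.single i 1) (y j)) =
        ⊤ := by
      refine h1.span_eq_top_of_card_eq_finrank' ?_
      rw [Module.finrank_fintype_fun_eq_card]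
    rw [smul_eq_mul, ← pow_two]
    conv_lhs => rw [mm_eq]
    rw [Ideal.span_le]
    rintro _ ⟨i, rfl⟩
    have hi : (Pi.single i 1 : ι → K) ∈
        Submodule.span K (Set.range fun j => fun i => coeff (Finsupp.single i 1) (y j)) := by
      rw [hs]
      exact Submodule.mem_top
    obtain ⟨a, ha⟩ := (Submodule.mem_span_range_iff_exists_fun K).mp hi
    have hd : X i = (∑ j, C (a j) * y j) + (X i - ∑ j, C (a j) * y j) := by ring
    rw [SetLike.mem_coe, hd]
    refine Submodule.add_mem_sup ?_ ?_
    · refine Ideal.sum_mem _ fun j _ => ?_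
      exact Ideal.mul_mem_left _ _ (Ideal.subset_span ⟨j, rfl⟩)
    · refine mem_mm_sq ?_ fun k => ?_
      · rw [map_sub, map_sum, constantCoeff_X, zero_sub, neg_eq_zero]
        refine Finset.sum_eq_zero fun j _ => ?_
        rw [map_mul, h0, mul_zero]
      · rw [map_sub, map_sum]
        have h3 := congrFun ha k
        rw [Finset.sum_apply] at h3
        have h4 : ∀ j, coeff (Finsupp.single k 1) (C (a j) * y j) =
            (a j • fun i => coeff (Finsupp.single i 1) (y j)) k := by
          intro j
          rw [coeff_C_mul]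
          rfl
        rw [Finset.sum_congr rfl fun j _ => h4 j, h3]
        by_cases hk : k = i
        · subst hk
          rw [Pi.single_eq_same, coeff_index_single_self_X, sub_self]
        · rw [Pi.single_eq_of_ne hk, coeff_index_single_X, if_neg hk, sub_zero]

/-! Piece Zb-2: the weighted order -/

variable (J : Finset ι) (T : ℕ)

open scoped Classical in
/-- The weight: `1` for the indices in `J` and `T` for the others. -/
def wt (α : ι →₀ ℕ) : ℕ := ∑ i, (if i ∈ J then 1 else T) * α i

theorem wt_add (α β : ι →₀ ℕ) : wt J T (α + β) = wt J T α + wt J T β := by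
  simp only [wt, Finsupp.add_apply, mul_add, Finset.sum_add_distrib]

/-- The series in which all monomials have weight at least `N`. -/
def WI (K : Type) [Field K] (N : ℕ) : Ideal (MvPowerSeries ι K) where
  carrier := {f | ∀ α, wt J T α < N → coeff α f = 0}
  add_mem' := by
    intro f g hf hg α hα
    rw [map_add, hf α hα, hg α hα, add_zero]
  zero_mem' := by
    intro α _
    rw [map_zero]
  smul_mem' := by
    classical
    intro c f hf α hα
    rw [smul_eq_mul, coeff_mul]
    refine Finset.sum_eq_zero fun x hx => ?_
    have h1 := Finset.HasAntidiagonal.mem_antidiagonal.1 hx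
    rw [hf x.2, mul_zero]
    rw [← h1, wt_add] at hα
    omega

theorem mem_WI {N : ℕ} {f : MvPowerSeries ι K} :
    f ∈ WI J T K N ↔ ∀ α, wt J T α < N → coeff α f = 0 := Iff.rfl

theorem WI_mul (N N' : ℕ) : WI J T K N * WI J T K N' ≤ WI J T K (N + N') := by
  classical
  rw [Ideal.mul_le]
  intro f hf g hg α hα
  rw [coeff_mul]
  refine Finset.sum_eq_zero fun x hx => ?_
  have h1 := Finset.HasAntidiagonal.mem_antidiagonal.1 hx
  rw [← h1, wt_add] at hα
  by_cases h2 : wt J T x.1 < N
  · rw [hf x.1 h2, zero_mul]
  · rw [hg x.2 (by omega), mul_zero]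

theorem WI_pow (N n : ℕ) : WI J T K N ^ n ≤ WI J T K (N * n) := by
  induction n with
  | zero =>
    intro f _ α hα
    simp at hα
  | succ n ih =>
    rw [pow_succ, Nat.mul_succ]
    exact (Ideal.mul_mono ih le_rfl).trans (WI_mul J T _ _)


/-! Piece Ya-3: the number of monomials -/

/-- PROOF. The exponents `α` with `α i ≤ T * N` for `i ∈ J` and `α i ≤ K` for `i ∉ J` have
`wt J T α ≤ card ι * T * N`; their number is `(T K + 1) ^ |J| * (N + 1) ^ (m - |J|) ≥
T ^ |J| * K ^ m` (a product of intervals, `Finset.pi`/`Fintype.piFinset` and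
`Finsupp.equivFunOnFinite`). -/
theorem card_A (N : ℕ) (hT : 1 ≤ T) :
    ∃ A : Finset (ι →₀ ℕ), (∀ α ∈ A, wt J T α < T * (Fintype.card ι * N + 1)) ∧
      T ^ J.card * N ^ Fintype.card ι ≤ A.card := by
  classical
  let B : Finset (ι → ℕ) := Fintype.piFinset fun i => Finset.range (if i ∈ J then T * N + 1 else N + 1)
  refine ⟨B.map (Finsupp.equivFunOnFinite (α := ι) (M := ℕ)).symm.toEmbedding, ?_, ?_⟩
  · intro α hα
    obtain ⟨g, hg, rfl⟩ := Finset.mem_map.1 hα
    have hg' := Fintype.mem_piFinset.1 hg
    have h1 : wt J T ((Finsupp.equivFunOnFinite (α := ι) (M := ℕ)).symm g) ≤ ∑ i : ι, T * N := by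
      refine Finset.sum_le_sum fun i _ => ?_
      have h2 := Finset.mem_range.1 (hg' i)
      change (if i ∈ J then 1 else T) * g i ≤ T * N
      split_ifs at h2 ⊢ with h3
      · omega
      · exact Nat.mul_le_mul_left _ (by omega)
    simp only [Finset.sum_const, Finset.card_univ, smul_eq_mul] at h1
    change wt J T ((Finsupp.equivFunOnFinite (α := ι) (M := ℕ)).symm g) < _
    nlinarith
  · rw [Finset.card_map, Fintype.card_piFinset]
    simp only [Finset.card_range]
    rw [Finset.prod_ite]
    simp only [Finset.prod_const]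
    have h1 : (Finset.univ.filter fun i => i ∈ J).card = J.card := by
      congr 1
      ext i
      simp
    have h2 : (Finset.univ.filter fun i => i ∉ J).card = Fintype.card ι - J.card := by
      have := Finset.card_filter_add_card_filter_not (s := (Finset.univ : Finset ι)) (fun i => i ∈ J)
      rw [h1, Finset.card_univ] at this
      omega
    rw [h1, h2]
    have h3 : J.card ≤ Fintype.card ι := Finset.card_le_univ J
    calc T ^ J.card * N ^ Fintype.card ι
        = (T * N) ^ J.card * N ^ (Fintype.card ι - J.card) := by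
          rw [mul_pow, mul_assoc, ← pow_add]
          congr 2
          omega
      _ ≤ (T * N + 1) ^ J.card * (N + 1) ^ (Fintype.card ι - J.card) :=
          Nat.mul_le_mul (Nat.pow_le_pow_left (by omega) _) (Nat.pow_le_pow_left (by omega) _)

end ps

end

end Pool.Agent.Helper63.LU
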