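import Pool.Agent.Helper63.LU.Ya

/-!
PROJECT LU (LT2), block Z2 (zero estimate for vector extensions), captain helper63. Part b: counting.
-/

/-
HOW TO WORK ON A FILE OF THIS DIRECTORY: replace the sorrys of your piece; change no statement, name or import (extra
imports without cycles are fine). Everything in the imported files and all earlier statements of the same file may be
used, also if they still have sorry. Auxiliary results: private. Forbidden words as in RULES.md.
-/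

namespace Pool.Agent.Helper63.LU

open Finset MvPowerSeries

noncomputable section

variable {κ : Type} [Fintype κ] {K : Type} [Field K] [Algebra ℂ K]

/-- The constant coefficient as a `ℂ`-linear map. -/
def ccL (κ K : Type) [Field K] [Algebra ℂ K] : MvPowerSeries κ K →ₗ[ℂ] K where
  toFun f := constantCoeff f
  map_add' f g := map_add _ f g
  map_smul' a f := by
    change coeff 0 (a • f) = a • coeff 0 f
    rfl

theorem ccL_apply (f : MvPowerSeries κ K) : ccL κ K f = constantCoeff f := rfl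

/-! Piece Yb-1 -/

private theorem yb1_gen (n : ℕ) : ∃ S : Set (MvPowerSeries κ K), S.Finite ∧
    ∀ f : MvPowerSeries κ K, ∃ g ∈ Submodule.span K S, f - g ∈ mm κ K ^ n := by
  classical
  induction n with
  | zero =>
    refine ⟨∅, Set.finite_empty, fun f => ⟨0, Submodule.zero_mem _, ?_⟩⟩
    rw [pow_zero, Ideal.one_eq_top]
    exact Submodule.mem_top
  | succ n ih =>
    obtain ⟨S, hS, hS'⟩ := ih
    refine ⟨{1} ∪ ⋃ i : κ, (fun s => X i * s) '' S, ?_, ?_⟩
    · exact (Set.finite_singleton _).union (Set.finite_iUnion fun i => hS.image _)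
    · intro f
      have h0 : constantCoeff (f - C (constantCoeff f)) = 0 := by
        rw [map_sub, constantCoeff_C, sub_self]
      obtain ⟨g, hg, -⟩ := mm_dec _ h0
      choose r hr hr' using fun i => hS' (g i)
      refine ⟨constantCoeff f • 1 + ∑ i, X i * r i, ?_, ?_⟩
      · refine Submodule.add_mem _ ?_ ?_
        · exact Submodule.smul_mem _ _ (Submodule.subset_span (Or.inl rfl))
        · refine Submodule.sum_mem _ fun i _ => ?_
          have h1 : ∀ s ∈ Submodule.span K S, X i * s ∈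
              Submodule.span K ({1} ∪ ⋃ i : κ, (fun s => X i * s) '' S) := by
            intro s hs
            induction hs using Submodule.span_induction with
            | mem x hx =>
              exact Submodule.subset_span (Or.inr (Set.mem_iUnion.2 ⟨i, x, hx, rfl⟩))
            | zero => rw [mul_zero]; exact Submodule.zero_mem _
            | add x y _ _ hx hy => rw [mul_add]; exact Submodule.add_mem _ hx hy
            | smul a x _ hx => rw [mul_smul_comm]; exact Submodule.smul_mem _ _ hx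
          exact h1 _ (hr i)
      · have h2 : f - (constantCoeff f • 1 + ∑ i, X i * r i) = ∑ i, X i * (g i - r i) := by
          have h3 : (constantCoeff f • 1 : MvPowerSeries κ K) = C (constantCoeff f) := by
            rw [MvPowerSeries.smul_eq_C_mul, mul_one]
          rw [h3, ← sub_sub, hg, ← Finset.sum_sub_distrib]
          exact Finset.sum_congr rfl fun i _ => by rw [mul_sub]
        rw [h2, pow_succ']
        refine Ideal.sum_mem _ fun i _ => Ideal.mul_mem_mul ?_ (hr' i)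
        exact constantCoeff_X i

/-- PROOF. By induction on `n`: `MvPowerSeries κ K` is the sum of the `K`-span of finitely many elements and of
`mm κ K ^ n`. Step: `f = C (f 0) + ∑ i, X i * g i` (`mm_dec`), apply the induction hypothesis to the `g i`; the new
finite set is `{1} ∪ {X i * s}`. So `R ⧸ F` is generated over `K` by finitely many elements. -/
theorem fin_quot (F : Ideal (MvPowerSeries κ K)) (n : ℕ) (h : mm κ K ^ n ≤ F) :
    Module.Finite K (MvPowerSeries κ K ⧸ F) := by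
  obtain ⟨S, hS, hS'⟩ := yb1_gen (κ := κ) (K := K) n
  let q : MvPowerSeries κ K →ₗ[K] MvPowerSeries κ K ⧸ F := (Ideal.Quotient.mkₐ K F).toLinearMap
  have hfg : (⊤ : Submodule K (MvPowerSeries κ K ⧸ F)).FG := by
    refine Submodule.fg_def.2 ⟨q '' S, hS.image _, ?_⟩
    rw [← Submodule.map_span, eq_top_iff]
    rintro x -
    obtain ⟨f, rfl⟩ := Ideal.Quotient.mk_surjective x
    obtain ⟨g, hg, hg'⟩ := hS' f
    refine ⟨g, hg, ?_⟩
    exact (Ideal.Quotient.eq.2 (h hg')).symm
  exact ⟨hfg⟩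

/-- PROOF. The map `R ⧸ F → (A → K)`, `f ↦ (coeff α f)`, is `K`-linear and surjective (take the series with the given
coefficients at `A` and `0` elsewhere). -/
theorem card_le_quot (F : Ideal (MvPowerSeries κ K)) [Module.Finite K (MvPowerSeries κ K ⧸ F)]
    (A : Finset (κ →₀ ℕ)) (hA : ∀ α ∈ A, ∀ f ∈ F, coeff α f = 0) :
    A.card ≤ Module.finrank K (MvPowerSeries κ K ⧸ F) := by
  classical
  let L : MvPowerSeries κ K →ₗ[K] (A → K) := LinearMap.pi fun α => coeff (α : κ →₀ ℕ)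
  have hL : ∀ f α, L f α = coeff (α : κ →₀ ℕ) f := fun f α => rfl
  have hker : F.restrictScalars K ≤ LinearMap.ker L := by
    intro f hf
    rw [LinearMap.mem_ker]
    funext α
    exact hA α α.2 f hf
  let L' : (MvPowerSeries κ K ⧸ F) →ₗ[K] (A → K) :=
    ((F.restrictScalars K).liftQ L hker) ∘ₗ (Submodule.Quotient.restrictScalarsEquiv K F).symm.toLinearMap
  have hs : Function.Surjective L' := by
    intro v
    let f : MvPowerSeries κ K := fun β => if h : β ∈ A then v ⟨β, h⟩ else 0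
    have hf : ∀ β, coeff β f = if h : β ∈ A then v ⟨β, h⟩ else 0 := fun β => rfl
    refine ⟨Submodule.Quotient.mk f, ?_⟩
    change L f = v
    funext α
    rw [hL, hf, dif_pos α.2]
  have h1 := LinearMap.finrank_le_finrank_of_surjective (f := L') hs
  rwa [Module.finrank_fintype_fun_eq_card, Fintype.card_coe] at h1

/-! Piece Yb-2 -/

private theorem Yb2_smul (F F' : Ideal (MvPowerSeries κ K)) (hm : mm κ K * F ≤ F')
    (g z : MvPowerSeries κ K) (hg : g ∈ F) :
    Ideal.Quotient.mk F' (g * z) = constantCoeff z • Ideal.Quotient.mk F' g := by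
  have h1 : constantCoeff z • Ideal.Quotient.mk F' g =
      Ideal.Quotient.mk F' (C (constantCoeff z) * g) := by
    rw [← MvPowerSeries.smul_eq_C_mul]
    rfl
  rw [h1, Ideal.Quotient.eq]
  have h2 : g * z - C (constantCoeff z) * g = (z - C (constantCoeff z)) * g := by ring
  rw [h2]
  refine hm (Ideal.mul_mem_mul ?_ hg)
  rw [mem_mm, map_sub, constantCoeff_C, sub_self]

private theorem Yb2_span (F F' : Ideal (MvPowerSeries κ K)) (hFF : F' ≤ F)
    (hm : mm κ K * F ≤ F') (G : Set (MvPowerSeries κ K)) (hG : ∀ g ∈ G, g ∈ F)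
    (hspan : F ≤ Ideal.span G ⊔ F') (x : MvPowerSeries κ K) (hx : x ∈ F) :
    Ideal.Quotient.mk F' x ∈ Submodule.span K (Ideal.Quotient.mk F' '' G) := by
  obtain ⟨s, hs, f', hf', rfl⟩ := Submodule.mem_sup.1 (hspan hx)
  rw [map_add, Ideal.Quotient.eq_zero_iff_mem.2 hf', add_zero]
  have key : ∀ s ∈ Ideal.span G, s ∈ F ∧
      Ideal.Quotient.mk F' s ∈ Submodule.span K (Ideal.Quotient.mk F' '' G) := by
    intro s hs
    refine Submodule.span_induction ?_ ?_ ?_ ?_ hs
    · intro g hg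
      exact ⟨hG g hg, Submodule.subset_span ⟨g, hg, rfl⟩⟩
    · rw [map_zero]
      exact ⟨F.zero_mem, Submodule.zero_mem _⟩
    · rintro a b _ _ ⟨ha, ha'⟩ ⟨hb, hb'⟩
      rw [map_add]
      exact ⟨F.add_mem ha hb, Submodule.add_mem _ ha' hb'⟩
    · rintro r a _ ⟨ha, ha'⟩
      refine ⟨F.mul_mem_left r ha, ?_⟩
      rw [smul_eq_mul, mul_comm, Yb2_smul F F' hm a r ha]
      exact Submodule.smul_mem _ _ ha'
  exact (key s hs).2

/-- The basic step.
PROOF. Let `V` be the image of `F` in `R ⧸ F'`, a finite dimensional `K`-space of dimension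
`n = finrank K (R ⧸ F') - finrank K (R ⧸ F)` (`(R ⧸ F') ⧸ V ≃ R ⧸ F`). As `mm * F ≤ F'`, `F ≤ span G ⊔ F'` and
`R = K + mm`, `V` is spanned over `K` by the images of `G`, so there are `g 1, .., g n ∈ G` whose images form a basis of `V`
(`exists_linearIndependent` in the spanning set). Let `z 1, .., z M ∈ B` have constant coefficients forming a `ℂ`-basis of
`B.map (ccL κ K)`. The elements `g i * z j ∈ D ⊓ F` are linearly independent over `ℂ` modulo `F'`: if
`∑ c i j • g i * z j ∈ F'` then in `V`, where `z j` acts as the scalar `constantCoeff (z j)` (`z j - C (constantCoeff (z j)) ∈ mm`,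
`mm * F ≤ F'`), `∑ i, (∑ j, c i j • constantCoeff (z j)) • g i = 0`, so all `∑ j, c i j • constantCoeff (z j) = 0` and all
`c i j = 0`. So `finrank (D ⊓ F) ≥ finrank (D ⊓ F') + n * M`. (If `B.map` is infinite dimensional its `finrank` is `0` and
the claim is `finrank (D ⊓ F') ≤ finrank (D ⊓ F)`.) -/
theorem step (D B : Submodule ℂ (MvPowerSeries κ K)) [Module.Finite ℂ D]
    (F F' : Ideal (MvPowerSeries κ K)) (hFF : F' ≤ F) (hm : mm κ K * F ≤ F')
    [Module.Finite K (MvPowerSeries κ K ⧸ F')]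
    (G : Set (MvPowerSeries κ K)) (hG : ∀ g ∈ G, g ∈ F) (hspan : F ≤ Ideal.span G ⊔ F')
    (hD : ∀ g ∈ G, ∀ z ∈ B, g * z ∈ D) :
    Module.finrank ℂ (B.map (ccL κ K)) * Module.finrank K (MvPowerSeries κ K ⧸ F') +
        Module.finrank ℂ (D ⊓ F'.restrictScalars ℂ : Submodule ℂ (MvPowerSeries κ K)) ≤
      Module.finrank ℂ (B.map (ccL κ K)) * Module.finrank K (MvPowerSeries κ K ⧸ F) +
        Module.finrank ℂ (D ⊓ F.restrictScalars ℂ : Submodule ℂ (MvPowerSeries κ K)) := by
  classical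
  obtain ⟨ψ, hψ⟩ : ∃ ψ : (MvPowerSeries κ K ⧸ F') →ₗ[K] (MvPowerSeries κ K ⧸ F),
      ψ = (Ideal.Quotient.factorₐ K hFF).toLinearMap := ⟨_, rfl⟩
  have hψa : ∀ x, ψ (Ideal.Quotient.mk F' x) = Ideal.Quotient.mk F x := by
    intro x
    rw [hψ]
    rfl
  have hψs : Function.Surjective ψ := by
    intro y
    obtain ⟨x, rfl⟩ := Ideal.Quotient.mk_surjective y
    exact ⟨Ideal.Quotient.mk F' x, hψa x⟩
  have hker : LinearMap.ker ψ = Submodule.span K (Ideal.Quotient.mk F' '' G) := by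
    apply le_antisymm
    · intro y hy
      obtain ⟨x, rfl⟩ := Ideal.Quotient.mk_surjective y
      rw [LinearMap.mem_ker, hψa, Ideal.Quotient.eq_zero_iff_mem] at hy
      exact Yb2_span F F' hFF hm G hG hspan x hy
    · rw [Submodule.span_le]
      rintro _ ⟨g, hg, rfl⟩
      rw [SetLike.mem_coe, LinearMap.mem_ker, hψa, Ideal.Quotient.eq_zero_iff_mem]
      exact hG g hg
  obtain ⟨b, hbs, hbspan, hbli⟩ := exists_linearIndependent K (Ideal.Quotient.mk F' '' G)
  have hbfin : b.Finite := hbli.setFinite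
  have : Fintype b := hbfin.fintype
  have hn : Module.finrank K (LinearMap.ker ψ) = Fintype.card b := by
    rw [hker, ← hbspan]
    have := finrank_span_eq_card hbli
    rw [Subtype.range_coe_subtype, Set.ofPred_mem_eq] at this
    exact this
  have hdim : Module.finrank K (MvPowerSeries κ K ⧸ F') =
      Module.finrank K (MvPowerSeries κ K ⧸ F) + Fintype.card b := by
    have h1 := LinearMap.finrank_range_add_finrank_ker ψ
    rw [LinearMap.range_eq_top.2 hψs, finrank_top, hn] at h1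
    exact h1.symm
  -- the image of the larger space modulo `F'`
  obtain ⟨θ, hθ⟩ : ∃ θ : (D ⊓ F.restrictScalars ℂ : Submodule ℂ (MvPowerSeries κ K)) →ₗ[ℂ]
      (MvPowerSeries κ K ⧸ F'), θ = (Ideal.Quotient.mkₐ ℂ F').toLinearMap ∘ₗ
        (D ⊓ F.restrictScalars ℂ : Submodule ℂ (MvPowerSeries κ K)).subtype := ⟨_, rfl⟩
  have hθa : ∀ x, θ x = Ideal.Quotient.mk F' x.1 := by
    intro x
    rw [hθ]
    rfl
  have hfin : Module.Finite ℂ (D ⊓ F.restrictScalars ℂ : Submodule ℂ (MvPowerSeries κ K)) :=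
    Submodule.finiteDimensional_inf_left _ _
  have hrk := LinearMap.finrank_range_add_finrank_ker θ
  have hk : Module.finrank ℂ (D ⊓ F'.restrictScalars ℂ : Submodule ℂ (MvPowerSeries κ K)) ≤
      Module.finrank ℂ (LinearMap.ker θ) := by
    have hle : (D ⊓ F'.restrictScalars ℂ : Submodule ℂ (MvPowerSeries κ K)) ≤
        (D ⊓ F.restrictScalars ℂ : Submodule ℂ (MvPowerSeries κ K)) :=
      fun x hx => ⟨hx.1, hFF hx.2⟩
    obtain ⟨j, hj⟩ : ∃ j : (D ⊓ F'.restrictScalars ℂ : Submodule ℂ (MvPowerSeries κ K)) →ₗ[ℂ]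
        (D ⊓ F.restrictScalars ℂ : Submodule ℂ (MvPowerSeries κ K)),
        j = Submodule.inclusion hle := ⟨_, rfl⟩
    have hja : ∀ x, (j x).1 = x.1 := by
      intro x
      rw [hj]
      rfl
    have hjk : ∀ x, j x ∈ LinearMap.ker θ := by
      intro x
      rw [LinearMap.mem_ker, hθa, hja, Ideal.Quotient.eq_zero_iff_mem]
      exact x.2.2
    refine LinearMap.finrank_le_finrank_of_injective (f := j.codRestrict _ hjk) ?_
    intro x y hxy
    have h1 := congrArg (fun t => (t.1.1 : MvPowerSeries κ K)) hxy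
    simp only [LinearMap.codRestrict_apply, hja] at h1
    exact Subtype.ext h1
  have hr : Module.finrank ℂ (B.map (ccL κ K)) * Fintype.card b ≤
      Module.finrank ℂ (LinearMap.range θ) := by
    rcases Nat.eq_zero_or_pos (Module.finrank ℂ (B.map (ccL κ K))) with h0 | h0
    · rw [h0, zero_mul]
      exact Nat.zero_le _
    have : Module.Finite ℂ (B.map (ccL κ K)) := Module.finite_of_finrank_pos h0
    obtain ⟨w, hw⟩ : ∃ w : Module.Basis (Fin (Module.finrank ℂ (B.map (ccL κ K)))) ℂ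
        (B.map (ccL κ K)), w = Module.finBasis ℂ (B.map (ccL κ K)) := ⟨_, rfl⟩
    have hz : ∀ j, ∃ z ∈ B, constantCoeff z = (w j : K) := by
      intro j
      obtain ⟨z, hz, hz'⟩ := Submodule.mem_map.1 (w j).2
      exact ⟨z, hz, by rw [← ccL_apply, hz']⟩
    choose z hzB hzc using hz
    have hg : ∀ i : b, ∃ g ∈ G, Ideal.Quotient.mk F' g = i.1 := fun i => hbs i.2
    choose g hgG hgi using hg
    have hmem : ∀ p : b × Fin (Module.finrank ℂ (B.map (ccL κ K))),
        g p.1 * z p.2 ∈ (D ⊓ F.restrictScalars ℂ : Submodule ℂ (MvPowerSeries κ K)) := fun p =>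
      ⟨hD _ (hgG _) _ (hzB _), F.mul_mem_right _ (hG _ (hgG _))⟩
    obtain ⟨v, hv⟩ : ∃ v : b × Fin (Module.finrank ℂ (B.map (ccL κ K))) → LinearMap.range θ,
        v = fun p => ⟨θ ⟨_, hmem p⟩, LinearMap.mem_range_self θ _⟩ := ⟨_, rfl⟩
    have hva : ∀ p, (v p).1 = (w p.2 : K) • (p.1.1 : MvPowerSeries κ K ⧸ F') := by
      intro p
      rw [hv]
      show θ ⟨_, hmem p⟩ = _
      rw [hθa]
      show Ideal.Quotient.mk F' (g p.1 * z p.2) = _
      rw [Yb2_smul F F' hm _ _ (hG _ (hgG _)), hzc, hgi]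
    have hli : LinearIndependent ℂ v := by
      rw [Fintype.linearIndependent_iff]
      intro c hc
      have h1 : ∑ i : b, (∑ j, c (i, j) • (w j : K)) • (i.1 : MvPowerSeries κ K ⧸ F') = 0 := by
        have h2 := congrArg Subtype.val hc
        rw [AddSubmonoidClass.coe_finsetSum, Fintype.sum_prod_type] at h2
        rw [← show ((0 : LinearMap.range θ) : MvPowerSeries κ K ⧸ F') = 0 from rfl, ← h2]
        refine Finset.sum_congr rfl fun i _ => ?_
        rw [Finset.sum_smul]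
        refine Finset.sum_congr rfl fun j _ => ?_
        rw [Submodule.coe_smul, hva, smul_assoc]
      have h3 := (Fintype.linearIndependent_iff.1 hbli) _ h1
      intro p
      have h4 := h3 p.1
      have h5 : ∑ j, c (p.1, j) • w j = 0 := by
        apply Subtype.ext
        rw [AddSubmonoidClass.coe_finsetSum]
        exact h4
      exact (Fintype.linearIndependent_iff.1 w.linearIndependent) _ h5 p.2
    have h6 := hli.fintype_card_le_finrank
    rw [Fintype.card_prod, Fintype.card_fin, mul_comm] at h6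
    exact h6
  rw [hdim, mul_add]
  omega

/-! Piece Yb-3 -/

omit [Fintype κ] in
open scoped Pointwise in
private theorem yb3_pow' (Z : ℕ × ℕ → Submodule ℂ (MvPowerSeries κ K))
    (Z_mul : ∀ {a b : ℕ × ℕ} {x y}, x ∈ Z a → y ∈ Z b → x * y ∈ Z (a + b))
    (Z_one : 1 ∈ Z 0) (s : Set (MvPowerSeries κ K)) (a : ℕ × ℕ) (hs : ∀ q ∈ s, q ∈ Z a) (i : ℕ) :
    ∀ x ∈ s ^ i, x ∈ Z (i • a) := by
  induction i with
  | zero =>
    intro x hx
    rw [pow_zero, Set.mem_one] at hx
    rw [hx, zero_smul]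
    exact Z_one
  | succ i ih =>
    intro x hx
    rw [pow_succ] at hx
    obtain ⟨y, hy, z, hz, rfl⟩ := Set.mem_mul.1 hx
    rw [succ_nsmul]
    exact Z_mul (ih y hy) (hs z hz)

omit [Fintype κ] [Algebra ℂ K] in
open scoped Pointwise in
private theorem yb3_span (s : Set (MvPowerSeries κ K)) (i : ℕ) :
    Ideal.span s ^ i = Ideal.span (s ^ i) := by
  induction i with
  | zero =>
    rw [pow_zero, pow_zero, Ideal.one_eq_top, eq_comm, Ideal.eq_top_iff_one]
    exact Ideal.subset_span (Set.mem_one.2 rfl)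
  | succ i ih =>
    rw [pow_succ, pow_succ, ih, Ideal.span_mul_span']

open scoped Pointwise in
/-- One step from `Q ^ i * m ^ j ⊔ Q ^ (i + 1)` to `Q ^ i * m ^ (j + 1) ⊔ Q ^ (i + 1)`. -/
private theorem yb3_step (Z : ℕ × ℕ → Submodule ℂ (MvPowerSeries κ K))
    (Z_mul : ∀ {a b : ℕ × ℕ} {x y}, x ∈ Z a → y ∈ Z b → x * y ∈ Z (a + b))
    (Z_one : 1 ∈ Z 0) (Z_mono : ∀ k L L', L ≤ L' → Z (k, L) ≤ Z (k, L'))
    (e : MvPowerSeries κ K) (he : e ∈ Z (1, 0)) (heu : constantCoeff e ≠ 0)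
    (s s' : Set (MvPowerSeries κ K)) (a b : ℕ × ℕ) (hs : ∀ q ∈ s, q ∈ Z a)
    (hs' : ∀ q ∈ s', q ∈ Z b) (hm : Ideal.span s' = mm κ K) (N0 : ℕ)
    (hN : mm κ K ^ N0 ≤ Ideal.span s) (n : ℕ) (c : ℕ × ℕ)
    [Module.Finite ℂ (Z (c + n • a + N0 • b))] (i j : ℕ) (hi : i ≤ n) (hj : j < N0) :
    Module.finrank ℂ ((Z c).map (ccL κ K)) * Module.finrank K (MvPowerSeries κ K ⧸
          (Ideal.span s ^ i * mm κ K ^ (j + 1) ⊔ Ideal.span s ^ (i + 1))) +
        Module.finrank ℂ (Z (c + n • a + N0 • b) ⊓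
          (Ideal.span s ^ i * mm κ K ^ (j + 1) ⊔ Ideal.span s ^ (i + 1)).restrictScalars ℂ :
            Submodule ℂ (MvPowerSeries κ K)) ≤
      Module.finrank ℂ ((Z c).map (ccL κ K)) * Module.finrank K (MvPowerSeries κ K ⧸
          (Ideal.span s ^ i * mm κ K ^ j ⊔ Ideal.span s ^ (i + 1))) +
        Module.finrank ℂ (Z (c + n • a + N0 • b) ⊓
          (Ideal.span s ^ i * mm κ K ^ j ⊔ Ideal.span s ^ (i + 1)).restrictScalars ℂ :
            Submodule ℂ (MvPowerSeries κ K)) := by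
  have hfin : Module.Finite K (MvPowerSeries κ K ⧸
      (Ideal.span s ^ i * mm κ K ^ (j + 1) ⊔ Ideal.span s ^ (i + 1))) := by
    refine fin_quot _ (N0 * (i + 1)) ?_
    rw [pow_mul]
    exact (Ideal.pow_right_mono hN _).trans le_sup_right
  have heu' : IsUnit e := by
    rw [MvPowerSeries.isUnit_iff_constantCoeff]
    exact heu.isUnit
  let t : ℕ := (n - i) * a.1 + (N0 - j) * b.1
  refine step (Z (c + n • a + N0 • b)) (Z c) _ _ ?_ ?_
    ((fun g => e ^ t * g) '' (s ^ i * s' ^ j)) ?_ ?_ ?_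
  · refine sup_le_sup_right ?_ _
    exact Ideal.mul_mono_right (Ideal.pow_le_pow_right (Nat.le_succ j))
  · rw [Ideal.mul_sup]
    refine sup_le_sup ?_ Ideal.mul_le_right
    rw [pow_succ]
    refine le_of_eq ?_
    ring
  · rintro _ ⟨g, hg, rfl⟩
    refine Ideal.mul_mem_left _ _ (Ideal.mem_sup_left ?_)
    rw [← hm, yb3_span, yb3_span, Ideal.span_mul_span']
    exact Ideal.subset_span hg
  · refine sup_le_sup ?_ le_sup_right
    rw [← hm, yb3_span, yb3_span, Ideal.span_mul_span', Ideal.span_le]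
    intro g hg
    obtain ⟨u, hu⟩ := heu'.pow t
    have h1 : g = (↑u⁻¹ : MvPowerSeries κ K) * (e ^ t * g) := by
      rw [← hu, ← mul_assoc, Units.inv_mul, one_mul]
    rw [h1]
    exact Ideal.mul_mem_left _ _ (Ideal.subset_span ⟨g, hg, rfl⟩)
  · rintro _ ⟨g, hg, rfl⟩ z hz
    obtain ⟨x, hx, y, hy, rfl⟩ := Set.mem_mul.1 hg
    have hx' := yb3_pow' Z Z_mul Z_one s a hs i x hx
    have hy' := yb3_pow' Z Z_mul Z_one s' b hs' j y hy
    have he' := yb3_pow' Z Z_mul Z_one {e} (1, 0) (by rintro _ rfl; exact he) t (e ^ t) (by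
      rw [Set.singleton_pow]; rfl)
    have h2 := Z_mul (Z_mul he' (Z_mul hx' hy')) hz
    have h3 : t • (1, 0) + (i • a + j • b) + c =
        (((c + n • a + N0 • b).1, i * a.2 + j * b.2 + c.2) : ℕ × ℕ) := by
      refine Prod.ext ?_ ?_
      · simp only [Prod.fst_add, Prod.smul_fst, smul_eq_mul, mul_one, t]
        have e1 : n * a.1 = (n - i) * a.1 + i * a.1 := by
          rw [← add_mul, Nat.sub_add_cancel hi]
        have e2 : N0 * b.1 = (N0 - j) * b.1 + j * b.1 := by
          rw [← add_mul, Nat.sub_add_cancel hj.le]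
        rw [e1, e2]
        ring
      · simp only [Prod.snd_add, Prod.smul_snd, smul_eq_mul, mul_zero, zero_add]
    rw [h3] at h2
    refine Z_mono _ _ _ ?_ h2
    simp only [Prod.snd_add, Prod.smul_snd, smul_eq_mul]
    have e1 : i * a.2 ≤ n * a.2 := Nat.mul_le_mul_right _ hi
    have e2 : j * b.2 ≤ N0 * b.2 := Nat.mul_le_mul_right _ hj.le
    omega

/-- PROOF. Let `Q = span s`, `m = mm κ K = span s'`, `D = Z (c + n • a + N0 • b)`, `B = Z c`, and for an ideal `F`
`Φ F = M * finrank K (R ⧸ F) + finrank ℂ (D ⊓ F)`, `M = finrank (B.map ccL)`. For `i ≤ n` and `j < N0` let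
`F = Q ^ i * m ^ j ⊔ Q ^ (i + 1)`, `F' = Q ^ i * m ^ (j + 1) ⊔ Q ^ (i + 1)` and `G` the set of the products of `e ^ t` with
`i` elements of `s` and `j` elements of `s'`, where `t` is the first component of `(n - i) • a + (N0 - j) • b`. Then
`G ⊆ F`, `span G = Q ^ i * m ^ j` (`e` is a unit), and `g * z ∈ D` for `g ∈ G`, `z ∈ B` (`Z_mul`, then `Z_mono` for the second
component). `F'` contains `m ^ (N0 * (i + 1))`, so `fin_quot`; `step` gives `Φ F' ≤ Φ F`. The last `F'`, `j + 1 = N0`, is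
`Q ^ (i + 1)`, the first `F`, `j = 0`, is `Q ^ i`. So `Φ (Q ^ (i + 1)) ≤ Φ (Q ^ i)` for `i ≤ n`, and
`Φ (Q ^ (n + 1)) ≤ Φ ⊤ = finrank D` (`R ⧸ ⊤` is zero). (`N0 = 0`: then `Q = ⊤` and `R ⧸ Q ^ (n + 1)` is zero.) -/
theorem count (Z : ℕ × ℕ → Submodule ℂ (MvPowerSeries κ K))
    (Z_mul : ∀ {a b : ℕ × ℕ} {x y}, x ∈ Z a → y ∈ Z b → x * y ∈ Z (a + b))
    (Z_one : 1 ∈ Z 0) (Z_mono : ∀ k L L', L ≤ L' → Z (k, L) ≤ Z (k, L'))
    (e : MvPowerSeries κ K) (he : e ∈ Z (1, 0)) (heu : constantCoeff e ≠ 0)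
    (s s' : Set (MvPowerSeries κ K)) (a b : ℕ × ℕ) (hs : ∀ q ∈ s, q ∈ Z a)
    (hs' : ∀ q ∈ s', q ∈ Z b) (hm : Ideal.span s' = mm κ K) (N0 : ℕ)
    (hN : mm κ K ^ N0 ≤ Ideal.span s) (n : ℕ) (c : ℕ × ℕ)
    [Module.Finite ℂ (Z (c + n • a + N0 • b))] :
    Module.finrank ℂ ((Z c).map (ccL κ K)) *
        Module.finrank K (MvPowerSeries κ K ⧸ (Ideal.span s ^ (n + 1))) ≤
      Module.finrank ℂ (Z (c + n • a + N0 • b)) := by
  let Φ : Ideal (MvPowerSeries κ K) → ℕ := fun F =>
    Module.finrank ℂ ((Z c).map (ccL κ K)) * Module.finrank K (MvPowerSeries κ K ⧸ F) +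
      Module.finrank ℂ (Z (c + n • a + N0 • b) ⊓ F.restrictScalars ℂ :
        Submodule ℂ (MvPowerSeries κ K))
  have h1 : ∀ i ≤ n, ∀ j ≤ N0, Φ (Ideal.span s ^ i * mm κ K ^ j ⊔ Ideal.span s ^ (i + 1)) ≤
      Φ (Ideal.span s ^ i) := by
    intro i hi j
    induction j with
    | zero =>
      intro _
      rw [pow_zero, mul_one, sup_eq_left.2 (Ideal.pow_le_pow_right (Nat.le_succ i))]
    | succ j ih =>
      intro hj
      exact (yb3_step Z Z_mul Z_one Z_mono e he heu s s' a b hs hs' hm N0 hN n c i j hi hj).trans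
        (ih (Nat.le_of_succ_le hj))
  have h2 : ∀ i ≤ n, Φ (Ideal.span s ^ (i + 1)) ≤ Φ (Ideal.span s ^ i) := by
    intro i hi
    have h3 := h1 i hi N0 le_rfl
    rwa [sup_eq_right.2 (by
      rw [pow_succ]
      exact Ideal.mul_mono_right hN)] at h3
  have h3 : ∀ i ≤ n + 1, Φ (Ideal.span s ^ i) ≤ Φ ⊤ := by
    intro i
    induction i with
    | zero =>
      intro _
      rw [pow_zero, Ideal.one_eq_top]
    | succ i ih =>
      intro hi
      exact (h2 i (by omega)).trans (ih (by omega))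
  have h4 : Φ ⊤ = Module.finrank ℂ (Z (c + n • a + N0 • b)) := by
    have h5 : Module.finrank K (MvPowerSeries κ K ⧸ (⊤ : Ideal (MvPowerSeries κ K))) = 0 := by
      have : Subsingleton (MvPowerSeries κ K ⧸ (⊤ : Ideal (MvPowerSeries κ K))) :=
        Ideal.Quotient.subsingleton_iff.2 rfl
      exact Module.finrank_zero_of_subsingleton
    simp only [Φ]
    rw [h5, mul_zero, zero_add]
    rw [show (Submodule.restrictScalars ℂ (⊤ : Ideal (MvPowerSeries κ K))) = ⊤ from rfl,
      inf_top_eq]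
  rw [← h4]
  exact (Nat.le_add_right _ _).trans (h3 (n + 1) le_rfl)

/-- PROOF. `count` with `n = card κ * N`, `Q ^ (n + 1) ≤ WI J T K (T * (n + 1))` (`WI_pow`), the set `A` of `card_A N`,
`card_le_quot` (`fin_quot` for `Q ^ (n + 1) ≥ mm ^ (N0 * (n + 1))`). -/
theorem count_main (Z : ℕ × ℕ → Submodule ℂ (MvPowerSeries κ K))
    (Z_mul : ∀ {a b : ℕ × ℕ} {x y}, x ∈ Z a → y ∈ Z b → x * y ∈ Z (a + b))
    (Z_one : 1 ∈ Z 0) (Z_mono : ∀ k L L', L ≤ L' → Z (k, L) ≤ Z (k, L'))
    (e : MvPowerSeries κ K) (he : e ∈ Z (1, 0)) (heu : constantCoeff e ≠ 0)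
    (s s' : Set (MvPowerSeries κ K)) (a b : ℕ × ℕ) (hs : ∀ q ∈ s, q ∈ Z a)
    (hs' : ∀ q ∈ s', q ∈ Z b) (hm : Ideal.span s' = mm κ K) (N0 : ℕ)
    (hN : mm κ K ^ N0 ≤ Ideal.span s) (J : Finset κ) (T : ℕ) (hT : 1 ≤ T)
    (hQ : Ideal.span s ≤ WI J T K T) (N : ℕ) (c : ℕ × ℕ)
    [Module.Finite ℂ (Z (c + (Fintype.card κ * N) • a + N0 • b))] :
    Module.finrank ℂ ((Z c).map (ccL κ K)) * (T ^ J.card * N ^ Fintype.card κ) ≤
      Module.finrank ℂ (Z (c + (Fintype.card κ * N) • a + N0 • b)) := by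
  obtain ⟨A, hA, hcard⟩ := card_A J T N hT
  have : Module.Finite K (MvPowerSeries κ K ⧸ Ideal.span s ^ (Fintype.card κ * N + 1)) := by
    refine fin_quot _ (N0 * (Fintype.card κ * N + 1)) ?_
    rw [pow_mul]
    exact Ideal.pow_right_mono hN _
  have h1 := card_le_quot (Ideal.span s ^ (Fintype.card κ * N + 1)) A (by
    intro α hα f hf
    exact WI_pow J T T _ (Ideal.pow_right_mono hQ _ hf) α (hA α hα))
  have h2 := count Z Z_mul Z_one Z_mono e he heu s s' a b hs hs' hm N0 hN (Fintype.card κ * N) c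
  exact (Nat.mul_le_mul_left _ (hcard.trans h1)).trans h2

end

end Pool.Agent.Helper63.LU
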