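import Pool.Agent.Helper63.LU.Yb
import Pool.Agent.Helper63.LT.Za

/-!
PROJECT LU (LT2), block Z2. Part c: Taylor expansion along a subspace, then in the normal directions.
-/

namespace Pool.Agent.Helper63.LU

open Finset MvPowerSeries
open Pool.Agent.Helper63.LT

noncomputable section

instance instDomPS' {ι : Type} : IsDomain (MvPowerSeries ι ℂ) := NoZeroDivisors.to_isDomain _

section gen

variable {ι : Type} [Fintype ι] {R : Type} [CommRing R] [Algebra ℂ R]

/-! Piece Yc-1: new families of directions -/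

theorem dir_apply (d : CD ι R) (a : ι → ℂ) (x : R) : d.dir a x = ∑ i, a i • d.D i x := by
  unfold CD.dir
  have h3 := map_sum (Derivation.coeFnAddMonoidHom (R := ℂ) (A := R) (M := R))
    (fun i => a i • d.D i) univ
  have h4 := congr_fun h3 x
  rw [Finset.sum_apply] at h4
  exact h4

theorem dir_comm (d : CD ι R) (a a' : ι → ℂ) (x : R) :
    d.dir a (d.dir a' x) = d.dir a' (d.dir a x) := by
  simp only [dir_apply, map_sum, Derivation.map_smul, Finset.smul_sum]
  rw [Finset.sum_comm]
  refine Finset.sum_congr rfl fun i _ => Finset.sum_congr rfl fun j _ => ?_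
  rw [smul_comm, d.comm]

/-- The subfamily given by `f : κ → ι`. -/
def re (d : CD ι R) {κ : Type} (f : κ → ι) : CD κ R where
  D i := d.D (f i)
  comm i j x := d.comm (f i) (f j) x

/-- The family of the linear combinations given by the rows of `M`. -/
def lin (d : CD ι R) {κ : Type} (M : κ → ι → ℂ) : CD κ R where
  D i := d.dir (M i)
  comm i j x := dir_comm d (M i) (M j) x

theorem re_D (d : CD ι R) {κ : Type} (f : κ → ι) (i : κ) : (re d f).D i = d.D (f i) := rfl

theorem lin_D (d : CD ι R) {κ : Type} (M : κ → ι → ℂ) (i : κ) : (lin d M).D i = d.dir (M i) := rfl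

omit [Fintype ι] in
private theorem Yc1_ind {P : (ι →₀ ℕ) → Prop} (h0 : P 0)
    (h1 : ∀ α i, P α → P (α + Finsupp.single i 1)) (α : ι →₀ ℕ) : P α := by
  have key : ∀ β, P β → P (β + α) := by
    induction α using Finsupp.induction_linear with
    | zero =>
      intro β hβ
      rwa [add_zero]
    | add f g hf hg =>
      intro β hβ
      rw [← add_assoc]
      exact hg _ (hf _ hβ)
    | single i b =>
      induction b with
      | zero =>
        intro β hβ
        rwa [Finsupp.single_zero, add_zero]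
      | succ b ih =>
        intro β hβ
        rw [Finsupp.single_add, ← add_assoc]
        exact h1 _ i (ih β hβ)
  have h2 := key 0 h0
  rwa [zero_add] at h2

/-- PROOF. Induction on the degree of `β` (`CD.pw_succ`; `mapDomain` is additive). -/
theorem re_pw (d : CD ι R) {κ : Type} [Fintype κ] (f : κ → ι) (β : κ →₀ ℕ) (x : R) :
    (re d f).pw β x = d.pw (β.mapDomain f) x := by
  induction β using Yc1_ind with
  | h0 => rw [CD.pw_zero, Finsupp.mapDomain_zero, CD.pw_zero]
  | h1 β i ih =>
    rw [CD.pw_succ, ih, Finsupp.mapDomain_add, Finsupp.mapDomain_single, CD.pw_succ, re_D]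

/-- PROOF. `dir_apply` and linearity. -/
theorem lin_dir (d : CD ι R) {κ : Type} [Fintype κ] (M : κ → ι → ℂ) (a : κ → ℂ) (x : R) :
    (lin d M).dir a x = d.dir (fun j => ∑ i, a i * M i j) x := by
  rw [dir_apply, dir_apply]
  simp only [lin_D, dir_apply, Finset.smul_sum, Finset.sum_smul, smul_smul]
  rw [Finset.sum_comm]

end gen

variable {ι : Type} [Fintype ι]

/-! Piece Yc-2: the two steps -/

/-- The indices outside `J` (normal coordinates). -/
def Out (J : Finset ι) : Type := {i // i ∉ J}

instance instFintypeOut (J : Finset ι) : Fintype (Out J) :=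
  Fintype.ofFinite {i // i ∉ J}

/-- The underlying index. -/
def vo (J : Finset ι) (x : Out J) : ι := Subtype.val (p := fun i => i ∉ J) x

theorem vo_inj (J : Finset ι) : Function.Injective (vo J) := Subtype.val_injective

theorem vo_notMem (J : Finset ι) (x : Out J) : vo J x ∉ J := Subtype.property (p := fun i => i ∉ J) x

theorem exists_vo (J : Finset ι) {i : ι} (h : i ∉ J) : ∃ x : Out J, vo J x = i := ⟨⟨i, h⟩, rfl⟩

theorem card_Out (J : Finset ι) : Fintype.card (Out J) = Fintype.card ι - J.card := by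
  classical
  rw [← Nat.card_eq_fintype_card]
  show Nat.card {i // ¬ i ∈ J} = _
  rw [Nat.card_eq_fintype_card, Fintype.card_subtype_compl (fun i => i ∈ J), Fintype.card_coe]

/-- Constant coefficient as an algebra homomorphism. -/
def ccA (ι : Type) : MvPowerSeries ι ℂ →ₐ[ℂ] ℂ :=
  { (constantCoeff : MvPowerSeries ι ℂ →+* ℂ) with
    commutes' := by
      intro r
      show constantCoeff (algebraMap ℂ (MvPowerSeries ι ℂ) r) = algebraMap ℂ ℂ r
      rw [MvPowerSeries.algebraMap_apply]
      exact constantCoeff_C _ }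

theorem ccA_apply (f : MvPowerSeries ι ℂ) : ccA ι f = constantCoeff f := rfl

/-- The function field of the subspace with the coordinates in `J`. -/
abbrev KK (J : Finset ι) : Type := FractionRing (MvPowerSeries {i // i ∈ J} ℂ)

/-- Restriction to the subspace with the coordinates in `J`. -/
def evt (J : Finset ι) : MvPowerSeries ι ℂ →ₐ[ℂ] MvPowerSeries {i // i ∈ J} ℂ :=
  tay (re (psD ι) (Subtype.val : {i // i ∈ J} → ι)) (ccA ι)

/-- The embedding of the power series in the function field. -/
def toK (J : Finset ι) : MvPowerSeries {i // i ∈ J} ℂ →ₐ[ℂ] KK J :=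
  IsScalarTower.toAlgHom ℂ (MvPowerSeries {i // i ∈ J} ℂ) (KK J)

theorem toK_inj (J : Finset ι) : Function.Injective (toK J) :=
  IsFractionRing.injective (MvPowerSeries {i // i ∈ J} ℂ) (KK J)

/-- Expansion in the normal directions over the function field. -/
def rho (J : Finset ι) : MvPowerSeries ι ℂ →ₐ[ℂ] MvPowerSeries (Out J) (KK J) :=
  tay (re (psD ι) (vo J)) ((toK J).comp (evt J))

private theorem Yc2_fct {κ : Type} [Fintype κ] (f : κ → ι) (hf : Function.Injective f)
    (α : κ →₀ ℕ) : fct (α.mapDomain f) = fct α := by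
  unfold fct
  refine (Fintype.prod_of_injective f hf (fun i => (α i).factorial)
    (fun j => (α.mapDomain f j).factorial) (fun j hj => ?_) (fun i => ?_)).symm
  · rw [Finsupp.mapDomain_notin_range _ _ hj, Nat.factorial_zero]
  · rw [Finsupp.mapDomain_apply hf]

/-- PROOF. `coeff_tay`, `re_pw`, `psD_pw`; `fct` of `mapDomain` under an injective map. -/
theorem coeff_evt (J : Finset ι) (f : MvPowerSeries ι ℂ) (α : {i // i ∈ J} →₀ ℕ) :
    coeff α (evt J f) = coeff (α.mapDomain Subtype.val) f := by
  unfold evt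
  rw [coeff_tay, re_pw, ccA_apply, psD_pw, Yc2_fct _ Subtype.val_injective, smul_eq_mul,
    inv_mul_cancel_left₀ (fct_ne α)]

theorem cc_rho (J : Finset ι) (f : MvPowerSeries ι ℂ) :
    constantCoeff (rho J f) = toK J (evt J f) := by
  unfold rho
  rw [constantCoeff_tay]
  rfl

/-- PROOF. `rho` is injective on the constant terms: if `f` has constant coefficient `≠ 0` so has `rho J f`. -/
theorem cc_rho_ne (J : Finset ι) (f : MvPowerSeries ι ℂ) (h : constantCoeff f ≠ 0) :
    constantCoeff (rho J f) ≠ 0 := by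
  rw [cc_rho]
  intro h0
  have h1 : evt J f = 0 := toK_inj J (by rw [h0, map_zero])
  have h2 := coeff_evt J f 0
  rw [h1, Finsupp.mapDomain_zero, coeff_zero_eq_constantCoeff_apply,
    coeff_zero_eq_constantCoeff_apply, map_zero] at h2
  exact h h2.symm

variable {S : Type} [CommRing S] [Algebra ℂ S]

/-- PROOF. `tay_nat` with `θ = tay d ψ` (`pderiv_tay`) for the family `re d val` and `re (psD ι) val`:
`evt J (tay d ψ x) = tay (re (psD ι) val) (ccA ι) (θ x) = tay (re d val) ((ccA ι).comp θ) x`, `(ccA ι).comp θ = ψ`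
(`constantCoeff_tay`). -/
theorem evt_tay (J : Finset ι) (d : CD ι S) (ψ : S →ₐ[ℂ] ℂ) (x : S) :
    evt J (tay d ψ x) = tay (re d (Subtype.val : {i // i ∈ J} → ι)) ψ x := by
  have h1 : (ccA ι).comp (tay d ψ) = ψ := by
    refine AlgHom.ext fun y => ?_
    rw [AlgHom.comp_apply, ccA_apply, constantCoeff_tay]
  have h2 := tay_nat (re d (Subtype.val : {i // i ∈ J} → ι))
    (re (psD ι) (Subtype.val : {i // i ∈ J} → ι)) (tay d ψ)
    (fun i y => (pderiv_tay d ψ y i.val).symm) (ccA ι) x
  rw [h1] at h2
  exact h2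

/-- PROOF. `tay_nat` with `θ = tay d ψ`, `coeff_tay`, `re_pw`, `evt_tay`. -/
theorem coeff_rho_tay (J : Finset ι) (d : CD ι S) (ψ : S →ₐ[ℂ] ℂ) (x : S)
    (β : Out J →₀ ℕ) :
    coeff β (rho J (tay d ψ x)) =
      (fct β : ℂ)⁻¹ • toK J (evt J (tay d ψ (d.pw (β.mapDomain (vo J)) x))) := by
  have h2 := tay_nat (re d (vo J)) (re (psD ι) (vo J)) (tay d ψ)
    (fun i y => (pderiv_tay d ψ y (vo J i)).symm) ((toK J).comp (evt J)) x
  have h3 : rho J (tay d ψ x) =
      tay (re d (vo J)) (((toK J).comp (evt J)).comp (tay d ψ)) x := h2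
  rw [h3, coeff_tay, re_pw]
  rfl

/-- PROOF. `evt_tay`, `coeff_tay`, `re_pw`. -/
theorem evt_tay_zero (J : Finset ι) (d : CD ι S) (ψ : S →ₐ[ℂ] ℂ) (x : S)
    (h : ∀ α : ι →₀ ℕ, (∀ i, i ∉ J → α i = 0) → ψ (d.pw α x) = 0) :
    evt J (tay d ψ x) = 0 := by
  rw [evt_tay]
  refine MvPowerSeries.ext fun α => ?_
  rw [coeff_tay, re_pw, h, smul_zero, map_zero]
  intro i hi
  refine Finsupp.mapDomain_of_notMem_range _ _ ?_
  rintro ⟨j, hj⟩
  exact hi (hj ▸ j.property)

end

end Pool.Agent.Helper63.LU
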