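import Pool.Agent.Helper63.LU.Yc
import Pool.Agent.Helper63.LT.Zd

/-!
PROJECT LU (LT2), block Z2. Part d: the relative case A (abstract).
-/

namespace Pool.Agent.Helper63.LU

open Finset MvPowerSeries
open Pool.Agent.Helper63.LT (CD Filt tay fct coeff_tay constantCoeff_tay nst minp)

noncomputable section

variable {ι S : Type} [Fintype ι] [CommRing S] [Algebra ℂ S]

/-- A system with two degrees. -/
structure BData (ι S : Type) [Fintype ι] [CommRing S] [Algebra ℂ S] where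
  d : CD ι S
  G : ℕ × ℕ → Submodule ℂ S
  Z : ℕ × ℕ → Submodule ℂ (MvPowerSeries ι ℂ)
  U : MvPowerSeries ι S
  filt : Filt (Fintype.card ι) S (fun k => G (k, k))
  G_mono : ∀ {a b : ℕ × ℕ}, a ≤ b → G a ≤ G b
  U_one : constantCoeff U = 1
  Z_mul : ∀ {a b : ℕ × ℕ} {x y}, x ∈ Z a → y ∈ Z b → x * y ∈ Z (a + b)
  Z_one : 1 ∈ Z 0
  Z_mono : ∀ k L L', L ≤ L' → Z (k, L) ≤ Z (k, L')
  Z_fin : ∀ a, Module.Finite ℂ (Z a)
  Z_unit : ∃ e ∈ Z (1, 0), constantCoeff e ≠ 0
  P1 : ∀ (k L : ℕ) (φ : S), φ ∈ G (k, L) → ∀ α,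
    coeff α (tay d (AlgHom.id ℂ S) φ * U ^ k) ∈ G (2 * k, L)
  P2 : ∀ (ψ : S →ₐ[ℂ] ℂ) (k L : ℕ) (φ : S), φ ∈ G (k, L) →
    tay d ψ φ * MvPowerSeries.map (ψ : S →+* ℂ) U ^ k ∈ Z (k, L)

/-! Piece Yd-1 -/

/-- PROOF. Same proof as `LT.IJ_gen` (Helper63/LT/Zd.lean), with `D.P1 k L` in place of `D.P1`. -/
theorem IJ_gen2 (D : BData ι S) (J : Finset ι) (k L : ℕ) (f : S) (hf : f ∈ D.G (k, L)) (N : ℕ) :
    ∃ s : Set S, Pool.Agent.Helper63.LT.IJ D.d J f N = Ideal.span s ∧ ∀ x ∈ s, x ∈ D.G (2 * k, L) := by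
  classical
  set W := tay D.d (AlgHom.id ℂ S) f * D.U ^ k with hW
  have hc : ∀ τ, coeff τ W = ∑ x ∈ HasAntidiagonal.antidiagonal τ,
      (fct x.1 : ℂ)⁻¹ • D.d.pw x.1 f * coeff x.2 (D.U ^ k) := fun τ => by
    rw [hW, coeff_mul]
    rfl
  have hU : coeff 0 (D.U ^ k) = 1 := by
    rw [coeff_zero_eq_constantCoeff_apply, map_pow, D.U_one, one_pow]
  refine ⟨{x | ∃ τ : ι →₀ ℕ, (∀ i, i ∉ J → τ i = 0) ∧ τ.degree ≤ N ∧ x = coeff τ W}, ?_, ?_⟩
  · apply le_antisymm
    · refine Ideal.span_le.2 ?_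
      rintro x ⟨τ, h1, h2, rfl⟩
      have key : ∀ n, ∀ τ : ι →₀ ℕ, (∀ i, i ∉ J → τ i = 0) → τ.degree ≤ N → τ.degree = n →
          D.d.pw τ f ∈ Ideal.span {x | ∃ τ : ι →₀ ℕ, (∀ i, i ∉ J → τ i = 0) ∧ τ.degree ≤ N ∧
            x = coeff τ W} := by
        intro n
        induction n using Nat.strong_induction_on with
        | _ n ih =>
          intro τ h1 h2 h3
          have h4 : coeff τ W ∈ Ideal.span {x | ∃ τ : ι →₀ ℕ, (∀ i, i ∉ J → τ i = 0) ∧
              τ.degree ≤ N ∧ x = coeff τ W} := Ideal.subset_span ⟨τ, h1, h2, rfl⟩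
          have h5 : (τ, (0 : ι →₀ ℕ)) ∈ HasAntidiagonal.antidiagonal τ := by simp
          rw [hc, ← Finset.add_sum_erase _ _ h5, hU, mul_one] at h4
          have h6 : ∑ x ∈ (HasAntidiagonal.antidiagonal τ).erase (τ, 0),
              (fct x.1 : ℂ)⁻¹ • D.d.pw x.1 f * coeff x.2 (D.U ^ k) ∈
              Ideal.span {x | ∃ τ : ι →₀ ℕ, (∀ i, i ∉ J → τ i = 0) ∧
              τ.degree ≤ N ∧ x = coeff τ W} := by
            refine Ideal.sum_mem _ fun x hx => Ideal.mul_mem_right _ _ ?_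
            obtain ⟨hx1, hx2⟩ := Finset.mem_erase.1 hx
            have hx3 : x.1 + x.2 = τ := HasAntidiagonal.mem_antidiagonal.1 hx2
            have hx4 : x.2 ≠ 0 := by
              intro h0
              apply hx1
              rw [h0, add_zero] at hx3
              exact Prod.ext hx3 h0
            have hx5 : 0 < x.2.degree := by
              rw [Nat.pos_iff_ne_zero, Ne, Finsupp.degree_eq_zero_iff]
              exact hx4
            have hx6 : x.1.degree + x.2.degree = τ.degree := by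
              rw [← hx3, map_add]
            rw [← algebraMap_smul S, smul_eq_mul]
            refine Ideal.mul_mem_left _ _ (ih x.1.degree (by omega) x.1 ?_ (by omega) rfl)
            intro i hi
            have := h1 i hi
            rw [← hx3, Finsupp.add_apply] at this
            omega
          have h7 := (Ideal.add_mem_iff_left _ h6).1 h4
          have h8 : D.d.pw τ f = (fct τ : ℂ) • ((fct τ : ℂ)⁻¹ • D.d.pw τ f) := by
            rw [smul_smul, mul_inv_cancel₀ (Pool.Agent.Helper63.LT.fct_ne τ), one_smul]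
          rw [h8, ← algebraMap_smul S, smul_eq_mul]
          exact Ideal.mul_mem_left _ _ h7
      exact key _ τ h1 h2 rfl
    · refine Ideal.span_le.2 ?_
      rintro x ⟨τ, h1, h2, rfl⟩
      change coeff τ W ∈ Pool.Agent.Helper63.LT.IJ D.d J f N
      rw [hc]
      refine Ideal.sum_mem _ fun x hx => Ideal.mul_mem_right _ _ ?_
      have hx3 : x.1 + x.2 = τ := HasAntidiagonal.mem_antidiagonal.1 hx
      rw [← algebraMap_smul S, smul_eq_mul]
      refine Ideal.mul_mem_left _ _ (Pool.Agent.Helper63.LT.mem_IJ _ _ _ _ ?_ ?_)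
      · intro i hi
        have := h1 i hi
        rw [← hx3, Finsupp.add_apply] at this
        omega
      · have : x.1.degree + x.2.degree = τ.degree := by
          rw [← hx3, map_add]
        omega
  · rintro x ⟨τ, h1, h2, rfl⟩
    exact D.P1 k L f hf τ

/-- PROOF. `Submodule.span_induction`: for a generator `pw τ f`: `dir a (pw τ f) = ∑ i ∈ J, a i • pw (τ + single i 1) f`
(`dir_apply`, `CD.pw_succ`), for `s * x`: `dir a (s * x) = s * dir a x + x * dir a s`. -/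
theorem IJ_dir (d : CD ι S) (J : Finset ι) (f : S) (N : ℕ) (a : ι → ℂ) (ha : ∀ i, i ∉ J → a i = 0)
    (x : S) (hx : x ∈ Pool.Agent.Helper63.LT.IJ d J f N) :
    d.dir a x ∈ Pool.Agent.Helper63.LT.IJ d J f (N + 1) := by
  classical
  have hsum : ∀ z : S, d.dir a z = ∑ i, a i • d.D i z := by
    intro z
    unfold CD.dir
    have h3 := map_sum (Derivation.coeFnAddMonoidHom (R := ℂ) (A := S) (M := S))
      (fun i => a i • d.D i) univ
    have h4 := congr_fun h3 z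
    rw [Finset.sum_apply] at h4
    exact h4
  refine Submodule.span_induction ?_ ?_ ?_ ?_ hx
  · rintro z ⟨τ, h1, h2, rfl⟩
    rw [hsum]
    refine Ideal.sum_mem _ fun i _ => ?_
    by_cases hi : i ∈ J
    · rw [← algebraMap_smul S, smul_eq_mul]
      refine Ideal.mul_mem_left _ _ ?_
      rw [← CD.pw_succ]
      refine Pool.Agent.Helper63.LT.mem_IJ _ _ _ _ ?_ ?_
      · intro j hj
        rw [Finsupp.add_apply, h1 j hj, Finsupp.single_apply, if_neg, add_zero]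
        rintro rfl
        exact hj hi
      · rw [map_add, Finsupp.degree_single]
        omega
    · rw [ha i hi, zero_smul]
      exact Ideal.zero_mem _
  · rw [map_zero]
    exact Ideal.zero_mem _
  · intro z w _ _ hz hw
    rw [map_add]
    exact Ideal.add_mem _ hz hw
  · intro c z hz hz'
    rw [smul_eq_mul, Derivation.leibniz, smul_eq_mul, smul_eq_mul]
    refine Ideal.add_mem _ (Ideal.mul_mem_left _ _ hz') (Ideal.mul_mem_right _ _ ?_)
    exact Pool.Agent.Helper63.LT.IJ_mono d J f (Nat.le_succ N) hz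

/-- PROOF. Same proof as `LT.chars` (Helper63/LT/Zd.lean); the growth exponent `m` plays no role. -/
theorem chars2 {κ : Type} [Fintype κ] (d : CD κ S) {m : ℕ} {G : ℕ → Submodule ℂ S} (hG : Filt m S G)
    (I p : Ideal S) (hI : p ∈ I.minimalPrimes)
    (hp : ∀ a : κ → ℂ, a ≠ 0 → ∃ x ∈ p, d.dir a x ∉ p) :
    ∃ (y h : κ → S) (ψ : κ → (S →ₐ[ℂ] ℂ)) (N : κ → ℕ), (∀ j, y j ∈ p) ∧ (∀ j, ∀ x ∈ p, ψ j x = 0) ∧
      (∀ j, h j * y j ^ N j ∈ I) ∧ (∀ j, ψ j (h j) ≠ 0) ∧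
      LinearIndependent ℂ fun j => fun i => ψ j (d.D i (y j)) := by
  classical
  have hpp : p.IsPrime := hI.1.1
  let W : Set (κ → ℂ) := {v | ∃ (y h : S) (ψ : S →ₐ[ℂ] ℂ) (N : ℕ), y ∈ p ∧ (∀ x ∈ p, ψ x = 0) ∧
    h * y ^ N ∈ I ∧ ψ h ≠ 0 ∧ v = fun i => ψ (d.D i y)}
  have hspan : Submodule.span ℂ W = ⊤ := by
    by_contra hne
    obtain ⟨f, hf0, hf⟩ := Submodule.exists_le_ker_of_lt_top _ (lt_top_iff_ne_top.2 hne)
    obtain ⟨a, hfa⟩ : ∃ a : κ → ℂ, ∀ v : κ → ℂ, f v = ∑ i, v i * a i :=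
      ⟨_, fun v => LinearMap.pi_apply_eq_sum_univ f v⟩
    have ha : a ≠ 0 := by
      intro h0
      apply hf0
      refine LinearMap.ext fun v => ?_
      rw [hfa v, h0]
      simp
    obtain ⟨x, hx, hx'⟩ := hp a ha
    obtain ⟨h, hh, N, hN⟩ := minp I p hI x hx
    obtain ⟨ψ, hψ, hb⟩ := nst hG p hpp (h * d.dir a x)
      (fun hm => (hpp.mem_or_mem hm).elim hh hx')
    rw [map_mul] at hb
    have hv : (fun i => ψ (d.D i x)) ∈ W :=
      ⟨x, h, ψ, N, hx, hψ, hN, left_ne_zero_of_mul hb, rfl⟩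
    have h1 : f (fun i => ψ (d.D i x)) = 0 := hf (Submodule.subset_span hv)
    rw [hfa] at h1
    apply right_ne_zero_of_mul hb
    have h2 : d.dir a x = ∑ i, a i • d.D i x := by
      unfold CD.dir
      have h3 := map_sum (Derivation.coeFnAddMonoidHom (R := ℂ) (A := S) (M := S))
        (fun i => a i • d.D i) univ
      have h4 := congr_fun h3 x
      rw [Finset.sum_apply] at h4
      exact h4
    rw [h2, map_sum, ← h1]
    refine Finset.sum_congr rfl fun i _ => ?_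
    rw [map_smul, smul_eq_mul, mul_comm]
  obtain ⟨b, hbW, hbs, hbl⟩ := exists_linearIndependent ℂ W
  let B : Module.Basis b ℂ (κ → ℂ) := Module.Basis.mk hbl (by
    rw [Subtype.range_coe_subtype, Set.ofPred_mem_eq, hbs, hspan])
  let e : b ≃ κ := B.indexEquiv (Pi.basisFun ℂ κ)
  have hW : ∀ j, ((e.symm j : b) : κ → ℂ) ∈ W := fun j => hbW (e.symm j).2
  choose y h ψ N h1 h2 h3 h4 h5 using hW
  refine ⟨y, h, ψ, N, h1, h2, h3, h4, ?_⟩
  have h6 : (fun j => fun i => ψ j (d.D i (y j))) = fun j => ((e.symm j : b) : κ → ℂ) :=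
    funext fun j => (h5 j).symm
  rw [h6]
  exact hbl.comp _ e.symm.injective

/-! Piece Yd-2 -/

private theorem li_toK_cc (Jt : Finset ι) (f : MvPowerSeries ι ℂ) :
    constantCoeff (evt Jt f) = constantCoeff f := by
  rw [← coeff_zero_eq_constantCoeff_apply, coeff_evt, Finsupp.mapDomain_zero,
    coeff_zero_eq_constantCoeff_apply]

/-- Invertible matrices stay invertible.
PROOF. The matrix `fun j i => evt Jt (w j i)` over `MvPowerSeries {i // i ∈ Jt} ℂ` has a determinant whose constant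
coefficient is the determinant of `fun j i => constantCoeff (w j i)` (`RingHom.map_det`; `constantCoeff (evt Jt f) =
constantCoeff f` by `coeff_evt` at `0`), which is not `0` (`Matrix.linearIndependent_rows_iff_isUnit`). So the determinant
of the image under `toK` is not `0` (`toK_inj`). -/
theorem li_toK (Jt : Finset ι) {κ : Type} [Fintype κ] (w : κ → κ → MvPowerSeries ι ℂ)
    (h : LinearIndependent ℂ fun j => fun i => constantCoeff (w j i)) :
    LinearIndependent (KK Jt) fun j => fun i => toK Jt (evt Jt (w j i)) := by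
  classical
  have h1 : IsUnit (Matrix.of fun j i => constantCoeff (w j i)) :=
    Matrix.linearIndependent_rows_iff_isUnit.1 h
  have h2 : (Matrix.of fun j i => constantCoeff (w j i)).det ≠ 0 :=
    ((Matrix.isUnit_iff_isUnit_det _).1 h1).ne_zero
  have h3 : constantCoeff (Matrix.of fun j i => evt Jt (w j i)).det =
      (Matrix.of fun j i => constantCoeff (w j i)).det := by
    rw [RingHom.map_det]
    congr 1
    ext j i
    exact li_toK_cc Jt (w j i)
  have h4 : (Matrix.of fun j i => evt Jt (w j i)).det ≠ 0 := by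
    intro h5
    rw [h5, map_zero] at h3
    exact h2 h3.symm
  have h6 : toK Jt (Matrix.of fun j i => evt Jt (w j i)).det ≠ 0 := by
    intro h7
    exact h4 (toK_inj Jt (h7.trans (map_zero (toK Jt)).symm))
  have h8 : toK Jt (Matrix.of fun j i => evt Jt (w j i)).det =
      (Matrix.of fun j i => toK Jt (evt Jt (w j i))).det := by
    rw [AlgHom.map_det]
    rfl
  rw [h8] at h6
  have h9 : IsUnit (Matrix.of fun j i => toK Jt (evt Jt (w j i))) :=
    (Matrix.isUnit_iff_isUnit_det _).2 (isUnit_iff_ne_zero.2 h6)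
  exact Matrix.linearIndependent_rows_iff_isUnit.2 h9

private theorem evt_zero_pw (d : CD ι S) (Jt : Finset ι) (p : Ideal S)
    (hst : ∀ i ∈ Jt, ∀ x ∈ p, d.D i x ∈ p) (α : ι →₀ ℕ) :
    (∀ i, i ∉ Jt → α i = 0) → ∀ x ∈ p, d.pw α x ∈ p := by
  classical
  induction α using Finsupp.induction_linear with
  | zero =>
    intro _ x hx
    rwa [CD.pw_zero]
  | add f g hf hg =>
    intro h x hx
    rw [CD.pw_add]
    refine hf (fun i hi => ?_) _ (hg (fun i hi => ?_) x hx)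
    · have h1 := h i hi
      rw [Finsupp.add_apply] at h1
      omega
    · have h1 := h i hi
      rw [Finsupp.add_apply] at h1
      omega
  | single i n =>
    induction n with
    | zero =>
      intro _ x hx
      rwa [Finsupp.single_zero, CD.pw_zero]
    | succ n ih =>
      intro h x hx
      have hi : i ∈ Jt := by
        by_contra hi
        have h1 := h i hi
        rw [Finsupp.single_eq_same] at h1
        omega
      rw [Finsupp.single_add, CD.pw_succ]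
      refine hst i hi _ (ih (fun j hj => ?_) x hx)
      have hne : i ≠ j := fun e => hj (e ▸ hi)
      rw [Finsupp.single_apply, if_neg hne]

/-- If `p` is stable under the derivations in `Jt`, the characters that kill `p` kill the expansions along `Jt`.
PROOF. `evt_tay_zero`: `d.pw α x ∈ p` for `x ∈ p` and `α` supported in `Jt` (induction on the degree of `α`). -/
theorem evt_zero_of_mem (d : CD ι S) (Jt : Finset ι) (p : Ideal S)
    (hst : ∀ i ∈ Jt, ∀ x ∈ p, d.D i x ∈ p) (ψ : S →ₐ[ℂ] ℂ) (hψ : ∀ x ∈ p, ψ x = 0) (x : S)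
    (hx : x ∈ p) : Pool.Agent.Helper63.LU.evt Jt (tay d ψ x) = 0 :=
  evt_tay_zero Jt d ψ x fun α hα => hψ _ (evt_zero_pw d Jt p hst α hα x hx)

/-- PROOF. As `LT.caseA_ideal` (Helper63/LT/Zd.lean), over the field `KK Jt`. Let `y, h, ψ, N` be as in `chars2` for
`re D.d (vo Jt)` (`D.filt`). `t` = all `rho Jt (tay D.d (ψ j) g * (map (ψ j) U) ^ a.1)`, `j`, `g ∈ s0` (`P2`).
(a) `span t ≤ WI`: by `hder`, `coeff_rho_tay` and `evt_zero_of_mem` the coefficients of `rho Jt (tay D.d (ψ j) x)`, `x ∈ I`, at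
`β` with `wt J T β < T` vanish; `WI` is an ideal. (b) `rho Jt (tay D.d (ψ j) x) ∈ span t` for `x ∈ I` (units: `U_one`,
`cc_rho_ne`). (c) `Y j = rho Jt (tay D.d (ψ j) (y j))` has constant coefficient `0` (`cc_rho`, `evt_zero_of_mem`) and the
coefficient `toK Jt (evt Jt (tay D.d (ψ j) (D.d.D (vo Jt i) (y j))))` at `single i 1` (`coeff_rho_tay`), so linearly
independent linear parts (`li_toK`, `constantCoeff_tay`). `rho (tay (h j)) * (Y j) ^ (N j) ∈ span t` and `rho (tay (h j))` is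
a unit. `span_params`: `mm = span (range Y) ≤ radical (span t)`, `Ideal.exists_pow_le_of_le_radical_of_fg`, `mm_fg`.
(d) `t'` = the `rho Jt (tay D.d (ψ j) (y j) * (map (ψ j) U) ^ k)` with `k` such that all `y j ∈ G (k, k)`; `b = (k, k)`. -/
theorem relA_ideal (D : BData ι S) (Jt : Finset ι) (a : ℕ × ℕ) (I p : Ideal S)
    (hI : p ∈ I.minimalPrimes) (s0 : Set S) (hs0 : I = Ideal.span s0) (hsG : ∀ x ∈ s0, x ∈ D.G a)
    (J : Finset (Out Jt)) (T : ℕ)
    (hder : ∀ x ∈ I, ∀ β : Out Jt →₀ ℕ, wt J T β < T → D.d.pw (β.mapDomain (vo Jt)) x ∈ p)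
    (hst : ∀ i ∈ Jt, ∀ x ∈ p, D.d.D i x ∈ p)
    (hnd : ∀ c : Out Jt → ℂ, c ≠ 0 → ∃ x ∈ p, (re D.d (vo Jt)).dir c x ∉ p) :
    ∃ (t t' : Set (MvPowerSeries (Out Jt) (KK Jt))) (b : ℕ × ℕ) (N0 : ℕ),
      (∀ q ∈ t, q ∈ (D.Z a).map (rho Jt).toLinearMap) ∧
      Ideal.span t ≤ WI J T (KK Jt) T ∧
      (∀ q ∈ t', q ∈ (D.Z b).map (rho Jt).toLinearMap) ∧
      Ideal.span t' = mm (Out Jt) (KK Jt) ∧ mm (Out Jt) (KK Jt) ^ N0 ≤ Ideal.span t := by
  classical
  obtain ⟨y, h, ψ, N, hy, hψ, hN, hh, hli⟩ := chars2 (re D.d (vo Jt)) D.filt I p hI hnd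
  have hUu : ∀ (j : Out Jt) (n : ℕ),
      IsUnit (rho Jt (MvPowerSeries.map (ψ j : S →+* ℂ) D.U ^ n)) := by
    intro j n
    rw [map_pow]
    apply IsUnit.pow
    rw [MvPowerSeries.isUnit_iff_constantCoeff, isUnit_iff_ne_zero]
    apply cc_rho_ne
    rw [← coeff_zero_eq_constantCoeff_apply, coeff_map, coeff_zero_eq_constantCoeff_apply,
      D.U_one, map_one]
    exact one_ne_zero
  set t : Set (MvPowerSeries (Out Jt) (KK Jt)) := {q | ∃ j, ∃ g ∈ s0,
    q = rho Jt (tay D.d (ψ j) g * MvPowerSeries.map (ψ j : S →+* ℂ) D.U ^ a.1)} with ht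
  -- (b)
  have hb : ∀ j, ∀ x ∈ I, rho Jt (tay D.d (ψ j) x) ∈ Ideal.span t := by
    intro j x hx
    have h1 : I ≤ Ideal.comap ((rho Jt).comp (tay D.d (ψ j))).toRingHom (Ideal.span t) := by
      rw [hs0]
      refine Ideal.span_le.2 fun g hg => ?_
      change rho Jt (tay D.d (ψ j) g) ∈ Ideal.span t
      obtain ⟨v, hv⟩ := (hUu j a.1).exists_right_inv
      have h2 : rho Jt (tay D.d (ψ j) g) =
          rho Jt (tay D.d (ψ j) g * MvPowerSeries.map (ψ j : S →+* ℂ) D.U ^ a.1) * v := by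
        rw [map_mul, mul_assoc, hv, mul_one]
      rw [h2]
      exact Ideal.mul_mem_right _ _ (Ideal.subset_span ⟨j, g, hg, rfl⟩)
    exact h1 hx
  -- the parameters
  have hz : ∀ j, ∀ x ∈ p, Pool.Agent.Helper63.LU.evt Jt (tay D.d (ψ j) x) = 0 :=
    fun j x hx => evt_zero_of_mem D.d Jt p hst (ψ j) (hψ j) x hx
  have hY0 : ∀ j, constantCoeff (rho Jt (tay D.d (ψ j) (y j))) = 0 := by
    intro j
    rw [cc_rho, hz j _ (hy j), map_zero]
  have hY1 : ∀ j i, coeff (Finsupp.single i 1) (rho Jt (tay D.d (ψ j) (y j))) =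
      toK Jt (Pool.Agent.Helper63.LU.evt Jt (tay D.d (ψ j) (D.d.D (vo Jt i) (y j)))) := by
    intro j i
    have h1 := CD.pw_succ D.d 0 (vo Jt i) (y j)
    have h2 := Pool.Agent.Helper63.LT.fct_succ (0 : Out Jt →₀ ℕ) i
    rw [zero_add] at h1 h2
    rw [coeff_rho_tay, Finsupp.mapDomain_single, h1, h2, CD.pw_zero,
      Pool.Agent.Helper63.LT.fct_zero]
    simp
  have hmm : Ideal.span (Set.range fun j => rho Jt (tay D.d (ψ j) (y j))) =
      mm (Out Jt) (KK Jt) := by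
    refine span_params _ hY0 ?_
    have h0 : (fun j : Out Jt => fun i : Out Jt =>
        constantCoeff (tay D.d (ψ j) (D.d.D (vo Jt i) (y j)))) =
        fun j => fun i => ψ j ((re D.d (vo Jt)).D i (y j)) := by
      funext j i
      rw [constantCoeff_tay]
      rfl
    have h1 := li_toK Jt (fun j i : Out Jt => tay D.d (ψ j) (D.d.D (vo Jt i) (y j))) (by
      rw [h0]
      exact hli)
    have h2 : (fun j : Out Jt => fun i : Out Jt =>
        coeff (Finsupp.single i 1) (rho Jt (tay D.d (ψ j) (y j)))) =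
        fun j => fun i =>
          toK Jt (Pool.Agent.Helper63.LU.evt Jt (tay D.d (ψ j) (D.d.D (vo Jt i) (y j)))) := by
      funext j i
      exact hY1 j i
    rw [h2]
    exact h1
  have hrad : mm (Out Jt) (KK Jt) ≤ (Ideal.span t).radical := by
    rw [← hmm]
    refine Ideal.span_le.2 ?_
    rintro _ ⟨j, rfl⟩
    change rho Jt (tay D.d (ψ j) (y j)) ∈ (Ideal.span t).radical
    refine ⟨N j, ?_⟩
    have h1 := hb j _ (hN j)
    rw [map_mul, map_pow, map_mul, map_pow] at h1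
    have h2 : IsUnit (rho Jt (tay D.d (ψ j) (h j))) := by
      rw [MvPowerSeries.isUnit_iff_constantCoeff, isUnit_iff_ne_zero]
      apply cc_rho_ne
      rw [constantCoeff_tay]
      exact hh j
    obtain ⟨v, hv⟩ := h2.exists_left_inv
    have h3 : rho Jt (tay D.d (ψ j) (y j)) ^ N j =
        v * (rho Jt (tay D.d (ψ j) (h j)) * rho Jt (tay D.d (ψ j) (y j)) ^ N j) := by
      rw [← mul_assoc, hv, one_mul]
    rw [h3]
    exact Ideal.mul_mem_left _ _ h1
  obtain ⟨N0, hN0⟩ := Ideal.exists_pow_le_of_le_radical_of_fg hrad mm_fg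
  -- (d)
  choose kk hkk using fun j => D.filt.top (y j)
  set k := ∑ j, kk j with hk
  have hyk : ∀ j, y j ∈ D.G (k, k) := fun j =>
    D.filt.mono (Finset.single_le_sum (f := kk) (fun _ _ => Nat.zero_le _) (Finset.mem_univ j))
      (hkk j)
  refine ⟨t, {q | ∃ j, q = rho Jt (tay D.d (ψ j) (y j) *
    MvPowerSeries.map (ψ j : S →+* ℂ) D.U ^ k)}, (k, k), N0, ?_, ?_, ?_, ?_, hN0⟩
  · rintro q ⟨j, g, hg, rfl⟩
    exact ⟨_, D.P2 (ψ j) a.1 a.2 g (hsG g hg), rfl⟩
  · refine Ideal.span_le.2 ?_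
    rintro q ⟨j, g, hg, rfl⟩
    rw [map_mul]
    refine Ideal.mul_mem_right _ _ ?_
    intro β hβ
    rw [coeff_rho_tay, hz j _ (hder g (by rw [hs0]; exact Ideal.subset_span hg) β hβ), map_zero,
      smul_zero]
  · rintro q ⟨j, rfl⟩
    exact ⟨_, D.P2 (ψ j) k k (y j) (hyk j), rfl⟩
  · apply le_antisymm
    · refine Ideal.span_le.2 ?_
      rintro q ⟨j, rfl⟩
      change _ ∈ mm (Out Jt) (KK Jt)
      rw [mem_mm, map_mul, map_mul, hY0, zero_mul]
    · rw [← hmm]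
      refine Ideal.span_le.2 ?_
      rintro _ ⟨j, rfl⟩
      obtain ⟨v, hv⟩ := (hUu j k).exists_right_inv
      have h3 : rho Jt (tay D.d (ψ j) (y j)) =
          rho Jt (tay D.d (ψ j) (y j) * MvPowerSeries.map (ψ j : S →+* ℂ) D.U ^ k) * v := by
        rw [map_mul, mul_assoc, hv, mul_one]
      change rho Jt (tay D.d (ψ j) (y j)) ∈ _
      rw [h3]
      exact Ideal.mul_mem_right _ _ (Ideal.subset_span ⟨j, rfl⟩)

/-! Piece Yd-3 -/

/-- The relative case A.
PROOF. `relA_ideal`, `count_main` for `fun m => (D.Z m).map (rho Jt).toLinearMap` (the image of a product is the product;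
`Z_unit`, `cc_rho_ne`); `finrank` of the image is at most `finrank (D.Z m)` (`Z_fin`), and
`((D.Z c).map (rho Jt)).map ccL` is the image of `(D.Z c).map (evt Jt)` under the injective map `toK Jt` (`cc_rho`,
`toK_inj`), so it has the same `finrank`. -/
theorem relA (D : BData ι S) (Jt : Finset ι) (a : ℕ × ℕ) (I p : Ideal S)
    (hI : p ∈ I.minimalPrimes) (s0 : Set S) (hs0 : I = Ideal.span s0) (hsG : ∀ x ∈ s0, x ∈ D.G a)
    (J : Finset (Out Jt)) (T : ℕ) (hT : 1 ≤ T)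
    (hder : ∀ x ∈ I, ∀ β : Out Jt →₀ ℕ, wt J T β < T → D.d.pw (β.mapDomain (vo Jt)) x ∈ p)
    (hst : ∀ i ∈ Jt, ∀ x ∈ p, D.d.D i x ∈ p)
    (hnd : ∀ c : Out Jt → ℂ, c ≠ 0 → ∃ x ∈ p, (re D.d (vo Jt)).dir c x ∉ p) :
    ∃ b : ℕ × ℕ, ∀ (N : ℕ) (c : ℕ × ℕ),
      Module.finrank ℂ ((D.Z c).map (evt Jt).toLinearMap) *
          (T ^ J.card * N ^ Fintype.card (Out Jt)) ≤
        Module.finrank ℂ (D.Z (c + (Fintype.card (Out Jt) * N) • a + b)) := by
  obtain ⟨t, t', b, N0, ht, htW, ht', hmm, hN⟩ :=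
    relA_ideal D Jt a I p hI s0 hs0 hsG J T hder hst hnd
  refine ⟨N0 • b, fun N c => ?_⟩
  have hfin : ∀ m, Module.Finite ℂ (D.Z m) := D.Z_fin
  obtain ⟨e, he, heu⟩ := D.Z_unit
  have key := count_main (κ := Out Jt) (K := KK Jt)
    (fun m => (D.Z m).map (rho Jt).toLinearMap)
    (by
      rintro a b _ _ ⟨x, hx, rfl⟩ ⟨y, hy, rfl⟩
      exact ⟨x * y, D.Z_mul hx hy, map_mul (rho Jt) x y⟩)
    ⟨1, D.Z_one, map_one (rho Jt)⟩
    (fun k L L' h => Submodule.map_mono (D.Z_mono k L L' h))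
    (rho Jt e) ⟨e, he, rfl⟩ (cc_rho_ne Jt e heu) t t' a b ht ht' hmm N0 hN J T hT htW N c
  have h1 : Module.finrank ℂ (((D.Z c).map (rho Jt).toLinearMap).map (ccL (Out Jt) (KK Jt))) =
      Module.finrank ℂ ((D.Z c).map (evt Jt).toLinearMap) := by
    have h2 : ((D.Z c).map (rho Jt).toLinearMap).map (ccL (Out Jt) (KK Jt)) =
        ((D.Z c).map (evt Jt).toLinearMap).map (toK Jt).toLinearMap := by
      rw [← Submodule.map_comp, ← Submodule.map_comp]
      congr 1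
      refine LinearMap.ext fun f => ?_
      exact cc_rho Jt f
    rw [h2]
    exact (Submodule.equivMapOfInjective (toK Jt).toLinearMap (toK_inj Jt) _).finrank_eq.symm
  have h3 : Module.finrank ℂ ((D.Z (c + (Fintype.card (Out Jt) * N) • a + N0 • b)).map
      (rho Jt).toLinearMap) ≤
      Module.finrank ℂ (D.Z (c + (Fintype.card (Out Jt) * N) • a + N0 • b)) :=
    Submodule.finrank_map_le _ _
  rw [← h1]
  exact key.trans h3

/-- PROOF. Divide by `N ^ (g1 + g2)`, `g1 + g2 = h1 + h2 + n`, and let `N → ∞`: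
`k ^ h1 * L ^ h2 * T' ≤ C1 * C0 * ((2 n + 1) k) ^ g1 * ((n + 1) L) ^ g2`. -/
theorem lim2 (T' k L C0 C1 g1 g2 h1 h2 n b1 b2 : ℕ) (hg : g1 + g2 = h1 + h2 + n)
    (h : ∀ N, 1 ≤ N → (k * N) ^ h1 * (L * N) ^ h2 * (T' * N ^ n) ≤
      C1 * (C0 * ((k * N + n * N * (2 * k) + b1 + 1) ^ g1 * (L * N + n * N * L + b2 + 1) ^ g2))) :
    k ^ h1 * L ^ h2 * T' ≤ C1 * C0 * (2 * n + 1) ^ (g1 + g2) * (k ^ g1 * L ^ g2) := by
  have key : ((k ^ h1 * L ^ h2 * T' : ℕ) : ℝ) ≤
      C1 * (C0 * ((((2 * n + 1) * k : ℕ) + ((b1 + 1 : ℕ) : ℝ) * 0) ^ g1 *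
        ((((n + 1) * L : ℕ) : ℝ) + ((b2 + 1 : ℕ) : ℝ) * 0) ^ g2)) := by
    have hlim : Filter.Tendsto (fun N : ℕ => ((N : ℝ))⁻¹) Filter.atTop (nhds 0) :=
      tendsto_inv_atTop_nhds_zero_nat
    have ht : Filter.Tendsto (fun N : ℕ => (C1 : ℝ) * (C0 * (((((2 * n + 1) * k : ℕ) : ℝ) +
        ((b1 + 1 : ℕ) : ℝ) * ((N : ℝ))⁻¹) ^ g1 *
        ((((n + 1) * L : ℕ) : ℝ) + ((b2 + 1 : ℕ) : ℝ) * ((N : ℝ))⁻¹) ^ g2))) Filter.atTop
        (nhds ((C1 : ℝ) * (C0 * (((((2 * n + 1) * k : ℕ) : ℝ) + ((b1 + 1 : ℕ) : ℝ) * 0) ^ g1 *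
        ((((n + 1) * L : ℕ) : ℝ) + ((b2 + 1 : ℕ) : ℝ) * 0) ^ g2)))) :=
      ((((hlim.const_mul _).const_add _).pow g1).mul
        (((hlim.const_mul _).const_add _).pow g2)).const_mul _ |>.const_mul _
    refine ge_of_tendsto ht ?_
    filter_upwards [Filter.eventually_ge_atTop 1] with N hN
    have hN0 : (0 : ℝ) < N := by exact_mod_cast hN
    have h3 : ((((k * N) ^ h1 * (L * N) ^ h2 * (T' * N ^ n) : ℕ)) : ℝ) ≤
      ((C1 * (C0 * ((k * N + n * N * (2 * k) + b1 + 1) ^ g1 *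
        (L * N + n * N * L + b2 + 1) ^ g2)) : ℕ) : ℝ) := by exact_mod_cast h N hN
    have e1 : ((((k * N) ^ h1 * (L * N) ^ h2 * (T' * N ^ n) : ℕ)) : ℝ) =
        ((k ^ h1 * L ^ h2 * T' : ℕ) : ℝ) * (N : ℝ) ^ (g1 + g2) := by
      rw [hg]
      push_cast
      ring
    have e2 : ((C1 * (C0 * ((k * N + n * N * (2 * k) + b1 + 1) ^ g1 *
        (L * N + n * N * L + b2 + 1) ^ g2)) : ℕ) : ℝ) =
        ((C1 : ℝ) * (C0 * (((((2 * n + 1) * k : ℕ) : ℝ) +
        ((b1 + 1 : ℕ) : ℝ) * ((N : ℝ))⁻¹) ^ g1 *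
        ((((n + 1) * L : ℕ) : ℝ) + ((b2 + 1 : ℕ) : ℝ) * ((N : ℝ))⁻¹) ^ g2))) *
        (N : ℝ) ^ (g1 + g2) := by
      have f1 : ((k * N + n * N * (2 * k) + b1 + 1 : ℕ) : ℝ) = ((((2 * n + 1) * k : ℕ) : ℝ) +
        ((b1 + 1 : ℕ) : ℝ) * ((N : ℝ))⁻¹) * N := by
        push_cast
        field_simp
        ring
      have f2 : ((L * N + n * N * L + b2 + 1 : ℕ) : ℝ) = ((((n + 1) * L : ℕ) : ℝ) +
        ((b2 + 1 : ℕ) : ℝ) * ((N : ℝ))⁻¹) * N := by
        push_cast
        field_simp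
        ring
      rw [Nat.cast_mul, Nat.cast_mul, Nat.cast_mul, Nat.cast_pow, Nat.cast_pow, f1, f2, mul_pow,
        mul_pow, pow_add]
      ring
    rw [e1, e2] at h3
    exact le_of_mul_le_mul_right h3 (pow_pos hN0 _)
  rw [mul_zero, mul_zero, add_zero, add_zero] at key
  have key2 : k ^ h1 * L ^ h2 * T' ≤ C1 * (C0 * (((2 * n + 1) * k) ^ g1 * ((n + 1) * L) ^ g2)) := by
    exact_mod_cast key
  refine key2.trans ?_
  have h4 : ((n + 1) * L) ^ g2 ≤ ((2 * n + 1) * L) ^ g2 :=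
    Nat.pow_le_pow_left (Nat.mul_le_mul_right _ (by omega)) _
  calc C1 * (C0 * (((2 * n + 1) * k) ^ g1 * ((n + 1) * L) ^ g2))
      ≤ C1 * (C0 * (((2 * n + 1) * k) ^ g1 * ((2 * n + 1) * L) ^ g2)) :=
        Nat.mul_le_mul_left _ (Nat.mul_le_mul_left _ (Nat.mul_le_mul_left _ h4))
    _ = _ := by
        rw [mul_pow, mul_pow, pow_add]
        ring

end

end Pool.Agent.Helper63.LU
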