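import Pool.Agent.Helper63.LU.Yd
import Pool.Agent.Helper63.LT.Zg

/-!
PROJECT LU (LT2), block Z2. Part e: abstract families of theta functions with two degrees and the ring of quotients.
-/

namespace Pool.Agent.Helper63.LU

open Finset MvPowerSeries
open Pool.Agent.Helper63.LT (CD Filt tay fct coeff_tay constantCoeff_tay map_tay tay_nat nst minp Ent dE dE_add
  dE_smul dE_comm cE evE tr rf TT TT_inj constantCoeff_TT pderiv_TT HH map_HH HH_apply psD ev_basis)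

noncomputable section

/-- Spaces `T k L` of entire functions with two degrees (`T' k L`: theta functions of the second kind). -/
structure LE (ι : Type) [Fintype ι] where
  T : ℕ → ℕ → Submodule ℂ (Ent ι)
  T' : ℕ → ℕ → Submodule ℂ (Ent ι)
  b0 : Module.Basis ι ℂ (ι → ℂ)
  u0 : Ent ι
  hu : u0 ∈ T 1 0
  hu0 : (u0 : (ι → ℂ) → ℂ) 0 ≠ 0
  T_one : 1 ∈ T 0 0
  T_mul : ∀ {k L k' L' : ℕ} {F G : Ent ι}, F ∈ T k L → G ∈ T k' L' → F * G ∈ T (k + k') (L + L')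
  T_mono : ∀ (k : ℕ) {L L' : ℕ}, L ≤ L' → T k L ≤ T k L'
  T_pair : ∀ {k L L' : ℕ} {F G : Ent ι}, F ∈ T k L → G ∈ T k L' → ∀ w,
    tr w F * tr (-w) G ∈ T (2 * k) (L + L')
  T_fin : ∀ k L, Module.Finite ℂ (T k L)
  T_dim : ∃ C : ℕ, ∀ k, Module.finrank ℂ (T k k) ≤ C * (k + 1) ^ Fintype.card ι
  T'_one : 1 ∈ T' 0 0
  T'_mul : ∀ {k L k' L' : ℕ} {F G : Ent ι}, F ∈ T' k L → G ∈ T' k' L' →
    F * G ∈ T' (k + k') (L + L')
  T'_mono : ∀ (k : ℕ) {L L' : ℕ}, L ≤ L' → T' k L ≤ T' k L'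
  T_pair' : ∀ {k L L' : ℕ} {F G : Ent ι}, F ∈ T k L → G ∈ T k L' → ∀ w,
    tr w F * rf w G ∈ T' (2 * k) (L + L')
  T'_fin : ∀ k L, Module.Finite ℂ (T' (2 * k) L)

namespace LE

variable {ι : Type} [Fintype ι] (X : LE ι)

/-! Piece Ye-1: consequences of `T_pair` -/

theorem u0_pow (k : ℕ) : X.u0 ^ k ∈ X.T k 0 := by
  induction k with
  | zero => rw [pow_zero]; exact X.T_one
  | succ k ih => rw [pow_succ]; exact X.T_mul ih X.hu

theorem up {k L j : ℕ} {F : Ent ι} (hF : F ∈ X.T k L) : F * X.u0 ^ j ∈ X.T (k + j) L :=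
  X.T_mul hF (X.u0_pow j)

theorem HH_dec {k L L' : ℕ} {F G : Ent ι} (hF : F ∈ X.T k L)
    (hG : G ∈ X.T k L') (b : Module.Basis ι ℂ (ι → ℂ)) {κ : Type} [Fintype κ] (w : κ → (ι → ℂ))
    (a : κ → Ent ι)
    (ha : ∀ H ∈ X.T (2 * k) (L + L'), H = ∑ i, (H : (ι → ℂ) → ℂ) (w i) • a i) (α : ι →₀ ℕ) :
    coeff α (HH b F G) = ∑ i, coeff α (TT b (tr (w i) F * rf (w i) G)) • a i := by
  have hs : ∀ (s : Finset κ) (g : κ → Ent ι) (x : ι → ℂ),
      ((∑ i ∈ s, g i : Ent ι) : (ι → ℂ) → ℂ) x = ∑ i ∈ s, (g i : (ι → ℂ) → ℂ) x := fun s g x =>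
    map_sum (evE x) g s
  refine Subtype.ext (funext fun z => ?_)
  rw [HH_apply, hs]
  have h1 : tr z F * rf z G = ∑ i, (a i : (ι → ℂ) → ℂ) z • (tr (w i) F * rf (w i) G) := by
    refine Subtype.ext (funext fun x => ?_)
    rw [hs]
    have h2 := congrArg (fun H : Ent ι => (H : (ι → ℂ) → ℂ) z)
      (ha _ (X.T_pair hF hG x))
    simp only [hs] at h2
    change (F : (ι → ℂ) → ℂ) (x + z) * (G : (ι → ℂ) → ℂ) (-x + z) =
      ∑ i, ((F : (ι → ℂ) → ℂ) (x + w i) * (G : (ι → ℂ) → ℂ) (-x + w i)) *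
        (a i : (ι → ℂ) → ℂ) z at h2
    change (F : (ι → ℂ) → ℂ) (z + x) * (G : (ι → ℂ) → ℂ) (z - x) =
      ∑ i, (a i : (ι → ℂ) → ℂ) z *
        ((F : (ι → ℂ) → ℂ) (w i + x) * (G : (ι → ℂ) → ℂ) (w i - x))
    rw [add_comm z x, sub_eq_neg_add, h2]
    refine sum_congr rfl fun i _ => ?_
    rw [add_comm x (w i), ← sub_eq_neg_add, mul_comm]
  rw [h1, map_sum, map_sum]
  refine sum_congr rfl fun i _ => ?_
  rw [map_smul, map_smul, smul_eq_mul, mul_comm]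
  rfl

/-- PROOF. `ev_basis`, `HH_dec`. -/
theorem HH_mem {k L L' : ℕ} {F G : Ent ι} (hF : F ∈ X.T k L) (hG : G ∈ X.T k L')
    (b : Module.Basis ι ℂ (ι → ℂ)) (α : ι →₀ ℕ) :
    coeff α (HH b F G) ∈ X.T (2 * k) (L + L') := by
  have := X.T_fin (2 * k) (L + L')
  obtain ⟨κ, hκ, w, a, ha, hH⟩ := ev_basis (X.T (2 * k) (L + L'))
  rw [X.HH_dec hF hG b w a hH α]
  exact Submodule.sum_mem _ fun i _ => Submodule.smul_mem _ _ (ha i)

private theorem Ye1_sum (b : Module.Basis ι ℂ (ι → ℂ)) (v : ι → ℂ) (F : Ent ι) :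
    dE v F = ∑ i, b.repr v i • dE (b i) F := by
  have h1 : (cE b).dir (fun i => b.repr v i) = dE v := by
    rw [Pool.Agent.Helper63.LT.cE_dir, b.sum_repr]
  rw [← h1, dir_apply]
  rfl

private theorem Ye1_coeff (b : Module.Basis ι ℂ (ι → ℂ)) (F G : Ent ι) (i : ι) :
    coeff (Finsupp.single i 1) (HH b F G) = dE (b i) F * G - F * dE (b i) G := by
  have h1 := MvPowerSeries.coeff_pderiv (i := i) (HH b F G) (0 : ι →₀ ℕ)
  rw [zero_add, Finsupp.zero_apply, Nat.cast_zero, zero_add, mul_one] at h1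
  rw [← h1, coeff_zero_eq_constantCoeff_apply]
  unfold HH
  rw [Derivation.leibniz, Pool.Agent.Helper63.LT.pderiv_tay, Pool.Agent.Helper63.LT.pderiv_tay,
    smul_eq_mul, smul_eq_mul, map_add, map_mul, map_mul, constantCoeff_tay, constantCoeff_tay,
    constantCoeff_tay, constantCoeff_tay]
  change F * (-(dE (b i) G)) + G * dE (b i) F = dE (b i) F * G - F * dE (b i) G
  ring

/-- PROOF. For `v = b i` the coefficient of `HH b F G` at `single i 1` is `dE (b i) F * G - F * dE (b i) G`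
(`coeff_mul`, `coeff_tay`, antidiagonal of `single i 1`; or the coefficient formula from `Derivation` rules); it is in
`T (2 k) (L + L')` by `HH_mem`. General `v`: linear combination of the `b i` (`b.sum_repr`, `dE_add`, `dE_smul`), with
`b = X.b0`. -/
theorem T_wron {k L L' : ℕ} {F G : Ent ι} (hF : F ∈ X.T k L) (hG : G ∈ X.T k L') (v : ι → ℂ) :
    dE v F * G - F * dE v G ∈ X.T (2 * k) (L + L') := by
  have h1 : dE v F * G - F * dE v G =
      ∑ i, X.b0.repr v i • (dE (X.b0 i) F * G - F * dE (X.b0 i) G) := by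
    rw [Ye1_sum X.b0 v F, Ye1_sum X.b0 v G, sum_mul, mul_sum, ← sum_sub_distrib]
    refine sum_congr rfl fun i _ => ?_
    rw [smul_sub, smul_mul_assoc, mul_smul_comm]
  rw [h1]
  refine Submodule.sum_mem _ fun i _ => Submodule.smul_mem _ _ ?_
  rw [← Ye1_coeff]
  exact X.HH_mem hF hG X.b0 _

/-! Piece Ye-2: quotients -/

/-- The inverse of the Taylor series of `u0`. -/
def iu : MvPowerSeries ι ℂ := (TT X.b0 X.u0)⁻¹

theorem mul_iu : TT X.b0 X.u0 * X.iu = 1 := by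
  unfold iu
  exact MvPowerSeries.mul_inv_cancel _ (by rw [constantCoeff_TT]; exact X.hu0)

theorem constantCoeff_iu : constantCoeff X.iu = ((X.u0 : (ι → ℂ) → ℂ) 0)⁻¹ := by
  unfold iu
  rw [MvPowerSeries.constantCoeff_inv, constantCoeff_TT]

/-- The quotient `F / u0 ^ k`. -/
def fr (k : ℕ) : Ent ι →ₗ[ℂ] MvPowerSeries ι ℂ :=
  (LinearMap.mulRight ℂ (X.iu ^ k)).comp (TT X.b0).toLinearMap

theorem fr_apply (k : ℕ) (F : Ent ι) : X.fr k F = TT X.b0 F * X.iu ^ k := rfl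

theorem u_pow_iu (k : ℕ) : TT X.b0 X.u0 ^ k * X.iu ^ k = 1 := by
  rw [← mul_pow, X.mul_iu, one_pow]

theorem fr_inj (k : ℕ) : Function.Injective (X.fr k) := by
  intro F F' h
  rw [fr_apply, fr_apply] at h
  apply TT_inj X.b0
  have h1 := congrArg (fun x => x * TT X.b0 X.u0 ^ k) h
  simp only [mul_assoc] at h1
  rwa [mul_comm (X.iu ^ k), X.u_pow_iu, mul_one, mul_one] at h1

theorem fr_mul (k k' : ℕ) (F F' : Ent ι) : X.fr k F * X.fr k' F' = X.fr (k + k') (F * F') := by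
  rw [fr_apply, fr_apply, fr_apply, map_mul, pow_add]
  ring

theorem fr_up (k j : ℕ) (F : Ent ι) : X.fr (k + j) (F * X.u0 ^ j) = X.fr k F := by
  rw [fr_apply, fr_apply, map_mul, map_pow, pow_add]
  calc TT X.b0 F * TT X.b0 X.u0 ^ j * (X.iu ^ k * X.iu ^ j) =
        TT X.b0 F * X.iu ^ k * (TT X.b0 X.u0 ^ j * X.iu ^ j) := by ring
    _ = _ := by rw [X.u_pow_iu, mul_one]

theorem fr_zero_one : X.fr 0 1 = 1 := by
  rw [fr_apply, map_one, pow_zero, mul_one]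

theorem constantCoeff_fr (k : ℕ) (F : Ent ι) :
    constantCoeff (X.fr k F) = (F : (ι → ℂ) → ℂ) 0 * (((X.u0 : (ι → ℂ) → ℂ) 0)⁻¹) ^ k := by
  rw [fr_apply, map_mul, map_pow, constantCoeff_TT, constantCoeff_iu]

/-- The derivation of the power series in the direction `v`. -/
def pv (v : ι → ℂ) : Derivation ℂ (MvPowerSeries ι ℂ) (MvPowerSeries ι ℂ) :=
  (psD ι).dir fun j => X.b0.repr v j

/-- PROOF. `dir_apply`, `pderiv_TT`, `X.b0.sum_repr`, `dE_add`, `dE_smul`. -/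
theorem pv_TT (v : ι → ℂ) (F : Ent ι) : X.pv v (TT X.b0 F) = TT X.b0 (dE v F) := by
  unfold pv
  rw [dir_apply, Ye1_sum X.b0 v F, map_sum]
  refine sum_congr rfl fun i _ => ?_
  rw [map_smul, ← pderiv_TT]
  rfl

private theorem Ye2_der (v : ι → ℂ) (k : ℕ) : X.pv v (X.iu ^ k) =
    -(TT X.b0 (dE v (X.u0 ^ k)) * X.iu ^ (2 * k)) := by
  have h1 : TT X.b0 (X.u0 ^ k) * X.iu ^ k = 1 := by rw [map_pow, X.u_pow_iu]
  have h2 := congrArg (X.pv v) h1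
  rw [Derivation.leibniz, Derivation.map_one_eq_zero, pv_TT, smul_eq_mul, smul_eq_mul] at h2
  have h3 := congrArg (fun x => X.iu ^ k * x) h2
  simp only [mul_add, mul_zero] at h3
  have h4 : X.iu ^ k * (TT X.b0 (X.u0 ^ k) * X.pv v (X.iu ^ k)) = X.pv v (X.iu ^ k) := by
    rw [← mul_assoc, mul_comm (X.iu ^ k), h1, one_mul]
  rw [h4] at h3
  have h5 : X.iu ^ (2 * k) = X.iu ^ k * X.iu ^ k := by rw [two_mul, pow_add]
  rw [h5, ← sub_eq_zero, sub_neg_eq_add, ← h3]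
  ring

/-- PROOF. Quotient rule, as `LD.pderiv_fr` in Helper63/LT/Zg.lean (with its `Zg1_der`), `pv_TT`. -/
theorem pv_fr (v : ι → ℂ) (k : ℕ) (F : Ent ι) :
    X.pv v (X.fr k F) = X.fr (2 * k) (dE v F * X.u0 ^ k - F * dE v (X.u0 ^ k)) := by
  rw [fr_apply, fr_apply, Derivation.leibniz, pv_TT, smul_eq_mul, smul_eq_mul, X.Ye2_der,
    map_sub, map_mul (TT X.b0), map_mul (TT X.b0)]
  have h5 : X.iu ^ (2 * k) = X.iu ^ k * X.iu ^ k := by rw [two_mul, pow_add]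
  have h6 : TT X.b0 (X.u0 ^ k) * X.iu ^ k = 1 := by rw [map_pow, X.u_pow_iu]
  rw [h5]
  linear_combination (-(TT X.b0 (dE v F)) * X.iu ^ k) * h6

/-! Piece Ye-3: the ring `SS` -/

/-- The ring of the quotients `F / u0 ^ k`. -/
def SS : Subalgebra ℂ (MvPowerSeries ι ℂ) where
  carrier := {x | ∃ k L, x ∈ (X.T k L).map (X.fr k)}
  mul_mem' := by
    rintro _ _ ⟨k, L, F, hF, rfl⟩ ⟨k', L', F', hF', rfl⟩
    exact ⟨k + k', L + L', F * F', X.T_mul hF hF', (X.fr_mul k k' F F').symm⟩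
  add_mem' := by
    rintro _ _ ⟨k, L, F, hF, rfl⟩ ⟨k', L', F', hF', rfl⟩
    refine ⟨k + k', L + L', F * X.u0 ^ k' + F' * X.u0 ^ k,
      Submodule.add_mem _ (X.T_mono _ (Nat.le_add_right L L') (X.up hF)) ?_, ?_⟩
    · rw [add_comm k k']
      exact X.T_mono _ (Nat.le_add_left L' L) (X.up hF')
    · have h1 := X.fr_up k k' F
      have h2 := X.fr_up k' k F'
      rw [add_comm k' k] at h2
      rw [map_add, h1, h2]
  algebraMap_mem' := by
    intro r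
    refine ⟨0, 0, r • (1 : Ent ι), Submodule.smul_mem _ _ X.T_one, ?_⟩
    rw [map_smul, X.fr_zero_one, Algebra.algebraMap_eq_smul_one]

/-- The element `F / u0 ^ k` of `SS`. -/
def el (k L : ℕ) (F : Ent ι) (hF : F ∈ X.T k L) : X.SS := ⟨X.fr k F, k, L, F, hF, rfl⟩

theorem el_val (k L : ℕ) (F : Ent ι) (hF : F ∈ X.T k L) :
    ((X.el k L F hF : X.SS) : MvPowerSeries ι ℂ) = X.fr k F := rfl

theorem exists_el (x : X.SS) : ∃ k L F hF, x = X.el k L F hF := by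
  obtain ⟨x, k, L, F, hF, rfl⟩ := x
  exact ⟨k, L, F, hF, rfl⟩

/-- The filtration. -/
def G (m : ℕ × ℕ) : Submodule ℂ X.SS :=
  ((X.T m.1 m.2).map (X.fr m.1)).comap X.SS.val.toLinearMap

theorem mem_G {m : ℕ × ℕ} {x : X.SS} :
    x ∈ X.G m ↔ ∃ F ∈ X.T m.1 m.2, X.fr m.1 F = (x : MvPowerSeries ι ℂ) := Iff.rfl

theorem el_mem_G (k L : ℕ) (F : Ent ι) (hF : F ∈ X.T k L) : X.el k L F hF ∈ X.G (k, L) :=
  ⟨F, hF, rfl⟩

theorem G_mono {a b : ℕ × ℕ} (h : a ≤ b) : X.G a ≤ X.G b := by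
  obtain ⟨a1, a2⟩ := a
  obtain ⟨b1, b2⟩ := b
  obtain ⟨h1, h2⟩ := Prod.mk_le_mk.1 h
  obtain ⟨j, rfl⟩ := Nat.exists_eq_add_of_le h1
  rintro x ⟨F, hF, hx⟩
  exact ⟨F * X.u0 ^ j, X.T_mono _ h2 (X.up hF), (X.fr_up a1 j F).trans hx⟩

/-- PROOF. As `LD.filt` in Helper63/LT/Zg.lean. -/
theorem filt : Filt (Fintype.card ι) X.SS (fun k => X.G (k, k)) := by
  have hsurj : ∀ k, ∃ f : X.T k k →ₗ[ℂ] X.G (k, k), Function.Surjective f := by
    intro k
    have h1 : ∀ F : X.T k k, (⟨X.fr k F, k, k, F, F.2, rfl⟩ : X.SS) ∈ X.G (k, k) :=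
      fun F => ⟨F, F.2, rfl⟩
    refine ⟨{ toFun := fun F => ⟨⟨X.fr k F, k, k, F, F.2, rfl⟩, h1 F⟩
              map_add' := fun F F' => Subtype.ext (Subtype.ext (map_add (X.fr k) _ _))
              map_smul' := fun r F => Subtype.ext (Subtype.ext (map_smul (X.fr k) r _)) }, ?_⟩
    rintro ⟨x, F, hF, hx⟩
    exact ⟨⟨F, hF⟩, Subtype.ext (Subtype.ext hx)⟩
  refine ⟨?_, ?_, ?_, ?_, ?_, ?_⟩
  · intro k k' hkk
    exact X.G_mono (Prod.mk_le_mk.2 ⟨hkk, hkk⟩)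
  · rintro a b x y ⟨F, hF, hx⟩ ⟨F', hF', hy⟩
    refine ⟨F * F', X.T_mul hF hF', ?_⟩
    have hx' : X.fr a F = (x : MvPowerSeries ι ℂ) := hx
    have hy' : X.fr b F' = (y : MvPowerSeries ι ℂ) := hy
    have h2 : X.fr (a + b) (F * F') = ((x * y : X.SS) : MvPowerSeries ι ℂ) := by
      rw [← X.fr_mul, hx', hy']
      rfl
    exact h2
  · exact ⟨1, X.T_one, X.fr_zero_one⟩
  · intro x
    obtain ⟨k, L, F, hF, rfl⟩ := X.exists_el x
    exact ⟨max k L, X.G_mono (Prod.mk_le_mk.2 ⟨le_max_left k L, le_max_right k L⟩)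
      (X.el_mem_G k L F hF)⟩
  · intro k
    obtain ⟨f, hf⟩ := hsurj k
    have := X.T_fin k k
    exact Module.Finite.of_surjective f hf
  · obtain ⟨C, hC⟩ := X.T_dim
    refine ⟨C, fun k => ?_⟩
    obtain ⟨f, hf⟩ := hsurj k
    have := X.T_fin k k
    exact (LinearMap.finrank_le_finrank_of_surjective hf).trans (hC k)

/-! Piece Ye-4: derivations -/

/-- PROOF. `pv_fr`, `T_wron` (`u0 ^ k ∈ T k 0`). -/
theorem pv_mem (v : ι → ℂ) {x : MvPowerSeries ι ℂ} (hx : x ∈ X.SS) : X.pv v x ∈ X.SS := by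
  obtain ⟨k, L, F, hF, rfl⟩ := hx
  exact ⟨2 * k, L + 0, _, X.T_wron hF (X.u0_pow k) v, (X.pv_fr v k F).symm⟩

/-- The derivation of `SS` in the direction `v`. -/
def dv (v : ι → ℂ) : Derivation ℂ X.SS X.SS where
  toFun x := ⟨X.pv v (x : MvPowerSeries ι ℂ), X.pv_mem v x.2⟩
  map_add' x y := Subtype.ext (map_add (X.pv v) _ _)
  map_smul' a x := Subtype.ext ((X.pv v).map_smul _ _)
  map_one_eq_zero' := Subtype.ext (X.pv v).map_one_eq_zero
  leibniz' x y := Subtype.ext ((X.pv v).leibniz _ _)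

theorem dv_val (v : ι → ℂ) (x : X.SS) :
    ((X.dv v x : X.SS) : MvPowerSeries ι ℂ) = X.pv v (x : MvPowerSeries ι ℂ) := rfl

private theorem Ye4_pv (v : ι → ℂ) (f : MvPowerSeries ι ℂ) :
    X.pv v f = ∑ j, X.b0.repr v j • (psD ι).D j f := dir_apply _ _ _

theorem dv_add (v w : ι → ℂ) (x : X.SS) : X.dv (v + w) x = X.dv v x + X.dv w x := by
  refine Subtype.ext ?_
  change X.pv (v + w) (x : MvPowerSeries ι ℂ) =
    X.pv v (x : MvPowerSeries ι ℂ) + X.pv w (x : MvPowerSeries ι ℂ)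
  rw [X.Ye4_pv, X.Ye4_pv, X.Ye4_pv, ← Finset.sum_add_distrib]
  refine Finset.sum_congr rfl fun j _ => ?_
  rw [map_add, Finsupp.add_apply, add_smul]

theorem dv_smul (a : ℂ) (v : ι → ℂ) (x : X.SS) : X.dv (a • v) x = a • X.dv v x := by
  refine Subtype.ext ?_
  change X.pv (a • v) (x : MvPowerSeries ι ℂ) = a • X.pv v (x : MvPowerSeries ι ℂ)
  rw [X.Ye4_pv, X.Ye4_pv, Finset.smul_sum]
  refine Finset.sum_congr rfl fun j _ => ?_
  rw [map_smul, Finsupp.smul_apply, smul_assoc]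

theorem dv_comm (v w : ι → ℂ) (x : X.SS) : X.dv v (X.dv w x) = X.dv w (X.dv v x) :=
  Subtype.ext (dir_comm (psD ι) (fun j => X.b0.repr v j) (fun j => X.b0.repr w j)
    (x : MvPowerSeries ι ℂ))

theorem dv_el (v : ι → ℂ) (k L : ℕ) (F : Ent ι) (hF : F ∈ X.T k L) :
    ((X.dv v (X.el k L F hF) : X.SS) : MvPowerSeries ι ℂ) =
      X.fr (2 * k) (dE v F * X.u0 ^ k - F * dE v (X.u0 ^ k)) := X.pv_fr v k F

/-- The commuting derivations given by a basis `b`. -/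
def dB (b : Module.Basis ι ℂ (ι → ℂ)) : CD ι X.SS where
  D i := X.dv (b i)
  comm i j x := X.dv_comm (b i) (b j) x

theorem dB_D (b : Module.Basis ι ℂ (ι → ℂ)) (i : ι) : (X.dB b).D i = X.dv (b i) := rfl

/-- PROOF. `dir_apply`, `dv_add`, `dv_smul`. -/
theorem dB_dir (b : Module.Basis ι ℂ (ι → ℂ)) (a : ι → ℂ) (x : X.SS) :
    (X.dB b).dir a x = X.dv (∑ i, a i • b i) x := by
  let L : (ι → ℂ) →ₗ[ℂ] X.SS :=
    { toFun := fun v => X.dv v x
      map_add' := fun v w => X.dv_add v w x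
      map_smul' := fun c v => X.dv_smul c v x }
  have h : X.dv (∑ i, a i • b i) x = L (∑ i, a i • b i) := rfl
  rw [h, map_sum, dir_apply]
  refine Finset.sum_congr rfl fun i _ => ?_
  rw [map_smul]
  rfl

/-- The commuting derivations of the power series given by a basis `b`. -/
def pB (b : Module.Basis ι ℂ (ι → ℂ)) : CD ι (MvPowerSeries ι ℂ) :=
  lin (psD ι) fun i j => X.b0.repr (b i) j

theorem pB_D (b : Module.Basis ι ℂ (ι → ℂ)) (i : ι) : (X.pB b).D i = X.pv (b i) := rfl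

/-! Piece Ye-5: the correction series -/

/-- The Taylor series of `u0 (w + x) u0 (w - x) / u0 (w) ^ 2` in `x`. -/
def U (b : Module.Basis ι ℂ (ι → ℂ)) : MvPowerSeries ι X.SS := fun α =>
  X.el 2 0 (coeff α (HH b X.u0 X.u0)) (X.HH_mem X.hu X.hu b α)

theorem coeff_U (b : Module.Basis ι ℂ (ι → ℂ)) (α : ι →₀ ℕ) :
    ((coeff α (X.U b) : X.SS) : MvPowerSeries ι ℂ) = X.fr 2 (coeff α (HH b X.u0 X.u0)) := rfl

/-- PROOF. As `LD.U_one` in Helper63/LT/Zg.lean. -/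
theorem U_one (b : Module.Basis ι ℂ (ι → ℂ)) : constantCoeff (X.U b) = 1 := by
  have h0 : coeff 0 (HH b X.u0 X.u0) = X.u0 * X.u0 := by
    rw [coeff_zero_eq_constantCoeff_apply]
    unfold HH
    rw [map_mul, constantCoeff_tay, constantCoeff_tay]
    rfl
  refine Subtype.ext ?_
  rw [← coeff_zero_eq_constantCoeff_apply, coeff_U, h0]
  have h1 := X.fr_mul 1 1 X.u0 X.u0
  have h2 := X.fr_up 0 1 1
  rw [X.fr_zero_one, zero_add, pow_one, one_mul] at h2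
  rw [h2, one_mul] at h1
  exact h1.symm

/-- PROOF. As `map_TT_HH` in Helper63/LT/Zt.lean, with `pv_TT` in place of `pderiv_TT`. -/
theorem map_TT_HH (b : Module.Basis ι ℂ (ι → ℂ)) (F G : Ent ι) :
    MvPowerSeries.map (TT X.b0 : Ent ι →+* MvPowerSeries ι ℂ) (HH b F G) =
      tay (X.pB b) (AlgHom.id ℂ (MvPowerSeries ι ℂ)) (TT X.b0 F) *
        tay (X.pB b).neg (AlgHom.id ℂ (MvPowerSeries ι ℂ)) (TT X.b0 G) := by
  have h1 : ∀ i x, TT X.b0 ((cE b).D i x) = (X.pB b).D i (TT X.b0 x) := fun i x =>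
    (X.pv_TT (b i) x).symm
  have h2 : ∀ i x, TT X.b0 ((cE b).neg.D i x) = (X.pB b).neg.D i (TT X.b0 x) := fun i x => by
    change TT X.b0 (-((cE b).D i x)) = -((X.pB b).D i (TT X.b0 x))
    rw [map_neg, h1]
  rw [HH, map_mul (MvPowerSeries.map (TT X.b0 : Ent ι →+* MvPowerSeries ι ℂ)), map_tay, map_tay,
    AlgHom.comp_id, tay_nat (cE b) (X.pB b) (TT X.b0) h1,
    tay_nat (cE b).neg (X.pB b).neg (TT X.b0) h2, AlgHom.id_comp]

private theorem Ye5_alg {R : Type} [CommRing R] (t a t' a' f f' z : R) (e1 : t * a = 1)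
    (e2 : t' * a' = 1) (k : ℕ) :
    f * a ^ k * (f' * a' ^ k * (t * t' * z) ^ k) = f * f' * z ^ k := by
  calc f * a ^ k * (f' * a' ^ k * (t * t' * z) ^ k) =
        f * f' * z ^ k * ((t * a) ^ k * (t' * a') ^ k) := by
          rw [mul_pow, mul_pow, mul_pow, mul_pow]
          ring
    _ = f * f' * z ^ k := by rw [e1, e2, one_pow, mul_one, mul_one]

private theorem Ye5_tay (b : Module.Basis ι ℂ (ι → ℂ)) (x : X.SS) :
    MvPowerSeries.map (X.SS.val : X.SS →+* MvPowerSeries ι ℂ)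
        (tay (X.dB b) (AlgHom.id ℂ X.SS) x) =
      tay (X.pB b) (AlgHom.id ℂ (MvPowerSeries ι ℂ)) (x : MvPowerSeries ι ℂ) := by
  rw [map_tay, AlgHom.comp_id]
  have h1 : ∀ i (x : X.SS), X.SS.val ((X.dB b).D i x) = (X.pB b).D i (X.SS.val x) :=
    fun i x => rfl
  have h2 := tay_nat (X.dB b) (X.pB b) X.SS.val h1 (AlgHom.id ℂ (MvPowerSeries ι ℂ)) x
  rw [AlgHom.id_comp] at h2
  exact h2.symm

private theorem Ye5_neg (b : Module.Basis ι ℂ (ι → ℂ)) (x : X.SS) :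
    MvPowerSeries.map (X.SS.val : X.SS →+* MvPowerSeries ι ℂ)
        (tay (X.dB b).neg (AlgHom.id ℂ X.SS) x) =
      tay (X.pB b).neg (AlgHom.id ℂ (MvPowerSeries ι ℂ)) (x : MvPowerSeries ι ℂ) := by
  rw [map_tay, AlgHom.comp_id]
  have h1 : ∀ i (x : X.SS), X.SS.val ((X.dB b).neg.D i x) = (X.pB b).neg.D i (X.SS.val x) :=
    fun i x => rfl
  have h2 := tay_nat (X.dB b).neg (X.pB b).neg X.SS.val h1
    (AlgHom.id ℂ (MvPowerSeries ι ℂ)) x
  rw [AlgHom.id_comp] at h2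
  exact h2.symm

private theorem Ye5_fr (j : ℕ) (W : MvPowerSeries ι (Ent ι)) (V : MvPowerSeries ι X.SS)
    (h : ∀ α, ((coeff α V : X.SS) : MvPowerSeries ι ℂ) = X.fr j (coeff α W)) :
    MvPowerSeries.map (X.SS.val : X.SS →+* MvPowerSeries ι ℂ) V =
      MvPowerSeries.map (TT X.b0 : Ent ι →+* MvPowerSeries ι ℂ) W *
        MvPowerSeries.C (X.iu ^ j) := by
  refine MvPowerSeries.ext fun α => ?_
  rw [coeff_map, coeff_mul_C, coeff_map]
  exact h α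

/-- PROOF. As `LD.coeff_tay_U` and `LD.coeff_tay_U2` in Helper63/LT (Zg.lean, Zh.lean). -/
theorem coeff_tay_U (b : Module.Basis ι ℂ (ι → ℂ)) (k L L' : ℕ) (F g : Ent ι) (hF : F ∈ X.T k L)
    (hg : g ∈ X.T k L') (α : ι →₀ ℕ) :
    ((coeff α (tay (X.dB b) (AlgHom.id ℂ X.SS) (X.el k L F hF) *
        (tay (X.dB b).neg (AlgHom.id ℂ X.SS) (X.el k L' g hg) * X.U b ^ k)) : X.SS) :
      MvPowerSeries ι ℂ) = X.fr (2 * k) (coeff α (HH b F g)) := by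
  have hU := X.Ye5_fr 2 (HH b X.u0 X.u0) (X.U b) (X.coeff_U b)
  rw [X.map_TT_HH] at hU
  have e1 : tay (X.pB b) (AlgHom.id ℂ (MvPowerSeries ι ℂ)) (TT X.b0 X.u0) *
      tay (X.pB b) (AlgHom.id ℂ (MvPowerSeries ι ℂ)) X.iu = 1 := by
    rw [← map_mul, X.mul_iu, map_one]
  have e2 : tay (X.pB b).neg (AlgHom.id ℂ (MvPowerSeries ι ℂ)) (TT X.b0 X.u0) *
      tay (X.pB b).neg (AlgHom.id ℂ (MvPowerSeries ι ℂ)) X.iu = 1 := by
    rw [← map_mul, X.mul_iu, map_one]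
  have e3 : (C (X.iu ^ (2 * k)) : MvPowerSeries ι (MvPowerSeries ι ℂ)) = C (X.iu ^ 2) ^ k := by
    rw [pow_mul, map_pow]
  have key : MvPowerSeries.map (X.SS.val : X.SS →+* MvPowerSeries ι ℂ)
      (tay (X.dB b) (AlgHom.id ℂ X.SS) (X.el k L F hF) *
        (tay (X.dB b).neg (AlgHom.id ℂ X.SS) (X.el k L' g hg) * X.U b ^ k)) =
      MvPowerSeries.map (TT X.b0 : Ent ι →+* MvPowerSeries ι ℂ) (HH b F g) *
        MvPowerSeries.C (X.iu ^ (2 * k)) := by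
    rw [map_mul, map_mul, map_pow, X.Ye5_tay, X.Ye5_neg, hU, X.el_val, X.el_val, X.fr_apply,
      X.fr_apply, map_mul, map_mul, map_pow, map_pow, X.map_TT_HH, e3]
    exact Ye5_alg _ _ _ _ _ _ _ e1 e2 k
  have h1 : ∀ V : MvPowerSeries ι X.SS, ((coeff α V : X.SS) : MvPowerSeries ι ℂ) =
      coeff α (MvPowerSeries.map (X.SS.val : X.SS →+* MvPowerSeries ι ℂ) V) := fun V => by
    rw [coeff_map]
    rfl
  rw [h1, key, coeff_mul_C, coeff_map, X.fr_apply]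
  rfl

/-! Piece Ye-6: the system -/

/-- The theta functions of the second kind, as power series. -/
def Z (b : Module.Basis ι ℂ (ι → ℂ)) (m : ℕ × ℕ) : Submodule ℂ (MvPowerSeries ι ℂ) :=
  (X.T' (2 * m.1) m.2).map (TT b).toLinearMap

private theorem Ye6_one (k : ℕ) : X.el k 0 (X.u0 ^ k) (X.u0_pow k) = 1 := by
  refine Subtype.ext ?_
  rw [el_val]
  have h := X.fr_up 0 k 1
  rw [zero_add, one_mul, X.fr_zero_one] at h
  exact h

private theorem Ye6_coeff (b : Module.Basis ι ℂ (ι → ℂ)) (k L : ℕ) (F : Ent ι) (hF : F ∈ X.T k L)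
    (α : ι →₀ ℕ) :
    ((coeff α (tay (X.dB b) (AlgHom.id ℂ X.SS) (X.el k L F hF) * X.U b ^ k) : X.SS) :
      MvPowerSeries ι ℂ) = X.fr (2 * k) (coeff α (HH b F (X.u0 ^ k))) := by
  have h := X.coeff_tay_U b k L 0 F (X.u0 ^ k) hF (X.u0_pow k) α
  rw [X.Ye6_one k, map_one, one_mul] at h
  exact h

/-- PROOF. `coeff_tay_U` with `g = u0 ^ k`, whose element is `1` (`fr_up 0 k 1`), so its expansion is `1`. -/
theorem P1 (b : Module.Basis ι ℂ (ι → ℂ)) (k L : ℕ) (φ : X.SS) (hφ : φ ∈ X.G (k, L)) (α : ι →₀ ℕ) :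
    coeff α (tay (X.dB b) (AlgHom.id ℂ X.SS) φ * X.U b ^ k) ∈ X.G (2 * k, L) := by
  obtain ⟨F, hF, hφ⟩ := hφ
  have e : φ = X.el k L F hF := Subtype.ext hφ.symm
  subst e
  exact ⟨coeff α (HH b F (X.u0 ^ k)), X.HH_mem hF (X.u0_pow k) b α,
    (X.Ye6_coeff b k L F hF α).symm⟩

/-- PROOF. As `LD.P2` in Helper63/LT/Zg.lean. -/
theorem P2 (b : Module.Basis ι ℂ (ι → ℂ)) (ψ : X.SS →ₐ[ℂ] ℂ) (k L : ℕ) (φ : X.SS)
    (hφ : φ ∈ X.G (k, L)) :
    tay (X.dB b) ψ φ * MvPowerSeries.map (ψ : X.SS →+* ℂ) (X.U b) ^ k ∈ X.Z b (k, L) := by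
  obtain ⟨F, hF, hφ⟩ := hφ
  have e : φ = X.el k L F hF := Subtype.ext hφ.symm
  subst e
  have := X.T_fin (2 * k) (L + 0)
  obtain ⟨κ, hκ, w, a, ha, hH⟩ := ev_basis (X.T (2 * k) (L + 0))
  refine ⟨∑ i, ψ (X.el (2 * k) (L + 0) (a i) (ha i)) • (tr (w i) F * rf (w i) (X.u0 ^ k)),
    Submodule.sum_mem _ fun i _ => Submodule.smul_mem _ _
      (X.T_pair' hF (X.u0_pow k) (w i)), ?_⟩
  have h1 : tay (X.dB b) ψ (X.el k L F hF) * MvPowerSeries.map (ψ : X.SS →+* ℂ) (X.U b) ^ k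
      = MvPowerSeries.map (ψ : X.SS →+* ℂ)
        (tay (X.dB b) (AlgHom.id ℂ X.SS) (X.el k L F hF) * X.U b ^ k) := by
    rw [map_mul, map_pow, map_tay]
    rfl
  rw [h1]
  refine MvPowerSeries.ext fun α => ?_
  rw [MvPowerSeries.coeff_map]
  have h2 : coeff α (tay (X.dB b) (AlgHom.id ℂ X.SS) (X.el k L F hF) * X.U b ^ k)
      = ∑ i, coeff α (TT b (tr (w i) F * rf (w i) (X.u0 ^ k)))
        • X.el (2 * k) (L + 0) (a i) (ha i) := by
    refine Subtype.ext ?_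
    rw [X.Ye6_coeff b k L F hF α,
      X.HH_dec hF (X.u0_pow k) b w a hH α, map_sum]
    rw [AddSubmonoidClass.coe_finsetSum]
    refine Finset.sum_congr rfl fun i _ => ?_
    rw [map_smul]
    rfl
  rw [h2]
  change coeff α (TT b (∑ i, ψ (X.el (2 * k) (L + 0) (a i) (ha i))
    • (tr (w i) F * rf (w i) (X.u0 ^ k)))) = ψ _
  rw [map_sum, map_sum, map_sum]
  refine Finset.sum_congr rfl fun i _ => ?_
  rw [map_smul, map_smul, map_smul, smul_eq_mul, smul_eq_mul, mul_comm]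

/-- The system for the basis `b`. PROOF. As `LD.exists_AData` in Helper63/LT/Zg.lean. -/
theorem exists_BData (b : Module.Basis ι ℂ (ι → ℂ)) :
    ∃ D : BData ι X.SS, D.d = X.dB b ∧ D.G = X.G ∧ D.Z = X.Z b := by
  refine ⟨{ d := X.dB b, G := X.G, Z := X.Z b, U := X.U b, filt := X.filt,
            G_mono := fun h => X.G_mono h, U_one := X.U_one b, Z_mul := ?_, Z_one := ?_,
            Z_mono := ?_, Z_fin := ?_, Z_unit := ?_, P1 := X.P1 b,
            P2 := fun ψ k L φ hφ => X.P2 b ψ k L φ hφ }, rfl, rfl, rfl⟩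
  · rintro m m' x y ⟨F, hF, rfl⟩ ⟨G, hG, rfl⟩
    refine ⟨F * G, ?_, map_mul (TT b) F G⟩
    have h := X.T'_mul hF hG
    rwa [← mul_add] at h
  · exact ⟨1, X.T'_one, map_one (TT b)⟩
  · rintro k L L' hL x ⟨F, hF, rfl⟩
    exact ⟨F, X.T'_mono _ hL hF, rfl⟩
  · intro m
    have := X.T'_fin m.1 m.2
    unfold Z
    infer_instance
  · refine ⟨TT b (tr 0 X.u0 * rf 0 X.u0),
      ⟨_, X.T_pair' X.hu X.hu 0, rfl⟩, ?_⟩
    rw [constantCoeff_TT]
    have h : ((tr 0 X.u0 * rf 0 X.u0 : Ent ι) : (ι → ℂ) → ℂ) 0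
        = (X.u0 : (ι → ℂ) → ℂ) (0 + 0) * (X.u0 : (ι → ℂ) → ℂ) (0 - 0) := rfl
    rw [h, add_zero, sub_zero]
    exact mul_ne_zero X.hu0 X.hu0

end LE

end

end Pool.Agent.Helper63.LU
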