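import Pool.Agent.Helper63.LU.Ye
import Pool.Agent.Helper63.LT.Zh

/-!
PROJECT LU (LT2), block Z2. Part f: the stabiliser of a prime ideal (compare Pool/Agent/Helper63/LT/Zh.lean: all proofs of this
file are copies of the proofs there, with two degrees).
-/

namespace Pool.Agent.Helper63.LU

open Finset MvPowerSeries
open Pool.Agent.Helper63.LT (CD Filt tay fct coeff_tay constantCoeff_tay map_tay tay_nat nst minp Ent dE dE_add
  dE_smul dE_comm dE_apply cE evE tr rf tr_apply rf_apply TT TT_inj constantCoeff_TT pderiv_TT HH map_HH HH_apply psD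
  ev_basis lc lc_mul lc_tay lc_TT)
open Pool.Agent.Helper63.LT.LD (crit)

noncomputable section

namespace LE

variable {ι : Type} [Fintype ι] (X : LE ι) (p : Ideal X.SS)

/-! Piece Yf-1: the stabiliser is a monoid -/

/-- The theta functions of degrees `k`, `L` whose quotient is in `p`. -/
def PP (k L : ℕ) : Submodule ℂ (Ent ι) where
  carrier := {F | ∃ h : F ∈ X.T k L, X.el k L F h ∈ p}
  add_mem' := by
    rintro F G ⟨hF, hF'⟩ ⟨hG, hG'⟩
    refine ⟨Submodule.add_mem _ hF hG, ?_⟩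
    have h1 : X.el k L (F + G) (Submodule.add_mem _ hF hG) = X.el k L F hF + X.el k L G hG :=
      Subtype.ext (map_add (X.fr k) F G)
    rw [h1]
    exact p.add_mem hF' hG'
  zero_mem' := by
    refine ⟨Submodule.zero_mem _, ?_⟩
    have h1 : X.el k L 0 (Submodule.zero_mem _) = 0 := Subtype.ext (map_zero (X.fr k))
    rw [h1]
    exact p.zero_mem
  smul_mem' := by
    rintro c F ⟨hF, hF'⟩
    refine ⟨Submodule.smul_mem _ c hF, ?_⟩
    have h1 : X.el k L (c • F) (Submodule.smul_mem _ c hF) = c • X.el k L F hF :=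
      Subtype.ext (map_smul (X.fr k) c F)
    rw [h1]
    exact Submodule.smul_of_tower_mem p c hF'

theorem mem_PP {k L : ℕ} {F : Ent ι} :
    F ∈ X.PP p k L ↔ ∃ h : F ∈ X.T k L, X.el k L F h ∈ p := Iff.rfl

theorem PP_le (k L : ℕ) : X.PP p k L ≤ X.T k L := fun _ h => h.1

theorem PP_mul {k k' L L' : ℕ} {F G : Ent ι} (hF : F ∈ X.PP p k L) (hG : G ∈ X.T k' L') :
    F * G ∈ X.PP p (k + k') (L + L') := by
  obtain ⟨hF1, hF2⟩ := hF
  have h1 : F * G ∈ X.T (k + k') (L + L') := X.T_mul hF1 hG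
  refine ⟨h1, ?_⟩
  have h2 : X.el (k + k') (L + L') (F * G) h1 = X.el k L F hF1 * X.el k' L' G hG :=
    Subtype.ext (X.fr_mul k k' F G).symm
  rw [h2]
  exact Ideal.mul_mem_right _ p hF2

/-- PROOF. `el F * el G ∈ p`, and `el G ∉ p` as its constant coefficient is not zero
(`constantCoeff_fr`); the value of `el` does not depend on the second degree. -/
theorem PP_prime (hp : p.IsPrime) (hp0 : ∀ x ∈ p, constantCoeff (x : MvPowerSeries ι ℂ) = 0)
    {k k' L L' L'' : ℕ} {F G : Ent ι} (hF : F ∈ X.T k L) (hG : G ∈ X.T k' L')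
    (h : F * G ∈ X.PP p (k + k') L'') (h0 : (G : (ι → ℂ) → ℂ) 0 ≠ 0) : F ∈ X.PP p k L := by
  obtain ⟨h1, h2⟩ := h
  have h3 : X.el (k + k') L'' (F * G) h1 = X.el k L F hF * X.el k' L' G hG :=
    Subtype.ext (X.fr_mul k k' F G).symm
  rw [h3] at h2
  rcases hp.mem_or_mem h2 with h4 | h4
  · exact ⟨hF, h4⟩
  · exfalso
    have h5 := hp0 _ h4
    rw [el_val, constantCoeff_fr] at h5
    exact (mul_ne_zero h0 (pow_ne_zero _ (inv_ne_zero X.hu0))) h5

/-- `w` stabilises `p`. -/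
def Stab (w : ι → ℂ) : Prop :=
  ∀ (k L L' : ℕ) (F g : Ent ι), F ∈ X.PP p k L → g ∈ X.T k L' →
    tr w F * tr (-w) g ∈ X.PP p (2 * k) (L + L')

theorem Stab_zero : X.Stab p 0 := by
  intro k L L' F g hF hg
  have h1 : tr (0 : ι → ℂ) F = F := by
    refine Subtype.ext (funext fun z => ?_)
    rw [tr_apply, zero_add]
  have h2 : tr (-0 : ι → ℂ) g = g := by
    refine Subtype.ext (funext fun z => ?_)
    rw [tr_apply, neg_zero, zero_add]
  rw [h1, h2, two_mul]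
  exact X.PP_mul p hF hg

/-- Base point freeness in degree `k`: the `k`-th power. -/
theorem bpf_pow (hb : ∀ z : ι → ℂ, ∃ F ∈ X.T 1 0, (F : (ι → ℂ) → ℂ) z ≠ 0) (k : ℕ) (z : ι → ℂ) :
    ∃ F ∈ X.T k 0, (F : (ι → ℂ) → ℂ) z ≠ 0 := by
  obtain ⟨F, hF, hz⟩ := hb z
  have h1 : ∀ k, F ^ k ∈ X.T k 0 := by
    intro k
    induction k with
    | zero => rw [pow_zero]; exact X.T_one
    | succ k ih => rw [pow_succ]; exact X.T_mul ih hF
  exact ⟨F ^ k, h1 k, pow_ne_zero k hz⟩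

/-- PROOF. As `LD.Stab_add`, with `g1, g4 ∈ T k 0`. -/
theorem Stab_add (hp : p.IsPrime) (hp0 : ∀ x ∈ p, constantCoeff (x : MvPowerSeries ι ℂ) = 0)
    (hb : ∀ z : ι → ℂ, ∃ F ∈ X.T 1 0, (F : (ι → ℂ) → ℂ) z ≠ 0) (v w : ι → ℂ)
    (hv : X.Stab p v) (hw : X.Stab p w) : X.Stab p (v + w) := by
  intro k L L' F g hF hg
  obtain ⟨g1, hg1, hz1⟩ := X.bpf_pow hb k (w - v)
  obtain ⟨g4, hg4, hz4⟩ := X.bpf_pow hb k (v - w)
  have h1 : tr v F * tr (-v) g1 ∈ X.PP p (2 * k) (L + 0) := hv k L 0 F g1 hF hg1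
  have h2 : tr (-v) g * tr v g4 ∈ X.T (2 * k) (L' + 0) := by
    have h3 := X.T_pair hg hg4 (-v)
    rwa [neg_neg] at h3
  have h3 := hw (2 * k) (L + 0) (L' + 0) _ _ h1 h2
  have h4 : tr (w - v) g1 * tr (v - w) g4 ∈ X.T (2 * k) (0 + 0) := by
    have h5 := X.T_pair hg1 hg4 (w - v)
    rwa [neg_sub] at h5
  have h5 : tr (v + w) F * tr (-(v + w)) g ∈ X.T (2 * k) (L + L') :=
    X.T_pair (X.PP_le p k L hF) hg (v + w)
  have h6 : tr w (tr v F * tr (-v) g1) * tr (-w) (tr (-v) g * tr v g4) =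
      (tr (v + w) F * tr (-(v + w)) g) * (tr (w - v) g1 * tr (v - w) g4) := by
    refine Subtype.ext (funext fun z => ?_)
    change ((F : (ι → ℂ) → ℂ) (v + (w + z)) * (g1 : (ι → ℂ) → ℂ) (-v + (w + z))) *
        ((g : (ι → ℂ) → ℂ) (-v + (-w + z)) * (g4 : (ι → ℂ) → ℂ) (v + (-w + z))) =
      ((F : (ι → ℂ) → ℂ) (v + w + z) * (g : (ι → ℂ) → ℂ) (-(v + w) + z)) *
        ((g1 : (ι → ℂ) → ℂ) (w - v + z) * (g4 : (ι → ℂ) → ℂ) (v - w + z))
    have e1 : v + (w + z) = v + w + z := by abel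
    have e2 : -v + (w + z) = w - v + z := by abel
    have e3 : -v + (-w + z) = -(v + w) + z := by abel
    have e4 : v + (-w + z) = v - w + z := by abel
    rw [e1, e2, e3, e4]
    ring
  rw [h6, two_mul (2 * k)] at h3
  have h3' : tr (v + w) F * tr (-(v + w)) g * (tr (w - v) g1 * tr (v - w) g4) ∈
      X.PP p (2 * k + 2 * k) (L + L') := by
    have e : L + 0 + (L' + 0) = L + L' := by omega
    rwa [e] at h3
  refine X.PP_prime p hp hp0 h5 h4 h3' ?_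
  change (g1 : (ι → ℂ) → ℂ) (w - v + 0) * (g4 : (ι → ℂ) → ℂ) (v - w + 0) ≠ 0
  rw [add_zero, add_zero]
  exact mul_ne_zero hz1 hz4

/-! Piece Yf-2: the stabiliser is closed -/

/-- PROOF. As `LD.fun_eq`. -/
theorem fun_eq (k L L' : ℕ) :
    ∃ (κ : Type) (_ : Fintype κ) (z : κ → (ι → ℂ)) (a : κ → Ent ι),
      (∀ i, a i ∈ X.T (2 * k) (L + L')) ∧
      (∀ H ∈ X.T (2 * k) (L + L'), H = ∑ i, (H : (ι → ℂ) → ℂ) (z i) • a i) ∧
      ∀ (f : Ent ι →ₗ[ℂ] ℂ) (F g : Ent ι), F ∈ X.T k L → g ∈ X.T k L' → ∀ w : ι → ℂ,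
        f (tr w F * tr (-w) g) =
          ∑ i, (F : (ι → ℂ) → ℂ) (z i + w) * (g : (ι → ℂ) → ℂ) (z i - w) * f (a i) := by
  have := X.T_fin (2 * k) (L + L')
  obtain ⟨κ, hκ, z, a, ha, hH⟩ := ev_basis (X.T (2 * k) (L + L'))
  refine ⟨κ, hκ, z, a, ha, hH, fun f F g hF hg w => ?_⟩
  have h1 := hH _ (X.T_pair hF hg w)
  have h2 := congrArg f h1
  rw [h2, map_sum]
  refine Finset.sum_congr rfl fun i _ => ?_
  rw [map_smul, smul_eq_mul]
  have h3 : ((tr w F * tr (-w) g : Ent ι) : (ι → ℂ) → ℂ) (z i) =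
      (F : (ι → ℂ) → ℂ) (w + z i) * (g : (ι → ℂ) → ℂ) (-w + z i) := rfl
  rw [h3, add_comm w, neg_add_eq_sub]

/-- PROOF. As `LD.Stab_closed`. -/
theorem Stab_closed : IsClosed {w : ι → ℂ | X.Stab p w} := by
  have h1 : {w : ι → ℂ | X.Stab p w} = ⋂ (k : ℕ) (L : ℕ) (L' : ℕ) (F : Ent ι) (g : Ent ι)
      (_ : F ∈ X.PP p k L) (_ : g ∈ X.T k L') (f : Ent ι →ₗ[ℂ] ℂ)
      (_ : ∀ x ∈ X.PP p (2 * k) (L + L'), f x = 0),
      {w : ι → ℂ | f (tr w F * tr (-w) g) = 0} := by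
    ext w
    simp only [Set.mem_iInter, Set.mem_setOf_eq]
    constructor
    · intro hw k L L' F g hF hg f hf
      exact hf _ (hw k L L' F g hF hg)
    · intro hw k L L' F g hF hg
      exact crit _ _ fun f hf => hw k L L' F g hF hg f hf
  rw [h1]
  refine isClosed_iInter fun k => isClosed_iInter fun L => isClosed_iInter fun L' =>
    isClosed_iInter fun F => isClosed_iInter fun g =>
    isClosed_iInter fun hF => isClosed_iInter fun hg => isClosed_iInter fun f =>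
    isClosed_iInter fun hf => ?_
  obtain ⟨κ, _, z, a, _, _, hfe⟩ := X.fun_eq k L L'
  have hF' : F ∈ X.T k L := X.PP_le p k L hF
  have h2 : {w : ι → ℂ | f (tr w F * tr (-w) g) = 0} = {w : ι → ℂ |
      ∑ i, (F : (ι → ℂ) → ℂ) (z i + w) * (g : (ι → ℂ) → ℂ) (z i - w) * f (a i) = 0} := by
    ext w
    rw [Set.mem_setOf_eq, Set.mem_setOf_eq, hfe f F g hF' hg w]
  rw [h2]
  refine isClosed_eq ?_ continuous_const
  refine continuous_finset_sum _ fun i _ => ?_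
  refine Continuous.mul (Continuous.mul ?_ ?_) continuous_const
  · exact F.2.continuous.comp (continuous_const.add continuous_id)
  · exact g.2.continuous.comp (continuous_const.sub continuous_id)

/-! Piece Yf-3: the Lie algebra -/

/-- The directions in which `p` is stable. -/
def hh : Submodule ℂ (ι → ℂ) where
  carrier := {v | ∀ x ∈ p, X.dv v x ∈ p}
  add_mem' := by
    intro v w hv hw x hx
    rw [X.dv_add]
    exact p.add_mem (hv x hx) (hw x hx)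
  zero_mem' := by
    intro x _
    have h1 := X.dv_smul 0 0 x
    rw [zero_smul, zero_smul] at h1
    rw [h1]
    exact p.zero_mem
  smul_mem' := by
    intro c v hv x hx
    rw [X.dv_smul]
    exact Submodule.smul_of_tower_mem p c (hv x hx)

theorem mem_hh {v : ι → ℂ} : v ∈ X.hh p ↔ ∀ x ∈ p, X.dv v x ∈ p := Iff.rfl

/-- PROOF. As `LD.hh_of_rays`, with `T_wron`, `u0 ^ k ∈ T k 0`. -/
theorem hh_of_rays (v : ι → ℂ) (h : ∀ t : ℝ, 0 ≤ t → X.Stab p (t • v)) : v ∈ X.hh p := by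
  intro x hx
  obtain ⟨k, L, F, hF, rfl⟩ := X.exists_el x
  have hu : X.u0 ^ k ∈ X.T k 0 := X.u0_pow k
  have hW : dE v F * X.u0 ^ k - F * dE v (X.u0 ^ k) ∈ X.T (2 * k) (L + 0) := X.T_wron hF hu v
  have hFP : F ∈ X.PP p k L := ⟨hF, hx⟩
  have h1 : X.dv v (X.el k L F hF) =
      X.el (2 * k) (L + 0) (dE v F * X.u0 ^ k - F * dE v (X.u0 ^ k)) hW :=
    Subtype.ext (X.dv_el v k L F hF)
  rw [h1]
  suffices h2 : dE v F * X.u0 ^ k - F * dE v (X.u0 ^ k) ∈ X.PP p (2 * k) (L + 0) from h2.2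
  refine crit (X.PP p (2 * k) (L + 0)) _ fun f hf => ?_
  obtain ⟨κ, hκ, z, a, ha, hH, hfun⟩ := X.fun_eq k L 0
  have hl : ∀ (G : Ent ι) (y w : ι → ℂ),
      HasDerivAt (fun t : ℝ => (G : (ι → ℂ) → ℂ) (y + t • w)) ((dE w G : (ι → ℂ) → ℂ) y) 0 :=
    fun G y w => ((G.2 y).hasFDerivAt.restrictScalars ℝ).hasLineDerivAt w
  have hd : HasDerivAt (fun t : ℝ => ∑ i, (F : (ι → ℂ) → ℂ) (z i + t • v) *
      ((X.u0 ^ k : Ent ι) : (ι → ℂ) → ℂ) (z i + t • (-v)) * f (a i))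
      (∑ i, ((dE v F : (ι → ℂ) → ℂ) (z i) * ((X.u0 ^ k : Ent ι) : (ι → ℂ) → ℂ) (z i + (0 : ℝ) • (-v)) +
        (F : (ι → ℂ) → ℂ) (z i + (0 : ℝ) • v) * (dE (-v) (X.u0 ^ k) : (ι → ℂ) → ℂ) (z i)) *
          f (a i)) 0 :=
    HasDerivAt.fun_sum fun i _ => ((hl F (z i) v).mul (hl (X.u0 ^ k) (z i) (-v))).mul_const _
  have hz : ∀ t ∈ Set.Ici (0 : ℝ), ∑ i, (F : (ι → ℂ) → ℂ) (z i + t • v) *
      ((X.u0 ^ k : Ent ι) : (ι → ℂ) → ℂ) (z i + t • (-v)) * f (a i) = 0 := by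
    intro t ht
    have h2 := hf _ (h t ht k L 0 F (X.u0 ^ k) hFP hu)
    rw [hfun f F (X.u0 ^ k) hF hu (t • v)] at h2
    rw [← h2]
    refine sum_congr rfl fun i _ => ?_
    rw [smul_neg, ← sub_eq_add_neg]
  have hd0 : HasDerivWithinAt (fun t : ℝ => ∑ i, (F : (ι → ℂ) → ℂ) (z i + t • v) *
      ((X.u0 ^ k : Ent ι) : (ι → ℂ) → ℂ) (z i + t • (-v)) * f (a i)) 0 (Set.Ici 0) 0 :=
    (hasDerivWithinAt_const (0 : ℝ) (Set.Ici (0 : ℝ)) (0 : ℂ)).congr hz (hz 0 Set.self_mem_Ici)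
  have h3 := (uniqueDiffWithinAt_Ici (0 : ℝ)).eq_deriv _ hd.hasDerivWithinAt hd0
  rw [hH _ hW, map_sum, ← h3]
  refine sum_congr rfl fun i _ => ?_
  rw [map_smul, smul_eq_mul, zero_smul, zero_smul, add_zero]
  congr 1
  have h4 : (dE (-v) (X.u0 ^ k) : (ι → ℂ) → ℂ) (z i) =
      -(dE v (X.u0 ^ k) : (ι → ℂ) → ℂ) (z i) := by
    rw [dE_apply, dE_apply, map_neg]
  rw [h4]
  change (dE v F : (ι → ℂ) → ℂ) (z i) * ((X.u0 ^ k : Ent ι) : (ι → ℂ) → ℂ) (z i) -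
    (F : (ι → ℂ) → ℂ) (z i) * (dE v (X.u0 ^ k) : (ι → ℂ) → ℂ) (z i) = _
  ring

/-! Piece Yf-4: exponentials -/

private theorem Yf4_fr (k : ℕ) (a : ι → ℂ) (n : ℕ) (f : (ι →₀ ℕ) → Ent ι)
    (g : (ι →₀ ℕ) → X.SS) (h : ∀ α, ((g α : X.SS) : MvPowerSeries ι ℂ) = X.fr k (f α)) :
    ((lc a n g : X.SS) : MvPowerSeries ι ℂ) = X.fr k (lc a n f) := by
  unfold lc
  rw [map_sum, AddSubmonoidClass.coe_finsetSum]
  refine sum_congr rfl fun α _ => ?_
  rw [map_smul, ← h]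
  rfl

/-- PROOF. As `LD.lc_HH_mem`: `HH_mem`, `coeff_tay_U` with `b = b0`, `lc_mul`, `lc_tay` for `dB b0` (`dB_dir`,
`b0.sum_repr`). -/
theorem lc_HH_mem {v : ι → ℂ} (hv : v ∈ X.hh p) {k L L' : ℕ} {F g : Ent ι} (hF : F ∈ X.PP p k L)
    (hg : g ∈ X.T k L') (n : ℕ) :
    lc (fun i => X.b0.repr v i) n (fun α => coeff α (HH X.b0 F g)) ∈ X.PP p (2 * k) (L + L') := by
  obtain ⟨hFT, hFp⟩ := hF
  have hmem : lc (fun i => X.b0.repr v i) n (fun α => coeff α (HH X.b0 F g)) ∈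
      X.T (2 * k) (L + L') :=
    Submodule.sum_mem _ fun α _ => Submodule.smul_mem _ _ (X.HH_mem hFT hg X.b0 α)
  refine ⟨hmem, ?_⟩
  have hv' : ∀ x ∈ p, (X.dB X.b0).dir (fun i => X.b0.repr v i) x ∈ p := by
    intro x hx
    rw [X.dB_dir, X.b0.sum_repr]
    exact hv x hx
  have h1 : ∀ n, lc (fun i => X.b0.repr v i) n
      (fun α => coeff α (tay (X.dB X.b0) (AlgHom.id ℂ X.SS) (X.el k L F hFT))) ∈ p :=
    fun n => lc_tay (X.dB X.b0) p _ hv' (X.el k L F hFT) hFp n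
  have h2 := lc_mul p (fun i => X.b0.repr v i) _
    (tay (X.dB X.b0).neg (AlgHom.id ℂ X.SS) (X.el k L' g hg) * X.U X.b0 ^ k) h1 n
  have h3 : X.el (2 * k) (L + L') _ hmem = lc (fun i => X.b0.repr v i) n
      (fun α => coeff α (tay (X.dB X.b0) (AlgHom.id ℂ X.SS) (X.el k L F hFT) *
        (tay (X.dB X.b0).neg (AlgHom.id ℂ X.SS) (X.el k L' g hg) * X.U X.b0 ^ k))) :=
    Subtype.ext (Yf4_fr X (2 * k) _ n _ _ fun α => X.coeff_tay_U X.b0 k L L' F g hFT hg α).symm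
  rw [h3]
  exact h2

/-- PROOF. As `LD.Stab_of_hh`. -/
theorem Stab_of_hh (v : ι → ℂ) (hv : v ∈ X.hh p) : X.Stab p v := by
  intro k L L' F g hF hg
  refine crit (X.PP p (2 * k) (L + L')) _ fun f hf => ?_
  obtain ⟨κ, hκ, z, a, ha, hH, hfun⟩ := X.fun_eq k L L'
  have hFT : F ∈ X.T k L := hF.1
  obtain ⟨K, hK⟩ : ∃ K : Ent ι, K = ∑ i, f (a i) • (tr (z i) F * rf (z i) g) := ⟨_, rfl⟩
  have h1 : ∀ w : ι → ℂ, (K : (ι → ℂ) → ℂ) w = f (tr w F * tr (-w) g) := by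
    intro w
    rw [hfun f F g hFT hg w]
    have h2 : (K : (ι → ℂ) → ℂ) w = evE w K := rfl
    rw [h2, hK, map_sum]
    refine sum_congr rfl fun i _ => ?_
    rw [map_smul]
    change f (a i) * ((F : (ι → ℂ) → ℂ) (z i + w) * (g : (ι → ℂ) → ℂ) (z i - w)) = _
    ring
  have h3 : ∀ n : ℕ, ((dE v)^[n] K : (ι → ℂ) → ℂ) 0 = 0 := by
    intro n
    rw [lc_TT X.b0 K v n]
    have hY := X.lc_HH_mem p hv hF hg n
    have h4 : lc (fun i => X.b0.repr v i) n (fun α => coeff α (TT X.b0 K)) =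
        f (lc (fun i => X.b0.repr v i) n (fun α => coeff α (HH X.b0 F g))) := by
      have h5 : ∀ i, ((lc (fun i => X.b0.repr v i) n (fun α => coeff α (HH X.b0 F g)) : Ent ι) :
          (ι → ℂ) → ℂ) (z i) =
          lc (fun i => X.b0.repr v i) n
            (fun α => coeff α (TT X.b0 (tr (z i) F * rf (z i) g))) := by
        intro i
        have h6 : ((lc (fun i => X.b0.repr v i) n (fun α => coeff α (HH X.b0 F g)) : Ent ι) :
          (ι → ℂ) → ℂ) (z i) = evE (z i) (lc (fun i => X.b0.repr v i) n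
            (fun α => coeff α (HH X.b0 F g))) := rfl
        rw [h6]
        unfold lc
        rw [map_sum]
        refine sum_congr rfl fun α _ => ?_
        rw [map_smul, Pool.Agent.Helper63.LT.evE_apply, HH_apply]
      rw [hH _ hY.1, map_sum]
      simp only [map_smul, h5]
      rw [hK]
      unfold lc
      simp only [map_sum, map_smul, smul_sum, sum_smul]
      rw [sum_comm]
      refine sum_congr rfl fun i _ => sum_congr rfl fun α _ => ?_
      simp only [smul_eq_mul]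
      ring
    rw [h4, hf _ hY, mul_zero]
  have h7 : (K : (ι → ℂ) → ℂ) v = 0 := by
    have e1 : Differentiable ℂ (fun s : ℂ => (K : (ι → ℂ) → ℂ) (0 + s • v)) :=
      K.2.comp ((differentiable_id.smul_const v).const_add 0)
    have e2 := Complex.taylorSeries_eq_of_entire e1 0 1
    have e3 : ∀ n : ℕ, ((n.factorial : ℂ))⁻¹ • ((1 : ℂ) - 0) ^ n •
        iteratedDeriv n (fun s : ℂ => (K : (ι → ℂ) → ℂ) (0 + s • v)) 0 = 0 := by
      intro n
      rw [Pool.Agent.Helper63.LT.iter_line K 0 v n 0, zero_smul, add_zero, h3 n, smul_zero, smul_zero]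
    simp only [e3, tsum_zero] at e2
    rw [one_smul, zero_add] at e2
    exact e2.symm
  rw [← h1, h7]

end LE

end

end Pool.Agent.Helper63.LU
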