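import Pool.Agent.Helper63.LU.Ye

/-!
PROJECT LU (LT2), block Z2. Part l: lower bound for the space of restrictions to a subspace (`LE.lower`).
-/

namespace Pool.Agent.Helper63.LU

open Finset MvPowerSeries
open Pool.Agent.Helper63.LT (CD Filt tay fct coeff_tay constantCoeff_tay map_tay tay_nat nst minp Ent dE dE_add
  dE_smul dE_comm cE evE tr rf tr_apply rf_apply rf_dE TT TT_inj constantCoeff_TT pderiv_TT HH map_HH HH_apply psD
  ev_basis)

noncomputable section

/-! Piece Yl-1: triangular systems, count -/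

/-- PROOF. If a finite combination `∑ c j • v j` is `0` and not all `c j` are `0`, take `i` in the support with the maximal
`r i` and apply `e i`: all terms `j ≠ i` of the support vanish, so `c i * e i (v i) = 0`. -/
theorem tri_indep {I V : Type} [AddCommGroup V] [Module ℂ V] (v : I → V) (e : I → V →ₗ[ℂ] ℂ)
    (r : I → ℤ) (h1 : ∀ i, e i (v i) ≠ 0) (h2 : ∀ i j, j ≠ i → e i (v j) ≠ 0 → r i < r j) :
    LinearIndependent ℂ v := by
  classical
  rw [linearIndependent_iff]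
  intro l hl
  by_contra hne
  obtain ⟨i, hi, him⟩ := l.support.exists_max_image r (Finsupp.support_nonempty_iff.mpr hne)
  have h3 : e i (Finsupp.linearCombination ℂ v l) = l i * e i (v i) := by
    rw [Finsupp.linearCombination_apply, Finsupp.sum, map_sum, Finset.sum_eq_single i]
    · rw [map_smul, smul_eq_mul]
    · intro j hj hji
      rw [map_smul, smul_eq_mul]
      by_contra h4
      have h5 := h2 i j hji (right_ne_zero_of_mul h4)
      have h6 := him j hj
      omega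
    · intro h
      exact absurd hi h
  rw [hl, map_zero] at h3
  rcases mul_eq_zero.mp h3.symm with h | h
  · exact (Finsupp.mem_support_iff.mp hi) h
  · exact h1 i h

/-- PROOF. `A` = all `η` with `η i ≤ P / (g + 1)` for `i ∈ Ja`, `η i ≤ Q / (g + 1)` for `i ∈ Jv` and `0` elsewhere (a
product of intervals, as in `card_A` of Ya.lean): the sums are at most `card κ * (P / (g + 1)) ≤ P`, and
`P ≤ (g + 1) * (P / (g + 1) + 1)`, `(g + 1) ^ (Ja.card + Jv.card) ≤ (g + 1) ^ g`. -/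
theorem box_card {κ : Type} [Fintype κ] (Ja Jv : Finset κ) (hd : Disjoint Ja Jv) (g P Q : ℕ)
    (hg : Fintype.card κ ≤ g) :
    ∃ A : Finset (κ →₀ ℕ), (∀ η ∈ A, ∑ i ∈ Ja, η i ≤ P ∧ ∑ i ∈ Jv, η i ≤ Q) ∧
      P ^ Ja.card * Q ^ Jv.card ≤ (g + 1) ^ g * A.card := by
  classical
  let B : Finset (κ → ℕ) := Fintype.piFinset fun i => Finset.range
    ((if i ∈ Ja then P / (g + 1) + 1 else 1) * (if i ∈ Jv then Q / (g + 1) + 1 else 1))
  have hda : ∀ i ∈ Ja, i ∉ Jv := fun i hi hv => Finset.disjoint_left.mp hd hi hv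
  have hle : ∀ (J : Finset κ) (N : ℕ) (f : κ → ℕ), (∀ i ∈ J, f i ≤ N / (g + 1)) →
      ∑ i ∈ J, f i ≤ N := by
    intro J N f hf
    calc ∑ i ∈ J, f i ≤ ∑ i ∈ J, N / (g + 1) := Finset.sum_le_sum hf
      _ = J.card * (N / (g + 1)) := by rw [Finset.sum_const, smul_eq_mul]
      _ ≤ (g + 1) * (N / (g + 1)) := Nat.mul_le_mul_right _
          (le_trans (le_trans (Finset.card_le_univ J) hg) (Nat.le_succ g))
      _ ≤ N := Nat.mul_div_le N (g + 1)
  refine ⟨B.map (Finsupp.equivFunOnFinite (α := κ) (M := ℕ)).symm.toEmbedding, ?_, ?_⟩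
  · intro η hη
    obtain ⟨f, hf, rfl⟩ := Finset.mem_map.1 hη
    have hf' := Fintype.mem_piFinset.1 hf
    refine ⟨hle Ja P _ fun i hi => ?_, hle Jv Q _ fun i hi => ?_⟩
    · have h2 := Finset.mem_range.1 (hf' i)
      rw [if_pos hi, if_neg (hda i hi), mul_one] at h2
      exact Nat.lt_succ_iff.mp h2
    · have h2 := Finset.mem_range.1 (hf' i)
      rw [if_neg fun h => hda i h hi, if_pos hi, one_mul] at h2
      exact Nat.lt_succ_iff.mp h2
  · rw [Finset.card_map, Fintype.card_piFinset]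
    simp only [Finset.card_range]
    rw [Finset.prod_mul_distrib, Finset.prod_ite_mem, Finset.prod_ite_mem, Finset.univ_inter,
      Finset.univ_inter, Finset.prod_const, Finset.prod_const]
    have h3 : Ja.card + Jv.card ≤ g := by
      rw [← Finset.card_union_of_disjoint hd]
      exact (Finset.card_le_univ _).trans hg
    have h4 : ∀ N : ℕ, N ≤ (g + 1) * (N / (g + 1) + 1) := fun N =>
      (Nat.lt_mul_div_succ N (Nat.succ_pos g)).le
    calc P ^ Ja.card * Q ^ Jv.card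
        ≤ ((g + 1) * (P / (g + 1) + 1)) ^ Ja.card * ((g + 1) * (Q / (g + 1) + 1)) ^ Jv.card :=
          Nat.mul_le_mul (Nat.pow_le_pow_left (h4 P) _) (Nat.pow_le_pow_left (h4 Q) _)
      _ = (g + 1) ^ (Ja.card + Jv.card) *
          ((P / (g + 1) + 1) ^ Ja.card * (Q / (g + 1) + 1) ^ Jv.card) := by
          rw [mul_pow, mul_pow, pow_add]
          ring
      _ ≤ _ := Nat.mul_le_mul_right _ (Nat.pow_le_pow_right (Nat.succ_pos g) h3)

section ps

variable {κ : Type} [Fintype κ]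

/-! Piece Yl-2: powers of a system of parameters -/

/-- `F` has the leading form `c X ^ ν`. -/
private def yl2_Q (F : MvPowerSeries κ ℂ) (ν : κ →₀ ℕ) (c : ℂ) : Prop :=
  (∀ μ : κ →₀ ℕ, μ.degree < ν.degree → coeff μ F = 0) ∧ coeff ν F = c ∧
    ∀ μ : κ →₀ ℕ, μ.degree = ν.degree → μ ≠ ν → coeff μ F = 0

private theorem yl2_mul {F F' : MvPowerSeries κ ℂ} {ν ν' : κ →₀ ℕ} {c c' : ℂ}
    (h : yl2_Q F ν c) (h' : yl2_Q F' ν' c') : yl2_Q (F * F') (ν + ν') (c * c') := by
  classical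
  obtain ⟨h1, h2, h3⟩ := h
  obtain ⟨h1', h2', h3'⟩ := h'
  have key : ∀ a b : κ →₀ ℕ, a.degree + b.degree ≤ ν.degree + ν'.degree →
      ¬ (a = ν ∧ b = ν') → coeff a F * coeff b F' = 0 := by
    intro a b hab hne
    rcases lt_trichotomy a.degree ν.degree with ha | ha | ha
    · rw [h1 a ha, zero_mul]
    · by_cases hav : a = ν
      · have hb : b.degree ≤ ν'.degree := by omega
        rcases hb.lt_or_eq with hb | hb
        · rw [h1' b hb, mul_zero]
        · rw [h3' b hb fun e => hne ⟨hav, e⟩, mul_zero]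
      · rw [h3 a ha hav, zero_mul]
    · rw [h1' b (by omega), mul_zero]
  have hz : ∀ μ : κ →₀ ℕ, μ.degree ≤ (ν + ν').degree → μ ≠ ν + ν' → coeff μ (F * F') = 0 := by
    intro μ hμ hne
    rw [coeff_mul]
    refine Finset.sum_eq_zero fun x hx => ?_
    have hx' : x.1 + x.2 = μ := HasAntidiagonal.mem_antidiagonal.1 hx
    refine key x.1 x.2 ?_ ?_
    · rw [← map_add, ← map_add, hx']
      exact hμ
    · rintro ⟨e1, e2⟩
      rw [e1, e2] at hx'
      exact hne hx'.symm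
  refine ⟨fun μ hμ => hz μ hμ.le (by rintro rfl; exact lt_irrefl _ hμ), ?_,
    fun μ hμ hne => hz μ hμ.le hne⟩
  rw [coeff_mul, Finset.sum_eq_single (ν, ν')]
  · rw [h2, h2']
  · rintro ⟨a, b⟩ hx hne
    have hx' : a + b = ν + ν' := HasAntidiagonal.mem_antidiagonal.1 hx
    refine key a b ?_ ?_
    · rw [← map_add, ← map_add, hx']
    · rintro ⟨e1, e2⟩
      exact hne (Prod.ext e1 e2)
  · intro h
    refine (h ?_).elim
    rw [HasAntidiagonal.mem_antidiagonal]

private theorem yl2_zero (g : MvPowerSeries κ ℂ) : yl2_Q g 0 (constantCoeff g) := by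
  refine ⟨fun μ hμ => ?_, coeff_zero_eq_constantCoeff_apply g, fun μ hμ hne => ?_⟩
  · rw [map_zero] at hμ
    exact absurd hμ (Nat.not_lt_zero _)
  · rw [map_zero, Finsupp.degree_eq_zero_iff] at hμ
    exact absurd hμ hne

open scoped Classical in
/-- PROOF. Induction on the degree of `ν`, for all `g` and `μ`. For `ν + single i 1`, `i ∈ s`: `f i = ∑ j, X j * g_j` with
`constantCoeff (g_j) = coeff (single j 1) (f i)` (`mm_dec` of Ya.lean or of Helper63/LT/Zb.lean), so the coefficient at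
`μ` is the sum over the `j` with `μ j ≠ 0` of the coefficients at `μ - single j 1` of `(∏ f ^ ν) * (g_j * g)`; such a
coefficient is `0` if `ν.degree > μ.degree - 1`; if `ν.degree = μ.degree - 1` it is `0` for `ν ≠ μ - single j 1` and
`constantCoeff g_j * constantCoeff g` for `ν = μ - single j 1`. -/
theorem coeff_prod (s : Finset κ) (f : κ → MvPowerSeries κ ℂ)
    (hf0 : ∀ i ∈ s, constantCoeff (f i) = 0)
    (hf1 : ∀ i ∈ s, ∀ j, coeff (Finsupp.single j 1) (f i) = if j = i then 1 else 0)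
    (ν : κ →₀ ℕ) (hν : ∀ i, i ∉ s → ν i = 0) (g : MvPowerSeries κ ℂ) :
    (∀ μ : κ →₀ ℕ, μ.degree < ν.degree → coeff μ ((∏ i ∈ s, f i ^ ν i) * g) = 0) ∧
    (∀ μ : κ →₀ ℕ, μ.degree = ν.degree → coeff μ ((∏ i ∈ s, f i ^ ν i) * g) =
      if μ = ν then constantCoeff g else 0) := by
  have h1 : ∀ i ∈ s, yl2_Q (f i) (Finsupp.single i 1) 1 := by
    intro i hi
    refine ⟨fun μ hμ => ?_, ?_, fun μ hμ hne => ?_⟩
    · rw [Finsupp.degree_single, Nat.lt_one_iff, Finsupp.degree_eq_zero_iff] at hμ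
      rw [hμ, coeff_zero_eq_constantCoeff_apply, hf0 i hi]
    · rw [hf1 i hi, if_pos rfl]
    · rw [Finsupp.degree_single] at hμ
      have h2 : μ ∈ Set.range (fun a : κ ↦ Finsupp.single a 1) := by
        rw [Finsupp.range_single_one]
        exact hμ
      obtain ⟨j, rfl⟩ := h2
      have h3 : j ≠ i := fun e => hne (by rw [e])
      change coeff (Finsupp.single j 1) (f i) = 0
      rw [hf1 i hi, if_neg h3]
  have h2 : ∀ i ∈ s, ∀ n : ℕ, yl2_Q (f i ^ n) (Finsupp.single i n) 1 := by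
    intro i hi n
    induction n with
    | zero =>
      rw [pow_zero, Finsupp.single_zero]
      have h3 := yl2_zero (1 : MvPowerSeries κ ℂ)
      rwa [map_one] at h3
    | succ n ih =>
      rw [pow_succ, Finsupp.single_add]
      have h3 := yl2_mul ih (h1 i hi)
      rwa [one_mul] at h3
  have h3 : ∀ t : Finset κ, t ⊆ s →
      yl2_Q (∏ i ∈ t, f i ^ ν i) (∑ i ∈ t, Finsupp.single i (ν i)) 1 := by
    intro t
    induction t using Finset.induction_on with
    | empty =>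
      intro _
      rw [Finset.prod_empty, Finset.sum_empty]
      have h4 := yl2_zero (1 : MvPowerSeries κ ℂ)
      rwa [map_one] at h4
    | insert a t ha ih =>
      intro hts
      rw [Finset.prod_insert ha, Finset.sum_insert ha]
      have h4 := yl2_mul (h2 a (hts (Finset.mem_insert_self a t)) (ν a))
        (ih fun x hx => hts (Finset.mem_insert_of_mem hx))
      rwa [one_mul] at h4
  have h4 : ∑ i ∈ s, Finsupp.single i (ν i) = ν := by
    ext j
    rw [Finsupp.finsetSum_apply]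
    by_cases hj : j ∈ s
    · rw [Finset.sum_eq_single j]
      · rw [Finsupp.single_eq_same]
      · intro i _ hi
        rw [Finsupp.single_apply, if_neg hi]
      · intro h
        exact absurd hj h
    · rw [hν j hj]
      refine Finset.sum_eq_zero fun i hi => ?_
      rw [Finsupp.single_apply, if_neg]
      rintro rfl
      exact hj hi
  have h5 := yl2_mul (h3 s (Finset.Subset.refl s)) (yl2_zero g)
  rw [h4, add_zero, one_mul] at h5
  refine ⟨h5.1, fun μ hμ => ?_⟩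
  by_cases h6 : μ = ν
  · rw [if_pos h6, h6, h5.2.1]
  · rw [if_neg h6, h5.2.2 μ hμ h6]

/-! Piece Yl-3: the vertical variables -/

/-- PROOF. Induction on the degree of `β`. For `β + single j 1`, `j ∈ Jv`: the coefficient of `x = a * φ α` at
`ν + β + single j 1`, times `ν j + β j + 1 = β j + 1`, is the coefficient at `ν + β` of
`pderiv j x = -(α j) • (a * φ (α - single j 1))` (`MvPowerSeries.coeff_pderiv`, Leibniz, `ha`, `hφ`), by induction
`-(α j) * c' * coeff ν (a * φ (α - single j 1 - β))`. So `c = -(α j) * c' / (β j + 1)`, which is `0` if `α j = 0`, or if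
`¬ β ≤ α - single j 1`; if `α = β + single j 1` then `α j = β j + 1`. -/
theorem coeff_vert (Jv : Finset κ) (a : MvPowerSeries κ ℂ) (φ : (κ →₀ ℕ) → MvPowerSeries κ ℂ)
    (ha : ∀ j ∈ Jv, MvPowerSeries.pderiv ℂ j a = 0)
    (hφ : ∀ α, ∀ j ∈ Jv, MvPowerSeries.pderiv ℂ j (φ α) = (-(α j : ℂ)) • φ (α - Finsupp.single j 1))
    (ν : κ →₀ ℕ) (hν : ∀ i ∈ Jv, ν i = 0) (β : κ →₀ ℕ) (hβ : ∀ i, i ∉ Jv → β i = 0) (α : κ →₀ ℕ) :
    ∃ c : ℂ, coeff (ν + β) (a * φ α) = c * coeff ν (a * φ (α - β)) ∧ (¬ β ≤ α → c = 0) ∧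
      ((∀ i ∈ Jv, α i = β i) → c = (-1) ^ β.degree) := by
  classical
  obtain ⟨n, hn⟩ : ∃ n : ℕ, n = β.degree := ⟨_, rfl⟩
  induction n generalizing β α with
  | zero =>
    have h0 : β = 0 := (Finsupp.degree_eq_zero_iff β).1 hn.symm
    subst h0
    refine ⟨1, by rw [add_zero, one_mul, tsub_zero], fun h => absurd zero_le h, fun _ => ?_⟩
    rw [map_zero, pow_zero]
  | succ n ih =>
    have hne : β ≠ 0 := by
      intro h
      rw [h, map_zero] at hn
      exact Nat.succ_ne_zero n hn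
    obtain ⟨j, hj⟩ : ∃ j, β j ≠ 0 := by
      by_contra h
      push Not at h
      exact hne (Finsupp.ext h)
    have hjv : j ∈ Jv := by
      by_contra h
      exact hj (hβ j h)
    obtain ⟨β', hβ'⟩ : ∃ β' : κ →₀ ℕ, β' = β - Finsupp.single j 1 := ⟨_, rfl⟩
    have hle : Finsupp.single j 1 ≤ β := by
      rw [Finsupp.single_le_iff]
      omega
    have hb : β = β' + Finsupp.single j 1 := by
      rw [hβ', tsub_add_cancel_of_le hle]
    have hbj : β j = β' j + 1 := by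
      rw [hb, Finsupp.add_apply, Finsupp.single_eq_same]
    have hbi : ∀ i, i ≠ j → β i = β' i := by
      intro i hi
      rw [hb, Finsupp.add_apply, Finsupp.single_eq_of_ne hi, add_zero]
    have hdeg : β.degree = β'.degree + 1 := by
      rw [hb, map_add, Finsupp.degree_single]
    have hn' : n = β'.degree := by omega
    have hs : ∀ i, i ∉ Jv → β' i = 0 := by
      intro i hi
      have hij : i ≠ j := fun h => hi (h ▸ hjv)
      rw [← hbi i hij]
      exact hβ i hi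
    obtain ⟨c', hc1, hc2, hc3⟩ := ih β' hs (α - Finsupp.single j 1) hn'
    have hpd : MvPowerSeries.pderiv ℂ j (a * φ α) =
        (-(α j : ℂ)) • (a * φ (α - Finsupp.single j 1)) := by
      rw [Derivation.leibniz, ha j hjv, smul_zero, add_zero, hφ α j hjv, smul_eq_mul,
        mul_smul_comm]
    have hco := MvPowerSeries.coeff_pderiv (R := ℂ) (i := j) (a * φ α) (ν + β')
    rw [hpd, map_smul, hc1, smul_eq_mul, Finsupp.add_apply, hν j hjv, zero_add, add_assoc,
      ← hb, tsub_tsub, add_comm (Finsupp.single j 1) β', ← hb] at hco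
    have hne' : ((β' j : ℕ) : ℂ) + 1 ≠ 0 := by exact_mod_cast Nat.succ_ne_zero (β' j)
    refine ⟨-(α j : ℂ) * c' / ((β' j : ℕ) + 1), ?_, ?_, ?_⟩
    · rw [div_mul_eq_mul_div, eq_div_iff hne', ← hco]
      ring
    · intro h
      rcases Nat.eq_zero_or_pos (α j) with h0 | h0
      · rw [h0]
        simp
      · have h1 : ¬ β' ≤ α - Finsupp.single j 1 := by
          intro h2
          apply h
          have h3 : Finsupp.single j 1 ≤ α := by
            rw [Finsupp.single_le_iff]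
            omega
          rw [hb]
          calc β' + Finsupp.single j 1 ≤ (α - Finsupp.single j 1) + Finsupp.single j 1 :=
                add_le_add_left h2 _
            _ = α := tsub_add_cancel_of_le h3
        rw [hc2 h1]
        simp
    · intro h
      have h1 : ∀ i ∈ Jv, (α - Finsupp.single j 1 : κ →₀ ℕ) i = β' i := by
        intro i hi
        rw [Finsupp.tsub_apply, h i hi]
        by_cases hij : i = j
        · subst hij
          rw [Finsupp.single_eq_same, hbj]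
          omega
        · rw [Finsupp.single_eq_of_ne hij, hbi i hij]
          omega
      rw [hc3 h1, h j hjv, hbj, hdeg, pow_succ]
      push_cast
      field_simp

/-! Piece Yl-4: the lower bound, algebraic form -/

open scoped Classical in
/-- PROOF. `tri_indep` with `v η = (∏ i ∈ Ja, f i ^ η i) * u η * φ η`, `e η = coeff η`, `r η = ∑ i ∈ Jv, η i - ∑ i ∈ Ja, η i`.
For an exponent `η` write `η = ν + β` with `ν` supported in `Ja`, `β` in `Jv` (`hu`; e.g. `Finsupp.filter`). `coeff_vert` with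
`a = (∏ i ∈ Ja, f i ^ η' i) * u η'` and `α = η'` gives: the coefficient of `v η'` at `η` is `c` times the coefficient at `ν` of
`(∏ i ∈ Ja, f i ^ η' i) * (u η' * φ (η' - β))`. If it is not `0` then `β ≤ η'`, and by `coeff_prod` (with `g = u η' * φ (η' - β)`;
`hf1` and `hfv` give its hypothesis `hf1`) the degree `∑ i ∈ Ja, η' i` is at most the degree of `ν`, with equality only for
`η' = η` on `Ja`: so `r η ≤ r η'`, with equality only if `η' = η`. For `η' = η`: `c = ± 1` and the coefficient is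
`constantCoeff (u η * φ (η - β))`, not `0` as `η - β = ν` vanishes on `Jv`. Then `box_card` and
`LinearIndependent.comp` for the `η` in `A`: `A.card ≤ finrank Z`. -/
theorem lower_ps (Ja Jv : Finset κ) (hd : Disjoint Ja Jv) (hu : ∀ i, i ∈ Ja ∨ i ∈ Jv)
    (f : κ → MvPowerSeries κ ℂ) (u φ : (κ →₀ ℕ) → MvPowerSeries κ ℂ)
    (hf0 : ∀ i ∈ Ja, constantCoeff (f i) = 0)
    (hf1 : ∀ i ∈ Ja, ∀ j ∈ Ja, coeff (Finsupp.single j 1) (f i) = if j = i then 1 else 0)
    (hfv : ∀ i ∈ Ja, ∀ j ∈ Jv, MvPowerSeries.pderiv ℂ j (f i) = 0)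
    (hu0 : ∀ η, constantCoeff (u η) ≠ 0)
    (huv : ∀ η, ∀ j ∈ Jv, MvPowerSeries.pderiv ℂ j (u η) = 0)
    (hφ0 : ∀ α : κ →₀ ℕ, (∀ j ∈ Jv, α j = 0) → constantCoeff (φ α) ≠ 0)
    (hφ : ∀ α, ∀ j ∈ Jv, MvPowerSeries.pderiv ℂ j (φ α) = (-(α j : ℂ)) • φ (α - Finsupp.single j 1))
    (g P Q : ℕ) (hg : Fintype.card κ ≤ g) (Z : Submodule ℂ (MvPowerSeries κ ℂ)) [Module.Finite ℂ Z]
    (hZ : ∀ η : κ →₀ ℕ, ∑ i ∈ Ja, η i ≤ P → ∑ i ∈ Jv, η i ≤ Q →
      (∏ i ∈ Ja, f i ^ η i) * u η * φ η ∈ Z) :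
    P ^ Ja.card * Q ^ Jv.card ≤ (g + 1) ^ g * Module.finrank ℂ Z := by
  have hprod : ∀ (η : κ →₀ ℕ) (s : Finset κ), s ⊆ Ja → ∀ j ∈ Jv,
      MvPowerSeries.pderiv ℂ j (∏ i ∈ s, f i ^ η i) = 0 := by
    intro η s
    induction s using Finset.induction_on with
    | empty =>
      intro _ j _
      rw [Finset.prod_empty, MvPowerSeries.pderiv_one]
    | insert a s ha ih =>
      intro hs j hj
      rw [Finset.prod_insert ha, Derivation.leibniz,
        ih (fun x hx => hs (Finset.mem_insert_of_mem hx)) j hj, MvPowerSeries.pderiv_pow,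
        hfv a (hs (Finset.mem_insert_self a s)) j hj, mul_zero, smul_zero, smul_zero, add_zero]
  have hJdisj : ∀ i ∈ Ja, i ∉ Jv := fun i hi hj => Finset.disjoint_left.1 hd hi hj
  have hfa : ∀ i ∈ Ja, ∀ j, coeff (Finsupp.single j 1) (f i) = if j = i then 1 else 0 := by
    intro i hi j
    rcases hu j with hj | hj
    · exact hf1 i hi j hj
    · have hne : j ≠ i := fun h => hJdisj i hi (h ▸ hj)
      rw [if_neg hne]
      have h1 := MvPowerSeries.coeff_pderiv (R := ℂ) (i := j) (f i) 0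
      rw [hfv i hi j hj, map_zero, zero_add, Finsupp.zero_apply, Nat.cast_zero, zero_add,
        mul_one] at h1
      exact h1.symm
  -- the two parts of an exponent
  obtain ⟨pa, hpa⟩ : ∃ pa : (κ →₀ ℕ) → (κ →₀ ℕ), ∀ η, pa η = η.filter (fun i => i ∈ Ja) :=
    ⟨_, fun _ => rfl⟩
  obtain ⟨pv, hpv⟩ : ∃ pv : (κ →₀ ℕ) → (κ →₀ ℕ), ∀ η, pv η = η.filter (fun i => i ∈ Jv) :=
    ⟨_, fun _ => rfl⟩
  have hpa1 : ∀ η, ∀ i ∈ Ja, pa η i = η i := fun η i hi => by
    rw [hpa, Finsupp.filter_apply_pos _ _ hi]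
  have hpa0 : ∀ η, ∀ i, i ∉ Ja → pa η i = 0 := fun η i hi => by
    rw [hpa, Finsupp.filter_apply_neg _ _ hi]
  have hpv1 : ∀ η, ∀ i ∈ Jv, pv η i = η i := fun η i hi => by
    rw [hpv, Finsupp.filter_apply_pos _ _ hi]
  have hpv0 : ∀ η, ∀ i, i ∉ Jv → pv η i = 0 := fun η i hi => by
    rw [hpv, Finsupp.filter_apply_neg _ _ hi]
  have hsplit : ∀ η, pa η + pv η = η := by
    intro η
    ext i
    rw [Finsupp.add_apply]
    rcases hu i with hi | hi
    · rw [hpa1 η i hi, hpv0 η i (hJdisj i hi), add_zero]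
    · have hi' : i ∉ Ja := fun h => hJdisj i h hi
      rw [hpa0 η i hi', hpv1 η i hi, zero_add]
  have hdega : ∀ η, (pa η).degree = ∑ i ∈ Ja, η i := by
    intro η
    rw [Finsupp.degree_eq_sum, ← Finset.sum_subset (Finset.subset_univ Ja)
      (fun i _ hi => hpa0 η i hi)]
    exact Finset.sum_congr rfl fun i hi => hpa1 η i hi
  have hprodpa : ∀ η, ∏ i ∈ Ja, f i ^ η i = ∏ i ∈ Ja, f i ^ (pa η) i := fun η =>
    Finset.prod_congr rfl fun i hi => by rw [hpa1 η i hi]
  -- the coefficient of one product at another exponent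
  have key : ∀ η η' : κ →₀ ℕ, ∃ c : ℂ,
      coeff η ((∏ i ∈ Ja, f i ^ η' i) * u η' * φ η') =
        c * coeff (pa η) ((∏ i ∈ Ja, f i ^ (pa η') i) * (u η' * φ (η' - pv η))) ∧
      (¬ pv η ≤ η' → c = 0) ∧ ((∀ i ∈ Jv, η' i = pv η i) → c = (-1) ^ (pv η).degree) := by
    intro η η'
    have ha : ∀ j ∈ Jv, MvPowerSeries.pderiv ℂ j ((∏ i ∈ Ja, f i ^ η' i) * u η') = 0 := by
      intro j hj
      rw [Derivation.leibniz, huv η' j hj, hprod η' Ja subset_rfl j hj, smul_zero, smul_zero,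
        add_zero]
    obtain ⟨c, hc1, hc2, hc3⟩ := coeff_vert Jv ((∏ i ∈ Ja, f i ^ η' i) * u η') φ ha hφ (pa η)
      (fun i hi => hpa0 η i fun h => hJdisj i h hi) (pv η) (hpv0 η) η'
    refine ⟨c, ?_, hc2, hc3⟩
    rw [hsplit] at hc1
    rw [hc1, mul_assoc, hprodpa]
  have hli : LinearIndependent ℂ fun η : κ →₀ ℕ => (∏ i ∈ Ja, f i ^ η i) * u η * φ η := by
    refine tri_indep _ (fun η => coeff η)
      (fun η => ((∑ i ∈ Jv, η i : ℕ) : ℤ) - ((∑ i ∈ Ja, η i : ℕ) : ℤ)) ?_ ?_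
    · intro η
      obtain ⟨c, hc1, -, hc3⟩ := key η η
      have hc := hc3 fun i hi => (hpv1 η i hi).symm
      have h2 := (coeff_prod Ja f hf0 hfa (pa η) (hpa0 η) (u η * φ (η - pv η))).2 (pa η) rfl
      rw [if_pos rfl] at h2
      rw [hc1, h2, hc, map_mul]
      refine mul_ne_zero (pow_ne_zero _ (neg_ne_zero.2 one_ne_zero)) (mul_ne_zero (hu0 η) ?_)
      refine hφ0 _ fun j hj => ?_
      rw [Finsupp.coe_tsub, Pi.sub_apply, hpv1 η j hj, Nat.sub_self]
    · intro η η' hne hco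
      obtain ⟨c, hc1, hc2, -⟩ := key η η'
      change coeff η ((∏ i ∈ Ja, f i ^ η' i) * u η' * φ η') ≠ 0 at hco
      rw [hc1] at hco
      have hle : pv η ≤ η' := by
        by_contra h
        exact hco (by rw [hc2 h, zero_mul])
      have hco' := right_ne_zero_of_mul hco
      have hcp := coeff_prod Ja f hf0 hfa (pa η') (hpa0 η') (u η' * φ (η' - pv η))
      have hdeg : (pa η').degree ≤ (pa η).degree := by
        by_contra h
        exact hco' (hcp.1 (pa η) (not_le.1 h))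
      have hv : ∑ i ∈ Jv, η i ≤ ∑ i ∈ Jv, η' i :=
        Finset.sum_le_sum fun i hi => by
          rw [← hpv1 η i hi]
          exact hle i
      rw [hdega, hdega] at hdeg
      rcases hdeg.lt_or_eq with h | h
      · have h1 : ((∑ i ∈ Ja, η' i : ℕ) : ℤ) < ((∑ i ∈ Ja, η i : ℕ) : ℤ) := by exact_mod_cast h
        have h2 : ((∑ i ∈ Jv, η i : ℕ) : ℤ) ≤ ((∑ i ∈ Jv, η' i : ℕ) : ℤ) := by exact_mod_cast hv
        linarith
      · have h3 : pa η = pa η' := by
          by_contra h4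
          refine hco' ?_
          rw [hcp.2 (pa η) (by rw [hdega, hdega, h]), if_neg h4]
        rcases hv.lt_or_eq with h5 | h5
        · have h1 : ((∑ i ∈ Ja, η' i : ℕ) : ℤ) = ((∑ i ∈ Ja, η i : ℕ) : ℤ) := by exact_mod_cast h
          have h2 : ((∑ i ∈ Jv, η i : ℕ) : ℤ) < ((∑ i ∈ Jv, η' i : ℕ) : ℤ) := by
            exact_mod_cast h5
          linarith
        · exfalso
          apply hne
          have h6 : ∀ i ∈ Jv, η i = η' i := by
            have h7 := (Finset.sum_eq_sum_iff_of_le (s := Jv) (f := fun i => η i)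
              (g := fun i => η' i) (fun i hi => by
                rw [← hpv1 η i hi]
                exact hle i)).1 h5
            exact h7
          ext i
          rcases hu i with hi | hi
          · rw [← hpa1 η' i hi, ← h3, hpa1 η i hi]
          · exact (h6 i hi).symm
  obtain ⟨A, hA1, hA2⟩ := box_card Ja Jv hd g P Q hg
  refine hA2.trans (Nat.mul_le_mul_left _ ?_)
  have hmem : ∀ η : A, (∏ i ∈ Ja, f i ^ (η : κ →₀ ℕ) i) * u η * φ η ∈ Z := fun η =>
    hZ η (hA1 η η.2).1 (hA1 η η.2).2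
  have hli2 : LinearIndependent ℂ fun η : A => (⟨_, hmem η⟩ : Z) := by
    refine LinearIndependent.of_comp Z.subtype ?_
    exact hli.comp (fun η : A => (η : κ →₀ ℕ)) Subtype.val_injective
  have h1 := hli2.fintype_card_le_finrank
  rwa [Fintype.card_coe] at h1

end ps

namespace LE

variable {κ : Type} [Fintype κ] (X : LE κ)

/-! Piece Yl-5: the lower bound -/

/-- Restriction to the subspace with the coordinates in `Jt`. -/
theorem pderiv_evt (b : Module.Basis κ ℂ (κ → ℂ)) (Jt : Finset κ) (F : Ent κ) (i : {i // i ∈ Jt}) :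
    MvPowerSeries.pderiv ℂ i (evt Jt (TT b F)) = evt Jt (TT b (dE (b i) F)) := by
  unfold evt
  rw [Pool.Agent.Helper63.LT.pderiv_tay]
  have h1 : (re (psD κ) (Subtype.val : {i // i ∈ Jt} → κ)).D i (TT b F) = TT b (dE (b i) F) :=
    pderiv_TT b F i
  rw [h1]

theorem cc_evt (Jt : Finset κ) (f : MvPowerSeries κ ℂ) :
    constantCoeff (evt Jt f) = constantCoeff f := by
  have h := coeff_evt Jt f 0
  rwa [Finsupp.mapDomain_zero, coeff_zero_eq_constantCoeff_apply,
    coeff_zero_eq_constantCoeff_apply] at h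

open scoped Classical in
/-- PROOF. `lower_ps` for the type `{i // i ∈ Jt}`, with the preimages of `Ja`, `Jv` under `Subtype.val`,
`f' i = evt Jt (TT b (f i))`, `u η = evt Jt (TT b (u0 ^ (P - ∑ i ∈ Ja, η i) * rf 0 (u0 ^ (P + 1))))`,
`φ η = evt Jt (TT b (Φ (η.mapDomain Subtype.val)))`: `pderiv_evt`, `cc_evt`, `constantCoeff_TT`; the coefficient of `f' i` at
`single j 1` is `constantCoeff (pderiv j (f' i))`; `dE (b j) (u0 ^ m) = 0` and `dE (b j) (rf 0 (u0 ^ m)) = 0`
for `j ∈ Jv` by `hv` and `rf_dE`. The product `f' ^ η * u η * φ η` is `evt Jt (TT b (F * rf 0 (u0 ^ (P + 1))))` with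
`F = (∏ i ∈ Ja, f i ^ η i) * u0 ^ (P - ∑ i ∈ Ja, η i) * Φ η ∈ T (P + 1) Q` (`T_mul`, `u0_pow`, `T_mono`), and
`F * rf 0 (u0 ^ (P + 1)) = tr 0 F * rf 0 (u0 ^ (P + 1)) ∈ T' (2 * (P + 1)) Q` by `T_pair'`. The image is finite by
`T'_fin`. -/
theorem lower (b : Module.Basis κ ℂ (κ → ℂ)) (Ja Jv Jt : Finset κ) (hd : Disjoint Ja Jv)
    (hJt : ∀ i, i ∈ Jt ↔ i ∈ Ja ∨ i ∈ Jv) (f : κ → Ent κ) (hf : ∀ i ∈ Ja, f i ∈ X.T 1 0)
    (hf0 : ∀ i ∈ Ja, (f i : (κ → ℂ) → ℂ) 0 = 0)
    (hf1 : ∀ i ∈ Ja, ∀ j ∈ Ja, (dE (b j) (f i) : (κ → ℂ) → ℂ) 0 = if j = i then 1 else 0)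
    (hv : ∀ j ∈ Jv, ∀ F ∈ X.T 1 0, dE (b j) F = 0)
    (Φ : (κ →₀ ℕ) → Ent κ) (hΦ : ∀ α, Φ α ∈ X.T 1 (∑ j ∈ Jv, α j))
    (hΦ0 : ∀ α : κ →₀ ℕ, (∀ j ∈ Jv, α j = 0) → Φ α = X.u0)
    (hΦd : ∀ α, ∀ j ∈ Jv, dE (b j) (Φ α) = (-(α j : ℂ)) • Φ (α - Finsupp.single j 1))
    (P Q : ℕ) :
    P ^ Ja.card * Q ^ Jv.card ≤ (Fintype.card κ + 1) ^ Fintype.card κ *
      Module.finrank ℂ ((X.Z b (P + 1, Q)).map (evt Jt).toLinearMap) := by
  classical
  have haJ : ∀ i ∈ Ja, i ∈ Jt := fun i hi => (hJt i).2 (Or.inl hi)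
  have hvJ : ∀ i ∈ Jv, i ∈ Jt := fun i hi => (hJt i).2 (Or.inr hi)
  have hcard : ∀ s : Finset κ, (∀ i ∈ s, i ∈ Jt) → (s.subtype (fun i => i ∈ Jt)).card = s.card := by
    intro s hs
    rw [Finset.card_subtype, Finset.filter_true_of_mem hs]
  have hsum : ∀ (s : Finset κ) (g : κ → ℕ), (∀ i ∈ s, i ∈ Jt) →
      ∑ i ∈ s.subtype (fun i => i ∈ Jt), g i = ∑ i ∈ s, g i := by
    intro s g hs
    exact Finset.sum_subtype_of_mem g hs
  have hmd : ∀ (α : {i // i ∈ Jt} →₀ ℕ) (j : {i // i ∈ Jt}),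
      (α.mapDomain Subtype.val : κ →₀ ℕ) j = α j := fun α j =>
    Finsupp.mapDomain_apply Subtype.val_injective α j
  have hsub : ∀ (α : {i // i ∈ Jt} →₀ ℕ) (j : {i // i ∈ Jt}),
      ((α - Finsupp.single j 1).mapDomain Subtype.val : κ →₀ ℕ) =
        α.mapDomain Subtype.val - Finsupp.single (j : κ) 1 := by
    intro α j
    refine Finsupp.ext fun i => ?_
    by_cases hi : i ∈ Jt
    · have h1 := hmd (α - Finsupp.single j 1) ⟨i, hi⟩
      have h2 := hmd α ⟨i, hi⟩
      change (Finsupp.mapDomain Subtype.val (α - Finsupp.single j 1) : κ →₀ ℕ) i = _ at h1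
      change (Finsupp.mapDomain Subtype.val α : κ →₀ ℕ) i = _ at h2
      rw [h1, Finsupp.tsub_apply, Finsupp.tsub_apply, h2, Finsupp.single_apply,
        Finsupp.single_apply]
      congr 1
      by_cases hj : j = ⟨i, hi⟩
      · rw [if_pos hj, if_pos (by rw [hj])]
      · rw [if_neg hj, if_neg (fun h => hj (Subtype.ext h))]
    · have hr : i ∉ Set.range (Subtype.val : {i // i ∈ Jt} → κ) := by
        rintro ⟨k, rfl⟩
        exact hi k.2
      rw [Finsupp.tsub_apply, Finsupp.mapDomain_notin_range _ _ hr,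
        Finsupp.mapDomain_notin_range _ _ hr, Nat.zero_sub]
  have hdu : ∀ j ∈ Jv, dE (b j) X.u0 = 0 := fun j hj => hv j hj X.u0 X.hu
  have hdup : ∀ j ∈ Jv, ∀ m : ℕ, dE (b j) (X.u0 ^ m) = 0 := by
    intro j hj m
    rw [Derivation.leibniz_pow, hdu j hj, smul_zero, smul_zero]
  have hdrf : ∀ j ∈ Jv, ∀ m : ℕ, dE (b j) (rf 0 (X.u0 ^ m)) = 0 := by
    intro j hj m
    have h := Pool.Agent.Helper63.LT.rf_dE 0 (b j) (X.u0 ^ m)
    rw [hdup j hj m, map_zero] at h
    exact neg_eq_zero.1 h.symm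
  have hprod : ∀ (s : Finset κ) (η : κ → ℕ), (∀ i ∈ s, i ∈ Ja) →
      ∏ i ∈ s, f i ^ η i ∈ X.T (∑ i ∈ s, η i) 0 := by
    intro s η
    induction s using Finset.induction_on with
    | empty =>
      intro _
      rw [Finset.prod_empty, Finset.sum_empty]
      exact X.T_one
    | insert a s ha ih =>
      intro hs
      rw [Finset.prod_insert ha, Finset.sum_insert ha]
      have h1 : ∀ m : ℕ, f a ^ m ∈ X.T m 0 := by
        intro m
        induction m with
        | zero => rw [pow_zero]; exact X.T_one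
        | succ m ihm =>
          rw [pow_succ]
          exact X.T_mul ihm (hf a (hs a (Finset.mem_insert_self a s)))
      exact X.T_mul (h1 (η a)) (ih fun i hi => hs i (Finset.mem_insert_of_mem hi))
  have hpr : ∀ (s : Finset κ) (g : κ → Ent κ), (∀ i ∈ s, i ∈ Jt) →
      ∏ i ∈ s.subtype (fun i => i ∈ Jt), g i = ∏ i ∈ s, g i := by
    intro s g hs
    exact Finset.prod_subtype_of_mem g hs
  have hfin : Module.Finite ℂ ((X.Z b (P + 1, Q)).map (evt Jt).toLinearMap) := by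
    have := X.T'_fin (P + 1) Q
    unfold Z
    infer_instance
  have hval : ∀ (F : Ent κ), constantCoeff (evt Jt (TT b F)) = (F : (κ → ℂ) → ℂ) 0 := by
    intro F
    rw [cc_evt, constantCoeff_TT]
  have hpow0 : ∀ m : ℕ, ((X.u0 ^ m : Ent κ) : (κ → ℂ) → ℂ) 0 = ((X.u0 : (κ → ℂ) → ℂ) 0) ^ m :=
    fun m => rfl
  have key := lower_ps (κ := {i // i ∈ Jt}) (Ja.subtype (fun i => i ∈ Jt))
    (Jv.subtype (fun i => i ∈ Jt)) ?_ ?_
    (fun i => evt Jt (TT b (f i)))
    (fun η => evt Jt (TT b (X.u0 ^ (P - ∑ i ∈ Ja.subtype (fun i => i ∈ Jt), η i) *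
      rf 0 (X.u0 ^ (P + 1)))))
    (fun η => evt Jt (TT b (Φ (η.mapDomain Subtype.val)))) ?_ ?_ ?_ ?_ ?_ ?_ ?_
    (Fintype.card κ) P Q (Fintype.card_subtype_le _)
    ((X.Z b (P + 1, Q)).map (evt Jt).toLinearMap) ?_
  · rwa [hcard Ja haJ, hcard Jv hvJ] at key
  · rw [Finset.disjoint_left]
    intro i hi hi2
    rw [Finset.mem_subtype] at hi hi2
    exact (Finset.disjoint_left.1 hd) hi hi2
  · intro i
    rw [Finset.mem_subtype, Finset.mem_subtype]
    exact (hJt i).1 i.2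
  · intro i hi
    rw [Finset.mem_subtype] at hi
    rw [hval]
    exact hf0 i hi
  · intro i hi j hj
    rw [Finset.mem_subtype] at hi hj
    have h1 := MvPowerSeries.coeff_pderiv (i := j) (evt Jt (TT b (f i)))
      (0 : {i // i ∈ Jt} →₀ ℕ)
    rw [zero_add, Finsupp.zero_apply, Nat.cast_zero, zero_add, mul_one] at h1
    rw [← h1, coeff_zero_eq_constantCoeff_apply, pderiv_evt, hval, hf1 i hi j hj]
    by_cases hji : j = i
    · rw [if_pos hji, if_pos (by rw [hji])]
    · rw [if_neg hji, if_neg (fun h => hji (Subtype.ext h))]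
  · intro i hi j hj
    rw [Finset.mem_subtype] at hi hj
    rw [pderiv_evt, hv j hj _ (hf i hi), map_zero, map_zero]
  · intro η
    rw [hval]
    exact mul_ne_zero (pow_ne_zero _ X.hu0) (by
      change ((X.u0 : (κ → ℂ) → ℂ) (0 - 0)) ^ (P + 1) ≠ 0
      rw [sub_zero]
      exact pow_ne_zero _ X.hu0)
  · intro η j hj
    rw [Finset.mem_subtype] at hj
    rw [pderiv_evt, Derivation.leibniz, hdup j hj, hdrf j hj, smul_zero, smul_zero, add_zero,
      map_zero, map_zero]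
  · intro α hα
    rw [hval, hΦ0]
    · exact X.hu0
    · intro j hj
      have h1 := hmd α ⟨j, hvJ j hj⟩
      change (Finsupp.mapDomain Subtype.val α : κ →₀ ℕ) j = _ at h1
      rw [h1]
      exact hα _ (Finset.mem_subtype.2 hj)
  · intro α j hj
    rw [Finset.mem_subtype] at hj
    rw [pderiv_evt, hΦd _ j hj, hsub, hmd, map_smul, map_smul]
  · intro η hP hQ
    obtain ⟨m, hm⟩ : ∃ m : ℕ, m = P - ∑ i ∈ Ja.subtype (fun i => i ∈ Jt), η i := ⟨_, rfl⟩
    obtain ⟨ν, hν⟩ : ∃ ν : κ →₀ ℕ, ν = η.mapDomain Subtype.val := ⟨_, rfl⟩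
    have hηJ : ∑ i ∈ Ja.subtype (fun i => i ∈ Jt), η i = ∑ i ∈ Ja, ν i := by
      rw [← hsum Ja ν haJ]
      refine Finset.sum_congr rfl fun i _ => ?_
      rw [hν, hmd]
    have hηV : ∑ i ∈ Jv.subtype (fun i => i ∈ Jt), η i = ∑ i ∈ Jv, ν i := by
      rw [← hsum Jv ν hvJ]
      refine Finset.sum_congr rfl fun i _ => ?_
      rw [hν, hmd]
    have hF : (∏ i ∈ Ja, f i ^ ν i) * X.u0 ^ m * Φ ν ∈ X.T (P + 1) Q := by
      have h1 := X.T_mul (X.T_mul (hprod Ja ν fun i hi => hi) (X.u0_pow m)) (hΦ ν)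
      have h2 : ∑ i ∈ Ja, ν i + m = P := by omega
      rw [h2] at h1
      have h3 : 0 + 0 + ∑ j ∈ Jv, ν j ≤ Q := by omega
      exact X.T_mono _ h3 h1
    have hG := X.T_pair' hF (X.u0_pow (P + 1)) 0
    rw [add_zero] at hG
    refine ⟨_, ⟨_, hG, rfl⟩, ?_⟩
    have htr : ∀ F : Ent κ, tr 0 F = F := by
      intro F
      refine Subtype.ext (funext fun z => ?_)
      rw [Pool.Agent.Helper63.LT.tr_apply, zero_add]
    rw [htr]
    change evt Jt (TT b ((∏ i ∈ Ja, f i ^ ν i) * X.u0 ^ m * Φ ν * rf 0 (X.u0 ^ (P + 1)))) = _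
    have h5 : ∏ i ∈ Ja.subtype (fun i => i ∈ Jt), evt Jt (TT b (f i)) ^ η i =
        evt Jt (TT b (∏ i ∈ Ja, f i ^ ν i)) := by
      rw [← hpr Ja (fun i => f i ^ ν i) haJ, map_prod, map_prod]
      refine Finset.prod_congr rfl fun i _ => ?_
      rw [map_pow, map_pow, hν, hmd]
    rw [h5, ← hν, ← hm, ← map_mul, ← map_mul, ← map_mul, ← map_mul]
    congr 2
    ring

end LE

end

end Pool.Agent.Helper63.LU
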