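import Pool.Agent.Helper63.LU.Yf
import Pool.Agent.Helper63.LU.Yl
import Pool.Agent.Helper63.LT.Zm

/-!
PROJECT LU (LT2), block Z2. Part h: the core of the zero estimate, in abstract form.
-/

namespace Pool.Agent.Helper63.LU

open Finset MvPowerSeries
open Pool.Agent.Helper63.LT (CD Filt tay fct coeff_tay constantCoeff_tay map_tay tay_nat nst minp sel Ent dE dE_add
  dE_smul dE_comm cE evE tr rf tr_apply rf_apply rf_dE TT TT_inj constantCoeff_TT pderiv_TT HH map_HH HH_apply psD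
  psD_pw ev_basis IJ IJ_mono mem_IJ adapted van_coeff)

noncomputable section

/-! Piece Yh-1: an adapted basis -/

/-- PROOF. `exists_linearIndependent_extension` (or complements): a basis `s1` of `H ⊓ V0`, extended to a basis `s2` of `H`,
extended inside `H ∪ W` to a basis `s3` of `H ⊔ W` (the vectors of `s3 \ s2` are in `W`, since `s2` spans `H`), extended to a basis
`s4` of the space; `card s4 = card κ`, so `s4` is indexed by `κ`. `Jv` = indices of `s1`, `Ja` = `s2 \ s1`, `J` = `s3 \ s2`.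
A combination of `s2 \ s1` in `V0` is in `H ⊓ V0`, the span of `s1`, so it is `0`.
`finrank (H ⊔ W) + finrank (W ⊓ H) = finrank H + finrank W`. -/
theorem adapted2 {κ : Type} [Fintype κ] (H V0 W : Submodule ℂ (κ → ℂ)) :
    ∃ (b : Module.Basis κ ℂ (κ → ℂ)) (Ja Jv Jt : Finset κ) (J : Finset (Out Jt)),
      Disjoint Ja Jv ∧ (∀ i, i ∈ Jt ↔ i ∈ Ja ∨ i ∈ Jv) ∧
      (∀ v, v ∈ H ↔ ∀ i, i ∉ Jt → b.repr v i = 0) ∧ (∀ j ∈ Jv, b j ∈ V0) ∧
      (∀ c : κ → ℂ, (∀ i, i ∉ Ja → c i = 0) → ∑ i, c i • b i ∈ V0 → c = 0) ∧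
      (∀ j ∈ J, b (vo Jt j) ∈ W) ∧ Jv.card = Module.finrank ℂ (H ⊓ V0 : Submodule ℂ (κ → ℂ)) ∧
      J.card + Module.finrank ℂ (W ⊓ H : Submodule ℂ (κ → ℂ)) = Module.finrank ℂ W := by
  classical
  obtain ⟨s1, hs1, -, ht1, hl1⟩ := exists_linearIndepOn_id_extension
    (linearIndepOn_empty ℂ (id : (κ → ℂ) → (κ → ℂ)))
    (Set.empty_subset ((H ⊓ V0 : Submodule ℂ (κ → ℂ)) : Set (κ → ℂ)))
  have hs1H : s1 ⊆ (H : Set (κ → ℂ)) := fun x hx => (Submodule.mem_inf.mp (hs1 hx)).1
  obtain ⟨s2, hs2, h12, ht2, hl2⟩ := exists_linearIndepOn_id_extension hl1 hs1H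
  obtain ⟨s3, hs3, h23, ht3, hl3⟩ := exists_linearIndepOn_id_extension hl2
    (hs2.trans (Set.subset_union_left (t := (W : Set (κ → ℂ)))))
  obtain ⟨s4, -, h34, ht4, hl4⟩ := exists_linearIndepOn_id_extension hl3 (Set.subset_univ s3)
  have hsp4 : ⊤ ≤ Submodule.span ℂ (Set.range (fun x : s4 => (x : κ → ℂ))) := by
    rw [Subtype.range_coe]
    intro x _
    exact ht4 (Set.mem_univ x)
  let b4 : Module.Basis s4 ℂ (κ → ℂ) := Module.Basis.mk hl4 hsp4
  have hb4 : ∀ x : s4, b4 x = x := fun x => Module.Basis.mk_apply hl4 hsp4 x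
  let σ := b4.indexEquiv (Pi.basisFun ℂ κ)
  let b := b4.reindex σ
  have hb : ∀ i, b i ∈ s4 := by
    intro i
    change (b4.reindex σ) i ∈ s4
    rw [Module.Basis.reindex_apply, hb4]
    exact (σ.symm i).2
  have hbs : ∀ x ∈ s4, ∃ i, b i = x := by
    intro x hx
    refine ⟨σ ⟨x, hx⟩, ?_⟩
    change (b4.reindex σ) (σ ⟨x, hx⟩) = x
    rw [Module.Basis.reindex_apply, hb4, Equiv.symm_apply_apply]
  clear_value b
  have him : ∀ s ⊆ s4, b '' {i | b i ∈ s} = s := by
    intro s hs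
    ext x
    constructor
    · rintro ⟨i, hi, rfl⟩
      exact hi
    · intro hx
      obtain ⟨i, rfl⟩ := hbs x (hs hx)
      exact ⟨i, hx, rfl⟩
  have hspan : ∀ s ⊆ s4, ∀ v, v ∈ Submodule.span ℂ s ↔ ∀ i, b i ∉ s → b.repr v i = 0 := by
    intro s hs v
    have h := b.mem_span_image (m := v) (s := {i | b i ∈ s})
    rw [him s hs] at h
    rw [h]
    constructor
    · intro h1 i hi
      by_contra h2
      exact hi (h1 (Finsupp.mem_support_iff.mpr h2))
    · intro h1 i hi
      by_contra h2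
      exact (Finsupp.mem_support_iff.mp hi) (h1 i h2)
  have hcard : ∀ s ⊆ s4, (Finset.univ.filter fun i => b i ∈ s).card =
      Module.finrank ℂ (Submodule.span ℂ s) := by
    intro s hs
    have h1 : LinearIndependent ℂ (fun i : {i // b i ∈ s} => b i) :=
      b.linearIndependent.comp Subtype.val Subtype.val_injective
    have h2 := finrank_span_eq_card h1
    have h3 : Set.range (fun i : {i // b i ∈ s} => b i) = s := by
      ext x
      constructor
      · rintro ⟨i, rfl⟩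
        exact i.2
      · intro hx
        obtain ⟨i, rfl⟩ := hbs x (hs hx)
        exact ⟨⟨i, hx⟩, rfl⟩
    rw [h3] at h2
    rw [h2, Fintype.card_subtype]
  have h24 : s2 ⊆ s4 := h23.trans h34
  have h14 : s1 ⊆ s4 := h12.trans h24
  have e1 : Submodule.span ℂ s1 = H ⊓ V0 := le_antisymm (Submodule.span_le.mpr hs1) ht1
  have e2 : Submodule.span ℂ s2 = H := le_antisymm (Submodule.span_le.mpr hs2) ht2
  have e3 : Submodule.span ℂ s3 = H ⊔ W := by
    apply le_antisymm
    · rw [Submodule.span_le]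
      intro x hx
      rcases hs3 hx with h | h
      · exact Submodule.mem_sup_left h
      · exact Submodule.mem_sup_right h
    · refine sup_le (fun x hx => ht3 (Or.inl hx)) (fun x hx => ht3 (Or.inr hx))
  have hH : ∀ v, v ∈ H ↔ ∀ i, b i ∉ s2 → b.repr v i = 0 := by
    intro v
    rw [← hspan s2 h24 v, e2]
  refine ⟨b, Finset.univ.filter fun i => b i ∈ s2 ∧ b i ∉ s1, Finset.univ.filter fun i => b i ∈ s1,
    Finset.univ.filter fun i => b i ∈ s2, Finset.univ.filter fun j => b (vo _ j) ∈ s3,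
    ?_, ?_, ?_, ?_, ?_, ?_, ?_, ?_⟩
  · rw [Finset.disjoint_left]
    intro i hi hi'
    exact (Finset.mem_filter.mp hi).2.2 (Finset.mem_filter.mp hi').2
  · intro i
    simp only [Finset.mem_filter, Finset.mem_univ, true_and]
    constructor
    · intro h
      by_cases h' : b i ∈ s1
      · exact Or.inr h'
      · exact Or.inl ⟨h, h'⟩
    · rintro (h | h)
      · exact h.1
      · exact h12 h
  · intro v
    rw [hH v]
    simp only [Finset.mem_filter, Finset.mem_univ, true_and]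
  · intro j hj
    exact (Submodule.mem_inf.mp (hs1 (Finset.mem_filter.mp hj).2)).2
  · intro c hc hv
    have h1 : ∑ i, c i • b i ∈ H := by
      refine Submodule.sum_mem _ fun i _ => ?_
      by_cases hi : i ∈ Finset.univ.filter fun i => b i ∈ s2 ∧ b i ∉ s1
      · exact Submodule.smul_mem _ _ (hs2 (Finset.mem_filter.mp hi).2.1)
      · rw [hc i hi, zero_smul]
        exact Submodule.zero_mem _
    have h2 : ∑ i, c i • b i ∈ Submodule.span ℂ s1 := by
      rw [e1]
      exact ⟨h1, hv⟩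
    rw [hspan s1 h14] at h2
    funext i
    by_cases hi : i ∈ Finset.univ.filter fun i => b i ∈ s2 ∧ b i ∉ s1
    · have h3 := h2 i (Finset.mem_filter.mp hi).2.2
      rw [Module.Basis.repr_sum_self] at h3
      exact h3
    · exact hc i hi
  · intro j hj
    have h1 : b (vo _ j) ∉ s2 := fun h => vo_notMem _ j (Finset.mem_filter.mpr ⟨Finset.mem_univ _, h⟩)
    rcases hs3 (Finset.mem_filter.mp hj).2 with h | h
    · exfalso
      have h2 := (hH _).mp h _ h1
      rw [Module.Basis.repr_self, Finsupp.single_eq_same] at h2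
      exact one_ne_zero h2
    · exact h
  · rw [hcard s1 h14, e1]
  · have h1 := hcard s2 h24
    have h2 := hcard s3 h34
    rw [e2] at h1
    rw [e3] at h2
    have h3 := Submodule.finrank_sup_add_finrank_inf_eq H W
    rw [inf_comm H W] at h3
    have h4 : (Finset.univ.filter fun j : Out (Finset.univ.filter fun i => b i ∈ s2) =>
        b (vo _ j) ∈ s3).card + (Finset.univ.filter fun i => b i ∈ s2).card =
        (Finset.univ.filter fun i => b i ∈ s3).card := by
      rw [← Finset.card_map ⟨vo _, vo_inj (Finset.univ.filter fun i => b i ∈ s2)⟩,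
        ← Finset.card_union_of_disjoint]
      · congr 1
        ext i
        simp only [Finset.mem_union, Finset.mem_map, Finset.mem_filter, Finset.mem_univ, true_and,
          Function.Embedding.coeFn_mk]
        constructor
        · rintro (⟨j, hj, rfl⟩ | h)
          · exact hj
          · exact h23 h
        · intro h
          by_cases h' : b i ∈ s2
          · exact Or.inr h'
          · exact Or.inl ⟨⟨i, fun hh => h' (Finset.mem_filter.mp hh).2⟩, h, rfl⟩
      · rw [Finset.disjoint_left]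
        intro i hi hi'
        obtain ⟨j, -, rfl⟩ := Finset.mem_map.mp hi
        exact vo_notMem _ j hi'
    omega

/-! Piece Yh-2: arithmetic -/

/-- PROOF. `C ≥ 1` as the left side of `h` is at least `1`. If `T ≤ L`: clear. If `L < T`:
`T * L ^ (n - 1) ≤ T * L ^ (w - 1 + hv) ≤ T ^ w * L ^ hv ≤ C * (k ^ n * L ^ n)`; divide by `L ^ (n - 1)`. -/
theorem arith (C k L T n w ha hv : ℕ) (hk : 1 ≤ k) (hL : 1 ≤ L) (hT : 1 ≤ T) (hn : 1 ≤ n) (hw : 1 ≤ w)
    (hs : n ≤ w + hv) (h : k ^ ha * L ^ hv * T ^ w ≤ C * (k ^ n * L ^ n)) :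
    T ≤ C * k ^ n * L := by
  have hka : 1 ≤ k ^ ha := Nat.one_le_pow _ _ hk
  have hkn : 1 ≤ k ^ n := Nat.one_le_pow _ _ hk
  have hLv : 1 ≤ L ^ hv := Nat.one_le_pow _ _ hL
  have hTw : 1 ≤ T ^ w := Nat.one_le_pow _ _ hT
  have hC : 1 ≤ C := by
    rcases Nat.eq_zero_or_pos C with h0 | h0
    · rw [h0, zero_mul] at h
      have h1 : 1 ≤ k ^ ha * L ^ hv * T ^ w := Nat.mul_pos (Nat.mul_pos hka hLv) hTw
      omega
    · exact h0
  rcases Nat.lt_or_ge L T with hLT | hLT
  · have hp : 0 < L ^ (n - 1) := Nat.pow_pos hL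
    refine Nat.le_of_mul_le_mul_right ?_ hp
    calc T * L ^ (n - 1) ≤ T * L ^ (w - 1 + hv) :=
          Nat.mul_le_mul_left _ (Nat.pow_le_pow_right hL (by omega))
      _ = T * (L ^ (w - 1) * L ^ hv) := by rw [pow_add]
      _ ≤ T * (T ^ (w - 1) * L ^ hv) :=
          Nat.mul_le_mul_left _ (Nat.mul_le_mul_right _ (Nat.pow_le_pow_left hLT.le _))
      _ = 1 * L ^ hv * T ^ w := by
          obtain ⟨w', rfl⟩ : ∃ w', w = w' + 1 := ⟨w - 1, by omega⟩
          rw [Nat.add_sub_cancel, pow_succ]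
          ring
      _ ≤ k ^ ha * L ^ hv * T ^ w := Nat.mul_le_mul_right _ (Nat.mul_le_mul_right _ hka)
      _ ≤ C * (k ^ n * L ^ n) := h
      _ = C * k ^ n * L * L ^ (n - 1) := by
          obtain ⟨n', rfl⟩ : ∃ n', n = n' + 1 := ⟨n - 1, by omega⟩
          rw [Nat.add_sub_cancel]
          ring
  · calc T ≤ L := hLT
      _ = 1 * L := (one_mul _).symm
      _ ≤ C * k ^ n * L := Nat.mul_le_mul_right _ (Nat.mul_pos hC hkn)

namespace LE

variable {κ : Type} [Fintype κ] (X : LE κ)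

/-! Piece Yh-3: vanishing -/

private theorem Yh3_le {ι : Type} {β β' α : ι →₀ ℕ} (h : β + β' = α) (i : ι) : β i ≤ α i := by
  rw [← h, Finsupp.add_apply]
  exact Nat.le_add_right _ _

private theorem Yh3_deg {ι : Type} {β β' α : ι →₀ ℕ} (h : β + β' = α) :
    β.degree ≤ α.degree := by
  rw [← h, map_add]
  exact Nat.le_add_right _ _

private theorem Yh3_ind {ι : Type} {P : (ι →₀ ℕ) → Prop} (h0 : P 0)
    (h1 : ∀ α i, P α → P (α + Finsupp.single i 1)) (α : ι →₀ ℕ) : P α := by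
  have key : ∀ β, P β → P (β + α) := by
    induction α using Finsupp.induction_linear with
    | zero =>
      intro β hβ
      rwa [add_zero]
    | add f g hf hg =>
      intro β hβ
      rw [← add_assoc]
      exact hg _ (hf _ hβ)
    | single i n =>
      intro β hβ
      induction n with
      | zero =>
        rw [Finsupp.single_zero, add_zero]
        exact hβ
      | succ n ih =>
        rw [Finsupp.single_add, ← add_assoc]
        exact h1 _ _ ih
  have h2 := key 0 h0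
  rwa [zero_add] at h2

/-- PROOF. Let `ψ = (ccA κ).comp X.SS.val : X.SS →ₐ[ℂ] ℂ`. As in `Ye5_tay` of Ye.lean, `tay (dB b) ψ x = tay (pB b) (ccA κ) x.val`
(`tay_nat` with `θ = X.SS.val`), and `tay (pB b) (ccA κ) (TT X.b0 F) = TT b F` (`tay_nat` with `θ = TT X.b0`, `pv_TT`,
`(ccA κ).comp (TT X.b0) = evE 0`). So `tay (dB b) ψ (el F) = TT b F * V ^ k`, `V = tay (pB b) (ccA κ) X.iu`. The coefficient at
`α` is a sum over the antidiagonal of `α` of multiples of `coeff β (TT b F) = (fct β)⁻¹ • evE 0 ((cE b).pw β F) = 0`, `β ≤ α`;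
`coeff_tay` and `fct_ne` (compare `LD.van_el` in Helper63/LT/Zm.lean). -/
theorem cc_pw (b : Module.Basis κ ℂ (κ → ℂ)) (J : Finset κ) (N k L : ℕ) (F : Ent κ) (hF : F ∈ X.T k L)
    (h : ∀ α : κ →₀ ℕ, (∀ i, i ∉ J → α i = 0) → α.degree ≤ N → evE 0 ((cE b).pw α F) = 0)
    (α : κ →₀ ℕ) (hα : ∀ i, i ∉ J → α i = 0) (hN : α.degree ≤ N) :
    constantCoeff (((X.dB b).pw α (X.el k L F hF) : X.SS) : MvPowerSeries κ ℂ) = 0 := by
  classical
  have e1 : tay (X.dB b) ((ccA κ).comp X.SS.val) (X.el k L F hF) =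
      tay (X.pB b) (ccA κ) (X.fr k F) :=
    (tay_nat (X.dB b) (X.pB b) X.SS.val (fun _ _ => rfl) (ccA κ) (X.el k L F hF)).symm
  have e2 : tay (X.pB b) (ccA κ) (TT X.b0 F) = TT b F := by
    have h1 := tay_nat (cE b) (X.pB b) (TT X.b0) (fun i x => (X.pv_TT (b i) x).symm) (ccA κ) F
    have h2 : (ccA κ).comp (TT X.b0) = evE 0 := by
      refine AlgHom.ext fun G => ?_
      rw [AlgHom.comp_apply, ccA_apply, constantCoeff_TT]
      rfl
    rw [h2] at h1
    exact h1
  have e3 : coeff α (tay (X.dB b) ((ccA κ).comp X.SS.val) (X.el k L F hF)) = 0 := by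
    rw [e1, fr_apply, map_mul (tay (X.pB b) (ccA κ)), e2, coeff_mul]
    refine Finset.sum_eq_zero fun q hq => ?_
    have hq' : q.1 + q.2 = α := Finset.HasAntidiagonal.mem_antidiagonal.1 hq
    have h1 : coeff q.1 (TT b F) = 0 := by
      change coeff q.1 (tay (cE b) (evE 0) F) = 0
      rw [coeff_tay, h q.1 (fun i hi => ?_) ((Yh3_deg hq').trans hN), smul_zero]
      have h2 := Yh3_le hq' i
      rw [hα i hi] at h2
      exact Nat.le_zero.1 h2
    rw [h1, zero_mul]
  rw [coeff_tay] at e3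
  exact (smul_eq_zero.1 e3).resolve_left (inv_ne_zero (Pool.Agent.Helper63.LT.fct_ne α))

/-- PROOF. If `X.hh p = ⊤` then `p` is stable under all `(dB b0).pw α`, so with `ψ` as above all coefficients of
`tay (dB b0) ψ f = tay (pB b0) (ccA κ) f.val` vanish; `pB b0 = psD κ` (`X.b0.repr (X.b0 i) = single i 1`), and
`coeff α (tay (psD κ) (ccA κ) g) = coeff α g` (`psD_pw`), so `f = 0`. -/
theorem hh_ne_top (p : Ideal X.SS) (hp0 : ∀ x ∈ p, constantCoeff (x : MvPowerSeries κ ℂ) = 0)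
    (f : X.SS) (hf : f ∈ p) (hf0 : f ≠ 0) : X.hh p ≠ ⊤ := by
  intro htop
  have h1 : ∀ α : κ →₀ ℕ, (X.dB X.b0).pw α f ∈ p := by
    intro α
    induction α using Yh3_ind with
    | h0 =>
      rw [CD.pw_zero]
      exact hf
    | h1 α i ih =>
      rw [CD.pw_succ, dB_D]
      have h2 : X.b0 i ∈ X.hh p := by
        rw [htop]
        trivial
      exact (X.mem_hh p).1 h2 _ ih
  have h2 : ∀ i (x : X.SS), X.SS.val ((X.dB X.b0).D i x) = (psD κ).D i (X.SS.val x) := by
    classical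
    intro i x
    change X.pv (X.b0 i) (x : MvPowerSeries κ ℂ) = (psD κ).D i (x : MvPowerSeries κ ℂ)
    unfold pv
    rw [dir_apply, Finset.sum_eq_single i]
    · rw [X.b0.repr_self, Finsupp.single_eq_same, one_smul]
    · intro j _ hj
      rw [X.b0.repr_self, Finsupp.single_eq_of_ne hj, zero_smul]
    · intro h
      exact absurd (Finset.mem_univ _) h
  apply hf0
  refine Subtype.ext (MvPowerSeries.ext fun α => ?_)
  have h3 := hp0 _ (h1 α)
  have h4 : (((X.dB X.b0).pw α f : X.SS) : MvPowerSeries κ ℂ) =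
      (psD κ).pw α (f : MvPowerSeries κ ℂ) := CD.pw_nat (X.dB X.b0) (psD κ) X.SS.val h2 α f
  rw [h4, psD_pw] at h3
  rw [(mul_eq_zero.1 h3).resolve_left (Pool.Agent.Helper63.LT.fct_ne α)]
  exact (map_zero (coeff α)).symm

/-! Piece Yh-4: derivatives in the directions of `W` -/

private theorem Yh4_ind {ι : Type} {P : (ι →₀ ℕ) → Prop} (h0 : P 0)
    (h1 : ∀ α i, P α → P (α + Finsupp.single i 1)) (α : ι →₀ ℕ) : P α := by
  have key : ∀ β, P β → P (β + α) := by
    induction α using Finsupp.induction_linear with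
    | zero =>
      intro β hβ
      rwa [add_zero]
    | add f g hf hg =>
      intro β hβ
      rw [← add_assoc]
      exact hg _ (hf _ hβ)
    | single i b =>
      induction b with
      | zero =>
        intro β hβ
        rwa [Finsupp.single_zero, add_zero]
      | succ b ih =>
        intro β hβ
        rw [Finsupp.single_add, ← add_assoc]
        exact h1 _ i (ih β hβ)
  have h2 := key 0 h0
  rwa [zero_add] at h2

/-- PROOF. `wt J T β < T` implies `β i = 0` for `i ∉ J` and `β.degree < T` (`wt` is a sum of terms `β i` or `T * β i`). Then by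
induction on the degree of `β` (supported in `J`): `pw (mapDomain β) x ∈ IJ (dB b1) J1 f (M + β.degree)`: `CD.pw_succ`,
`(X.dB b).D (vo Jt j) = X.dv (b (vo Jt j)) = (X.dB b1).dir (fun i => b1.repr (b (vo Jt j)) i)` (`dB_dir`, `b1.sum_repr`) and
`IJ_dir`; then `IJ_mono`. -/
theorem pw_W (b1 b : Module.Basis κ ℂ (κ → ℂ)) (J1 Jt : Finset κ) (J : Finset (Out Jt)) (f : X.SS)
    (M T : ℕ) (hJ : ∀ j ∈ J, ∀ i, i ∉ J1 → b1.repr (b (vo Jt j)) i = 0) (x : X.SS)
    (hx : x ∈ IJ (X.dB b1) J1 f M) (β : Out Jt →₀ ℕ) (hβ : wt J T β < T) :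
    (X.dB b).pw (β.mapDomain (vo Jt)) x ∈ IJ (X.dB b1) J1 f (M + T) := by
  classical
  have hle : ∀ i, (if i ∈ J then 1 else T) * β i ≤ wt J T β := fun i =>
    Finset.single_le_sum (f := fun i => (if i ∈ J then 1 else T) * β i)
      (fun _ _ => Nat.zero_le _) (Finset.mem_univ i)
  have h0 : ∀ i, i ∉ J → β i = 0 := by
    intro i hi
    by_contra hne
    have h2 := hle i
    rw [if_neg hi] at h2
    have h3 : T ≤ T * β i := Nat.le_mul_of_pos_right T (Nat.pos_of_ne_zero hne)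
    omega
  have hdeg : β.degree ≤ T := by
    have h2 : β.degree ≤ wt J T β := by
      rw [Finsupp.degree_eq_sum]
      unfold wt
      refine Finset.sum_le_sum fun i _ => ?_
      by_cases hi : i ∈ J
      · rw [if_pos hi, one_mul]
      · rw [h0 i hi]
        exact Nat.zero_le _
    omega
  have key : ∀ β : Out Jt →₀ ℕ, (∀ i, i ∉ J → β i = 0) →
      (X.dB b).pw (β.mapDomain (vo Jt)) x ∈ IJ (X.dB b1) J1 f (M + β.degree) := by
    intro β
    induction β using Yh4_ind with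
    | h0 =>
      intro _
      rw [Finsupp.mapDomain_zero, CD.pw_zero, map_zero, add_zero]
      exact hx
    | h1 β j ih =>
      intro hβ
      have hj : j ∈ J := by
        by_contra hj
        have := hβ j hj
        rw [Finsupp.add_apply, Finsupp.single_eq_same] at this
        omega
      have h3 := ih (fun i hi => by
        have := hβ i hi
        rw [Finsupp.add_apply] at this
        omega)
      rw [Finsupp.mapDomain_add, Finsupp.mapDomain_single, CD.pw_succ, map_add,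
        Finsupp.degree_single, ← add_assoc]
      have h4 : (X.dB b).D (vo Jt j) ((X.dB b).pw (β.mapDomain (vo Jt)) x) =
          (X.dB b1).dir (fun i => b1.repr (b (vo Jt j)) i)
            ((X.dB b).pw (β.mapDomain (vo Jt)) x) := by
        rw [X.dB_dir, b1.sum_repr, dB_D]
      rw [h4]
      exact IJ_dir (X.dB b1) J1 f _ _ (hJ j hj) _ h3
  exact IJ_mono (X.dB b1) J1 f (Nat.add_le_add_left hdeg M) (key β h0)

/-! Piece Yh-5: the core -/

/-- The directions in `V0` are vertical. -/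
structure Low (V0 : Submodule ℂ (κ → ℂ)) : Prop where
  vert : ∀ v ∈ V0, ∀ F ∈ X.T 1 0, dE v F = 0
  base : ∀ (b : Module.Basis κ ℂ (κ → ℂ)) (Ja : Finset κ),
    (∀ c : κ → ℂ, (∀ i, i ∉ Ja → c i = 0) → ∑ i, c i • b i ∈ V0 → c = 0) →
    ∃ f : κ → Ent κ, (∀ i ∈ Ja, f i ∈ X.T 1 0) ∧ (∀ i ∈ Ja, (f i : (κ → ℂ) → ℂ) 0 = 0) ∧
      ∀ i ∈ Ja, ∀ j ∈ Ja, (∀ _ : j = i, (dE (b j) (f i) : (κ → ℂ) → ℂ) 0 = 1) ∧
        (∀ _ : j ≠ i, (dE (b j) (f i) : (κ → ℂ) → ℂ) 0 = 0)
  fib : ∀ (b : Module.Basis κ ℂ (κ → ℂ)) (Jv : Finset κ), (∀ j ∈ Jv, b j ∈ V0) →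
    ∃ Φ : (κ →₀ ℕ) → Ent κ, (∀ α, Φ α ∈ X.T 1 (∑ j ∈ Jv, α j)) ∧
      (∀ α : κ →₀ ℕ, (∀ j ∈ Jv, α j = 0) → Φ α = X.u0) ∧
      ∀ α, ∀ j ∈ Jv, dE (b j) (Φ α) = (-(α j : ℂ)) • Φ (α - Finsupp.single j 1)

theorem finrank_Z_le (b : Module.Basis κ ℂ (κ → ℂ)) (m : ℕ × ℕ) :
    Module.finrank ℂ (X.Z b m) ≤ Module.finrank ℂ (X.T' (2 * m.1) m.2) := by
  have := X.T'_fin m.1 m.2
  exact Submodule.finrank_map_le _ _

/-- The core. -/
theorem core (V0 : Submodule ℂ (κ → ℂ)) (hlow : X.Low V0) (n C0 : ℕ) (hn : Fintype.card κ = n + n)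
    (hC0 : ∀ k L, Module.finrank ℂ (X.T' (2 * k) L) ≤ C0 * ((k + 1) ^ n * (L + 1) ^ n))
    (W : Submodule ℂ (κ → ℂ))
    (hW : ∀ p : Ideal X.SS, p.IsPrime → (∀ x ∈ p, constantCoeff (x : MvPowerSeries κ ℂ) = 0) →
      X.hh p ≠ ⊤ → ¬ W ≤ X.hh p ∧
      n + Module.finrank ℂ (W ⊓ X.hh p : Submodule ℂ (κ → ℂ)) ≤
        Module.finrank ℂ W + Module.finrank ℂ (X.hh p ⊓ V0 : Submodule ℂ (κ → ℂ)))
    (k L : ℕ) (hk : 1 ≤ k) (hL : 1 ≤ L) (F : Ent κ) (hF : F ∈ X.T k L) (hF0 : F ≠ 0) (T : ℕ)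
    (hT : 1 ≤ T)
    (hvan : ∀ v ∈ W, ∀ j ≤ 2 * n * T, ((dE v)^[j] F : (κ → ℂ) → ℂ) 0 = 0) :
    T ≤ (Fintype.card κ + 1) ^ Fintype.card κ * C0 * (2 * Fintype.card κ + 1) ^ (n + n) * k ^ n * L := by
  classical
  -- the adapted basis of `W` and the ideals
  obtain ⟨b1, J1, hJ1c, hJ1⟩ := adapted W
  set f : X.SS := X.el k L F hF with hf
  have hf0 : f ≠ 0 := by
    intro h
    apply hF0
    apply X.fr_inj k
    have h1 : X.fr k F = ((0 : X.SS) : MvPowerSeries κ ℂ) :=
      congrArg (fun x : X.SS => (x : MvPowerSeries κ ℂ)) h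
    rw [map_zero]
    exact h1
  let q : Ideal X.SS := RingHom.ker (((constantCoeff : MvPowerSeries κ ℂ →+* ℂ)).comp
    (X.SS.val : X.SS →+* MvPowerSeries κ ℂ))
  have hq : q.IsPrime := RingHom.ker_isPrime _
  have hqm : ∀ x : X.SS, x ∈ q ↔ constantCoeff (x : MvPowerSeries κ ℂ) = 0 := fun x => Iff.rfl
  have hv1 : ∀ α : κ →₀ ℕ, (∀ i, i ∉ J1 → α i = 0) → α.degree ≤ 2 * n * T →
      evE 0 ((cE b1).pw α F) = 0 := by
    refine van_coeff b1 J1 F (2 * n * T) fun t ht j hj => hvan _ ?_ j hj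
    rw [hJ1]
    intro i hi
    have h1 : b1.repr (∑ i, t i • b1 i) i = t i := by
      rw [← b1.equivFun_apply, ← b1.equivFun_symm_apply, LinearEquiv.apply_symm_apply]
    rw [h1]
    exact ht i hi
  have hIm : IJ (X.dB b1) J1 f (Fintype.card κ * T) ≤ q := by
    refine Ideal.span_le.2 ?_
    rintro x ⟨τ, h1, h2, rfl⟩
    refine (hqm _).2 (X.cc_pw b1 J1 (2 * n * T) k L F hF hv1 τ h1 (h2.trans ?_))
    rw [hn, two_mul]
  have hI0 : IJ (X.dB b1) J1 f (0 * T) ≠ ⊥ := by
    intro h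
    apply hf0
    have h1 := mem_IJ (X.dB b1) J1 f (N := 0 * T) 0 (fun _ _ => rfl) (by simp)
    rw [h, CD.pw_zero] at h1
    simpa using h1
  obtain ⟨r, hr, p, hpm, hpI, hpq⟩ := sel X.filt
    (fun r => IJ (X.dB b1) J1 f (r * T))
    (fun a b hab => IJ_mono (X.dB b1) J1 f (Nat.mul_le_mul_right T hab)) hI0 q hq hIm
  have hpp : p.IsPrime := hpm.1.1
  have hp0 : ∀ x ∈ p, constantCoeff (x : MvPowerSeries κ ℂ) = 0 := fun x hx => (hqm x).1 (hpq hx)
  have hfp : f ∈ p := by
    have h1 := mem_IJ (X.dB b1) J1 f (N := (r + 1) * T) 0 (fun _ _ => rfl) (by simp)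
    rw [CD.pw_zero] at h1
    exact hpI h1
  have htop := X.hh_ne_top p hp0 f hfp hf0
  obtain ⟨hW1, hW2⟩ := hW p hpp hp0 htop
  -- the basis adapted to `hh p`
  obtain ⟨b, Ja, Jv, Jt, J, hd, hJt, hH, hJv, hJa, hJW, hcv, hcJ⟩ := adapted2 (X.hh p) V0 W
  obtain ⟨D, hDd, hDG, hDZ⟩ := X.exists_BData b
  obtain ⟨D1, hD1d, hD1G, hD1Z⟩ := X.exists_BData b1
  obtain ⟨s0, hs0, hs0G⟩ := IJ_gen2 D1 J1 k L f (by rw [hD1G]; exact X.el_mem_G k L F hF) (r * T)
  rw [hD1d] at hs0
  rw [hD1G] at hs0G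
  have hst : ∀ i ∈ Jt, ∀ x ∈ p, D.d.D i x ∈ p := by
    intro i hi x hx
    rw [hDd, dB_D]
    have h1 : b i ∈ X.hh p := by
      rw [hH]
      intro j hj
      rw [b.repr_self, Finsupp.single_apply, if_neg]
      rintro rfl
      exact hj hi
    exact h1 x hx
  have hnd : ∀ c : Out Jt → ℂ, c ≠ 0 → ∃ x ∈ p, (re D.d (vo Jt)).dir c x ∉ p := by
    intro c hc
    by_contra hcon
    have hcon' : ∀ x ∈ p, (re D.d (vo Jt)).dir c x ∈ p := fun x hx => by
      by_contra h
      exact hcon ⟨x, hx, h⟩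
    apply hc
    have h1 : (∑ j, c j • b (vo Jt j)) ∈ X.hh p := by
      intro x hx
      have h2 := hcon' x hx
      rw [dir_apply] at h2
      have h3 : X.dv (∑ j, c j • b (vo Jt j)) x = ∑ j, c j • (re D.d (vo Jt)).D j x := by
        let c' : κ → ℂ := fun i => if h : i ∉ Jt then c ⟨i, h⟩ else 0
        have e1 : ∀ j : Out Jt, c' (vo Jt j) = c j := fun j => dif_pos j.2
        have e0 : ∀ i, i ∉ Set.range (vo Jt) → c' i = 0 := by
          intro i hi
          refine dif_neg fun h => hi ?_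
          exact ⟨⟨i, h⟩, rfl⟩
        have e2 : (∑ j, c j • b (vo Jt j)) = ∑ i, c' i • b i := by
          refine Fintype.sum_of_injective (vo Jt) (vo_inj Jt) _ _ ?_ ?_
          · intro i hi
            rw [e0 i hi, zero_smul]
          · intro j
            rw [e1]
        rw [e2, ← X.dB_dir b c' x, dir_apply]
        symm
        refine Fintype.sum_of_injective (vo Jt) (vo_inj Jt) _ _ ?_ ?_
        · intro i hi
          rw [e0 i hi, zero_smul]
        · intro j
          rw [e1, re_D, hDd]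
      rw [h3]
      exact h2
    rw [hH] at h1
    funext j
    have h2 := h1 (vo Jt j) (vo_notMem Jt j)
    rw [map_sum, Finsupp.finset_sum_apply] at h2
    rw [Finset.sum_eq_single j] at h2
    · rw [map_smul, b.repr_self, Finsupp.smul_apply, Finsupp.single_eq_same, smul_eq_mul,
        mul_one] at h2
      exact h2
    · intro j' _ hjj
      rw [map_smul, b.repr_self, Finsupp.smul_apply, Finsupp.single_apply, if_neg, smul_zero]
      intro h
      exact hjj (vo_inj Jt h)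
    · intro h
      exact absurd (Finset.mem_univ _) h
  have hder : ∀ x ∈ IJ (X.dB b1) J1 f (r * T), ∀ β : Out Jt →₀ ℕ, wt J T β < T →
      D.d.pw (β.mapDomain (vo Jt)) x ∈ p := by
    intro x hx β hβ
    rw [hDd]
    have h1 := X.pw_W b1 b J1 Jt J f (r * T) T (fun j hj => (hJ1 _).1 (hJW j hj)) x hx β hβ
    have h2 : r * T + T = (r + 1) * T := by ring
    rw [h2] at h1
    exact hpI h1
  obtain ⟨bb, hb⟩ := relA D Jt (2 * k, L) (IJ (X.dB b1) J1 f (r * T)) p hpm s0 hs0
    (fun x hx => by rw [hDG]; exact hs0G x hx) J T hT hder hst hnd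
  -- the lower bound
  obtain ⟨f', hf'1, hf'2, hf'3⟩ := hlow.base b Ja hJa
  obtain ⟨Φ, hΦ1, hΦ2, hΦ3⟩ := hlow.fib b Jv hJv
  have hlb := X.lower b Ja Jv Jt hd hJt f' hf'1 hf'2
    (fun i hi j hj => by
      by_cases h : j = i
      · rw [if_pos h]; exact (hf'3 i hi j hj).1 h
      · rw [if_neg h]; exact (hf'3 i hi j hj).2 h)
    (fun j hj F hF => hlow.vert _ (hJv j hj) F hF) Φ hΦ1 hΦ2 hΦ3
  set n' := Fintype.card (Out Jt) with hn'
  have hJtc : Jt.card = Ja.card + Jv.card := by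
    have h1 : Jt = Ja ∪ Jv := by
      ext i
      rw [hJt, Finset.mem_union]
    rw [h1, Finset.card_union_of_disjoint hd]
  have hn'c : n' = Fintype.card κ - Jt.card := card_Out Jt
  have hJtle : Jt.card ≤ Fintype.card κ := Finset.card_le_univ Jt
  have hlim := lim2 (T ^ J.card) k L C0 ((Fintype.card κ + 1) ^ Fintype.card κ) n n Ja.card Jv.card n'
    (bb.1 + 1) bb.2 (by omega) ?_
  · have h1 : k ^ Ja.card * L ^ Jv.card * T ^ J.card ≤
        (Fintype.card κ + 1) ^ Fintype.card κ * C0 * (2 * Fintype.card κ + 1) ^ (n + n) *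
          (k ^ n * L ^ n) := by
      refine hlim.trans (Nat.mul_le_mul_right _ (Nat.mul_le_mul_left _ (Nat.pow_le_pow_left ?_ _)))
      omega
    have hJ1 : 1 ≤ J.card := by
      rcases Nat.eq_zero_or_pos J.card with h0 | h0
      · exfalso
        apply hW1
        have h2 : Module.finrank ℂ (W ⊓ X.hh p : Submodule ℂ (κ → ℂ)) = Module.finrank ℂ W := by
          omega
        have h3 : (W ⊓ X.hh p : Submodule ℂ (κ → ℂ)) = W :=
          Submodule.eq_of_le_of_finrank_eq inf_le_left h2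
        rw [← h3]
        exact inf_le_right
      · exact h0
    have hn1 : 1 ≤ n := by
      rcases Nat.eq_zero_or_pos n with h0 | h0
      · exfalso
        have h2 : J.card ≤ n' := Finset.card_le_univ J
        omega
      · exact h0
    refine arith _ k L T n J.card Ja.card Jv.card hk hL hT hn1 hJ1 ?_ h1
    omega
  · intro N hN
    have h1 := hlb (k * N) (L * N)
    have h2 := hb N (k * N + 1, L * N)
    have h3 : Module.finrank ℂ (D.Z ((k * N + 1, L * N) + (n' * N) • (2 * k, L) + bb)) ≤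
        C0 * ((k * N + n' * N * (2 * k) + (bb.1 + 1) + 1) ^ n *
          (L * N + n' * N * L + bb.2 + 1) ^ n) := by
      rw [hDZ]
      refine (X.finrank_Z_le b _).trans ((hC0 _ _).trans (le_of_eq ?_))
      congr 2
      · congr 1
        simp only [Prod.fst_add, Prod.smul_fst, smul_eq_mul]
        ring
    rw [hDZ] at h2
    calc (k * N) ^ Ja.card * (L * N) ^ Jv.card * (T ^ J.card * N ^ n') ≤
        (Fintype.card κ + 1) ^ Fintype.card κ *
          Module.finrank ℂ ((X.Z b (k * N + 1, L * N)).map (evt Jt).toLinearMap) *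
          (T ^ J.card * N ^ n') := Nat.mul_le_mul_right _ h1
      _ = (Fintype.card κ + 1) ^ Fintype.card κ *
          (Module.finrank ℂ ((X.Z b (k * N + 1, L * N)).map (evt Jt).toLinearMap) *
          (T ^ J.card * N ^ n')) := by ring
      _ ≤ _ := Nat.mul_le_mul_left _ (h2.trans (by rw [← hDZ]; exact h3))

end LE

end

end Pool.Agent.Helper63.LU
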