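import Pool.Agent.Helper63.LU.Yh
import Pool.Agent.Helper94.LU.Dv

/-!
PROJECT LU (LT2), block Z2. Part i: the theta functions of the vector extension form a system as in Ye, Yh.
-/

namespace Pool.Agent.Helper63.LU

open Finset MvPowerSeries
open Pool.Agent.Helper34.LT (Theta)
open Pool.Agent.Helper94.LU (Vn mem_Vn QS dR vd poly_vn vn_one dim2_nat dim2_two)
open Pool.Agent.Helper63.LT (CD Ent dE dE_add dE_smul dE_comm dE_apply cE evE tr rf tr_apply rf_apply tr_dE rf_dE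
  TT TT_inj cc)

noncomputable section

section vn

variable {ι : Type} [Fintype ι]

/-! Piece Yi-1: polynomials in the vector variables -/

private theorem yi1_high {L : ℕ} {F : Ent (ι ⊕ ι)} (hF : F ∈ Vn ι (L + 1)) (α : ι →₀ ℕ)
    (hα : L + 1 ≤ α.degree) : (dR ι).pw α F = 0 := by
  obtain ⟨g, hg, hgd⟩ := Finsupp.exists_le_degree_eq α (L + 1) hα
  have h1 : α = (α - g) + g := (tsub_add_cancel_of_le hg).symm
  rw [h1, CD.pw_add, hF g hgd, map_zero]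

private theorem yi1_dir (w : ι → ℂ) (G : Ent (ι ⊕ ι)) :
    dE (Sum.elim 0 w : ι ⊕ ι → ℂ) G = (dR ι).dir w G := by
  classical
  have h3 : (Sum.elim 0 w : ι ⊕ ι → ℂ) = ∑ i, w i • vd i := by
    funext y
    rw [Finset.sum_apply]
    rcases y with y | y
    · rw [Sum.elim_inl, Finset.sum_eq_zero]
      · rfl
      · intro i _
        change w i * 0 = 0
        rw [mul_zero]
    · rw [Sum.elim_inr, Finset.sum_eq_single y]
      · change w y = w y * _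
        rw [vd, Sum.elim_inr, Pi.single_eq_same, mul_one]
      · intro i _ hi
        change w i * _ = 0
        rw [vd, Sum.elim_inr, Pi.single_eq_of_ne (Ne.symm hi), mul_zero]
      · intro h
        exact absurd (Finset.mem_univ y) h
  rw [dir_apply]
  refine Subtype.ext (funext fun x => ?_)
  have h4 : ((∑ i, w i • (dR ι).D i G : Ent (ι ⊕ ι)) : (ι ⊕ ι → ℂ) → ℂ) x =
      ∑ i, w i * (dE (vd i) G : (ι ⊕ ι → ℂ) → ℂ) x := by
    rw [← Pool.Agent.Helper63.LT.evE_apply, map_sum]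
    refine Finset.sum_congr rfl fun i _ => ?_
    rw [map_smul, smul_eq_mul]
    rfl
  rw [h4, dE_apply, h3, map_sum]
  refine Finset.sum_congr rfl fun i _ => ?_
  rw [map_smul, smul_eq_mul, dE_apply]

/-- PROOF. For `w` let `v = Sum.elim 0 w = ∑ i, w i • vd i`, so `dE v = (dR ι).dir w`. By `LT.dir_pow` (for `dR ι`),
`(dE v)^[j] F = ∑_(|α| = j) (j ! / α !) w ^ α • (dR ι).pw α F`; for `j > L` it is `0` (`(dR ι).pw α F = 0` for `α.degree > L` by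
`CD.pw_add`). The entire function `s ↦ F (Sum.elim z 0 + s • v)` has the iterated derivatives `((dE v)^[j] F) (Sum.elim z 0)` at `0`
(`iter_line`), so by `Complex.taylorSeries_eq_of_entire'` its value at `s = 1` is
`∑_(j ≤ L) ((dE v)^[j] F) (Sum.elim z 0) / j !`. So `P = ∑_(|α| ≤ L) ((dR ι).pw α F) (Sum.elim z 0) / α ! * X ^ α`. -/
theorem vn_poly (L : ℕ) (F : Ent (ι ⊕ ι)) (hF : F ∈ Vn ι (L + 1)) (z : ι → ℂ) :
    ∃ P : MvPolynomial ι ℂ, P.totalDegree ≤ L ∧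
      ∀ w : ι → ℂ, (F : (ι ⊕ ι → ℂ) → ℂ) (Sum.elim z w) = MvPolynomial.eval w P := by
  classical
  have h0 : ∀ (w : ι → ℂ) (n : ℕ), ((dE (Sum.elim 0 w : ι ⊕ ι → ℂ))^[n] F :
      (ι ⊕ ι → ℂ) → ℂ) (Sum.elim z 0) =
      ∑ α ∈ (univ : Finset ι).finsuppAntidiag n,
        (((n.factorial : ℂ) / Pool.Agent.Helper63.LT.fct α) * ∏ i, w i ^ α i) *
          ((dR ι).pw α F : (ι ⊕ ι → ℂ) → ℂ) (Sum.elim z 0) := by
    intro w n
    have h1 : (⇑(dE (Sum.elim 0 w : ι ⊕ ι → ℂ)) : Ent (ι ⊕ ι) → Ent (ι ⊕ ι)) =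
        ⇑((dR ι).dir w) := funext fun G => yi1_dir w G
    rw [h1, Pool.Agent.Helper63.LT.dir_pow, ← Pool.Agent.Helper63.LT.evE_apply, map_sum]
    refine Finset.sum_congr rfl fun α _ => ?_
    rw [map_smul, smul_eq_mul]
    rfl
  refine ⟨∑ n ∈ range (L + 1), ∑ α ∈ (univ : Finset ι).finsuppAntidiag n,
    MvPolynomial.monomial α ((Pool.Agent.Helper63.LT.fct α : ℂ)⁻¹ *
      ((dR ι).pw α F : (ι ⊕ ι → ℂ) → ℂ) (Sum.elim z 0)), ?_, ?_⟩
  · refine MvPolynomial.totalDegree_finsetSum_le fun n hn => ?_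
    refine MvPolynomial.totalDegree_finsetSum_le fun α hα => ?_
    refine (MvPolynomial.totalDegree_monomial_le _ _).trans ?_
    change α.degree ≤ L
    rw [Finsupp.degree_eq_sum, (mem_finsuppAntidiag.1 hα).1]
    have := Finset.mem_range.1 hn
    omega
  · intro w
    have hd : Differentiable ℂ (fun s : ℂ => (F : (ι ⊕ ι → ℂ) → ℂ)
        ((Sum.elim z 0 : ι ⊕ ι → ℂ) + s • (Sum.elim 0 w : ι ⊕ ι → ℂ))) :=
      F.2.comp ((differentiable_id.smul_const _).const_add _)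
    have h2 := Complex.taylorSeries_eq_of_entire hd 0 1
    have h3 : (Sum.elim z 0 : ι ⊕ ι → ℂ) + (1 : ℂ) • (Sum.elim 0 w : ι ⊕ ι → ℂ) =
        Sum.elim z w := by
      funext x
      rw [one_smul]
      rcases x with x | x
      · exact add_zero _
      · exact zero_add _
    rw [h3] at h2
    rw [← h2, tsum_eq_sum (s := range (L + 1))]
    · rw [map_sum]
      refine Finset.sum_congr rfl fun n _ => ?_
      rw [Pool.Agent.Helper63.LT.iter_line, zero_smul, add_zero, h0, map_sum, sub_zero, one_pow,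
        one_smul, smul_eq_mul, Finset.mul_sum]
      refine Finset.sum_congr rfl fun α _ => ?_
      rw [MvPolynomial.eval_monomial, Finsupp.prod_fintype _ _ fun i => pow_zero _]
      have h4 : (n.factorial : ℂ) ≠ 0 := by exact_mod_cast n.factorial_ne_zero
      field_simp
    · intro n hn
      rw [Finset.mem_range, not_lt] at hn
      rw [Pool.Agent.Helper63.LT.iter_line, zero_smul, add_zero, h0, Finset.sum_eq_zero, smul_zero,
        smul_zero]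
      intro α hα
      rw [yi1_high hF α]
      · change _ * (0 : ℂ) = 0
        rw [mul_zero]
      · rw [Finsupp.degree_eq_sum, (mem_finsuppAntidiag.1 hα).1]
        exact hn

/-- PROOF. An exponent of degree `m ≥ n` is `b + b'` with `b.degree = n`; `CD.pw_add`. -/
theorem Vn_mono {n m : ℕ} (h : n ≤ m) : Vn ι n ≤ Vn ι m := by
  have h1 : Monotone (Vn ι) := monotone_nat_of_le_succ fun n F hF b hb => by
    obtain ⟨i, b', rfl, hb'⟩ := Pool.Agent.Helper94.LU.exists_single hb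
    rw [CD.pw_succ, hF b' hb', map_zero]
  exact h1 h

/-- PROOF. `vn_poly`, `poly_vn`, `MvPolynomial.totalDegree_mul`. -/
theorem Vn_mul {n m : ℕ} {F G : Ent (ι ⊕ ι)} (hF : F ∈ Vn ι (n + 1)) (hG : G ∈ Vn ι (m + 1)) :
    F * G ∈ Vn ι (n + m + 1) := by
  refine poly_vn (n + m) (F * G) fun z => ?_
  obtain ⟨P, hP, hPe⟩ := vn_poly n F hF z
  obtain ⟨Q, hQ, hQe⟩ := vn_poly m G hG z
  refine ⟨P * Q, (MvPolynomial.totalDegree_mul P Q).trans (add_le_add hP hQ), fun w => ?_⟩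
  rw [map_mul, ← hPe, ← hQe]
  rfl

theorem Vn_one : (1 : Ent (ι ⊕ ι)) ∈ Vn ι 1 := by
  refine poly_vn 0 1 fun z => ⟨1, ?_, fun w => ?_⟩
  · rw [MvPolynomial.totalDegree_one]
  · rw [map_one]
    rfl

private theorem Yi1_dE (v : ι ⊕ ι → ℂ) (F : Ent (ι ⊕ ι)) (n : ℕ) :
    ∀ b : ι →₀ ℕ, b.degree = n → (dR ι).pw b (dE v F) = dE v ((dR ι).pw b F) := by
  induction n with
  | zero =>
    intro b hb
    rw [Finsupp.degree_eq_zero_iff] at hb
    rw [hb, CD.pw_zero, CD.pw_zero]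
  | succ n ih =>
    intro b hb
    obtain ⟨i, b', rfl, hb'⟩ := Pool.Agent.Helper94.LU.exists_single hb
    rw [CD.pw_succ, CD.pw_succ, ih b' hb']
    exact dE_comm _ _ _

/-- PROOF. `dE v` commutes with `(dR ι).pw b` (`dE_comm`; induction on `b`). -/
theorem Vn_dE {n : ℕ} {F : Ent (ι ⊕ ι)} (hF : F ∈ Vn ι n) (v : ι ⊕ ι → ℂ) : dE v F ∈ Vn ι n := by
  intro b hb
  rw [Yi1_dE v F n b hb, hF b hb, map_zero]

/-- PROOF. `tr w` commutes with `(dR ι).pw b` (`tr_dE`, `CD.pw_nat`). -/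
theorem Vn_tr {n : ℕ} {F : Ent (ι ⊕ ι)} (hF : F ∈ Vn ι n) (w : ι ⊕ ι → ℂ) : tr w F ∈ Vn ι n := by
  intro b hb
  have h := CD.pw_nat (dR ι) (dR ι) (tr w) (fun i x => tr_dE w (vd i) x) b F
  rw [← h, hF b hb, map_zero]

/-- PROOF. `rf_dE`, `CD.pw_nat` for the derivations with the opposite sign, `CD.pw_neg`. -/
theorem Vn_rf {n : ℕ} {F : Ent (ι ⊕ ι)} (hF : F ∈ Vn ι n) (w : ι ⊕ ι → ℂ) : rf w F ∈ Vn ι n := by
  intro b hb
  have h := CD.pw_nat (dR ι) (dR ι).neg (rf w) (fun i x => rf_dE w (vd i) x) b F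
  rw [hF b hb, map_zero, CD.pw_neg] at h
  exact (smul_eq_zero.mp h.symm).resolve_left (pow_ne_zero _ (neg_ne_zero.mpr one_ne_zero))

/-- PROOF. `vn_one`, or `v = ∑ i, v (inr i) • vd i` and `dE (vd i) F = 0`. -/
theorem Vn_vert {F : Ent (ι ⊕ ι)} (hF : F ∈ Vn ι 1) (v : ι ⊕ ι → ℂ) (hv : ∀ i, v (Sum.inl i) = 0) :
    dE v F = 0 := by
  classical
  refine Subtype.ext (funext fun x => ?_)
  change fderiv ℂ (F : (ι ⊕ ι → ℂ) → ℂ) x v = 0
  have h3 : v = ∑ i, v (Sum.inr i) • vd i := by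
    funext y
    rw [Finset.sum_apply]
    rcases y with y | y
    · rw [hv, Finset.sum_eq_zero]
      intro i _
      change v (Sum.inr i) * 0 = 0
      rw [mul_zero]
    · rw [Finset.sum_eq_single y]
      · change v (Sum.inr y) = v (Sum.inr y) * _
        rw [vd, Sum.elim_inr, Pi.single_eq_same, mul_one]
      · intro i _ hi
        change v (Sum.inr i) * _ = 0
        rw [vd, Sum.elim_inr, Pi.single_eq_of_ne (Ne.symm hi), mul_zero]
      · intro h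
        exact absurd (Finset.mem_univ y) h
  rw [h3, map_sum]
  refine Finset.sum_eq_zero fun i _ => ?_
  have h2 := hF (Finsupp.single i 1) (Finsupp.degree_single _ _)
  have h4 : (Finsupp.single i 1 : ι →₀ ℕ) = 0 + Finsupp.single i 1 := (zero_add _).symm
  rw [h4, CD.pw_succ, CD.pw_zero] at h2
  have h5 : fderiv ℂ (F : (ι ⊕ ι → ℂ) → ℂ) x (vd i) = 0 := congrFun (congrArg Subtype.val h2) x
  rw [map_smul, h5, smul_zero]

/-! Piece Yi-2: functions of the first variables, linear functions of the vector variables -/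

/-- The function `F` of the first variables. -/
def lft (ι : Type) [Fintype ι] : Ent ι →ₐ[ℂ] Ent (ι ⊕ ι) where
  toFun F := ⟨fun z => (F : (ι → ℂ) → ℂ) (fun i => z (Sum.inl i)),
    F.2.comp (differentiable_pi.2 fun i => differentiable_apply (Sum.inl i))⟩
  map_one' := rfl
  map_mul' _ _ := rfl
  map_zero' := rfl
  map_add' _ _ := rfl
  commutes' _ := rfl

theorem lft_apply (F : Ent ι) (z : ι ⊕ ι → ℂ) :
    (lft ι F : (ι ⊕ ι → ℂ) → ℂ) z = (F : (ι → ℂ) → ℂ) (fun i => z (Sum.inl i)) := rfl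

/-- PROOF. Chain rule. -/
theorem dE_lft (v : ι ⊕ ι → ℂ) (F : Ent ι) :
    dE v (lft ι F) = lft ι (dE (fun i => v (Sum.inl i)) F) := by
  refine Subtype.ext (funext fun z => ?_)
  rw [dE_apply, lft_apply, dE_apply]
  let Lm : (ι ⊕ ι → ℂ) →L[ℂ] (ι → ℂ) :=
    ContinuousLinearMap.pi fun i => ContinuousLinearMap.proj (Sum.inl i)
  have h1 : HasFDerivAt (fun z : ι ⊕ ι → ℂ => (F : (ι → ℂ) → ℂ) (Lm z))
      ((fderiv ℂ (F : (ι → ℂ) → ℂ) (Lm z)).comp Lm) z :=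
    (F.2 (Lm z)).hasFDerivAt.comp z Lm.hasFDerivAt
  have h2 : (lft ι F : (ι ⊕ ι → ℂ) → ℂ) = fun z : ι ⊕ ι → ℂ => (F : (ι → ℂ) → ℂ) (Lm z) := rfl
  rw [h2, h1.fderiv]
  rfl

theorem lft_Vn (F : Ent ι) : lft ι F ∈ Vn ι 1 := by
  refine poly_vn 0 (lft ι F) fun z => ⟨MvPolynomial.C ((F : (ι → ℂ) → ℂ) z), ?_, fun w => ?_⟩
  · rw [MvPolynomial.totalDegree_C]
  · rw [lft_apply, MvPolynomial.eval_C]
    rfl

/-- A linear function of the vector variables. -/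
def lin2 (v : ι → ℂ) : Ent (ι ⊕ ι) :=
  ⟨fun z => ∑ i, v i * z (Sum.inr i), by
    refine (Differentiable.fun_sum fun i _ => ?_ :
      Differentiable ℂ fun z : ι ⊕ ι → ℂ => ∑ i, v i * z (Sum.inr i))
    exact (differentiable_apply (Sum.inr i)).const_mul (v i)⟩

theorem lin2_apply (v : ι → ℂ) (z : ι ⊕ ι → ℂ) :
    (lin2 v : (ι ⊕ ι → ℂ) → ℂ) z = ∑ i, v i * z (Sum.inr i) := rfl

theorem dE_lin2 (u : ι ⊕ ι → ℂ) (v : ι → ℂ) :
    dE u (lin2 v) = (∑ i, v i * u (Sum.inr i)) • (1 : Ent (ι ⊕ ι)) := by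
  refine Subtype.ext (funext fun z => ?_)
  rw [dE_apply]
  let Lm : (ι ⊕ ι → ℂ) →L[ℂ] ℂ :=
    ∑ i, v i • (ContinuousLinearMap.proj (Sum.inr i) : (ι ⊕ ι → ℂ) →L[ℂ] ℂ)
  have hL : ∀ x, Lm x = ∑ i, v i * x (Sum.inr i) := by
    intro x
    simp only [Lm, ContinuousLinearMap.sum_apply, ContinuousLinearMap.smul_apply,
      ContinuousLinearMap.proj_apply, smul_eq_mul]
  have h2 : (lin2 v : (ι ⊕ ι → ℂ) → ℂ) = fun x => Lm x := by
    funext x
    rw [lin2_apply, hL]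
  rw [h2, Lm.hasFDerivAt.fderiv, hL]
  change _ = (∑ i, v i * u (Sum.inr i)) * 1
  rw [mul_one]

/-- PROOF. `poly_vn` with the polynomial `∑ i, C (v i) * X i`, or `dE_lin2`. -/
theorem lin2_Vn (v : ι → ℂ) : lin2 v ∈ Vn ι 2 := by
  refine poly_vn 1 (lin2 v) fun z =>
    ⟨∑ i, MvPolynomial.C (v i) * MvPolynomial.X i, ?_, fun w => ?_⟩
  · refine MvPolynomial.totalDegree_finsetSum_le fun i _ => ?_
    refine (MvPolynomial.totalDegree_mul _ _).trans ?_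
    rw [MvPolynomial.totalDegree_C, zero_add]
    exact (MvPolynomial.totalDegree_X i).le
  · rw [lin2_apply, map_sum]
    refine Finset.sum_congr rfl fun i _ => ?_
    rw [map_mul, MvPolynomial.eval_C, MvPolynomial.eval_X]
    rfl

end vn

variable {ι A : Type} [Fintype ι] [AddCommGroup A] (γ : A →+ (ι → ℂ))
  (l : A →+ ((ι → ℂ) →ₗ[ℂ] ℂ)) (c : A → ℂ) (σ : (ι → ℂ) →ₗ[ℝ] (ι → ℂ))

/-! Piece Yi-3: quasi-periodic functions -/

theorem mem_QS {k : ℕ} {F : Ent (ι ⊕ ι)} :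
    F ∈ QS γ l c σ k ↔ ∀ a z, (F : (ι ⊕ ι → ℂ) → ℂ) (z + Sum.elim (γ a) (σ (γ a))) =
      Complex.exp (k * (l a (fun i => z (Sum.inl i)) + c a)) * (F : (ι ⊕ ι → ℂ) → ℂ) z := Iff.rfl

/-- PROOF. As `ThS_mul` in Helper63/LT/Zt.lean. -/
theorem QS_mul {k k' : ℕ} {F G : Ent (ι ⊕ ι)} (hF : F ∈ QS γ l c σ k) (hG : G ∈ QS γ l c σ k') :
    F * G ∈ QS γ l c σ (k + k') := by
  intro a z
  change (F : (ι ⊕ ι → ℂ) → ℂ) (z + Sum.elim (γ a) (σ (γ a))) *
      (G : (ι ⊕ ι → ℂ) → ℂ) (z + Sum.elim (γ a) (σ (γ a))) =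
    Complex.exp (((k + k' : ℕ) : ℂ) * (l a (fun i => z (Sum.inl i)) + c a)) *
      ((F : (ι ⊕ ι → ℂ) → ℂ) z * (G : (ι ⊕ ι → ℂ) → ℂ) z)
  rw [hF, hG, Nat.cast_add, add_mul, Complex.exp_add]
  ring

theorem QS_one : (1 : Ent (ι ⊕ ι)) ∈ QS γ l c σ 0 := by
  intro a z
  change (1 : ℂ) = Complex.exp (((0 : ℕ) : ℂ) * (l a (fun i => z (Sum.inl i)) + c a)) * 1
  rw [Nat.cast_zero, zero_mul, Complex.exp_zero, mul_one]

/-- PROOF. As `ThS_pair` in Helper63/LT/Zt.lean. -/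
theorem QS_pair {k : ℕ} {F G : Ent (ι ⊕ ι)} (hF : F ∈ QS γ l c σ k) (hG : G ∈ QS γ l c σ k)
    (w : ι ⊕ ι → ℂ) : tr w F * tr (-w) G ∈ QS γ l c σ (2 * k) := by
  intro a z
  change (F : (ι ⊕ ι → ℂ) → ℂ) (w + (z + Sum.elim (γ a) (σ (γ a)))) *
      (G : (ι ⊕ ι → ℂ) → ℂ) (-w + (z + Sum.elim (γ a) (σ (γ a)))) =
    Complex.exp (((2 * k : ℕ) : ℂ) * (l a (fun i => z (Sum.inl i)) + c a)) *
      ((F : (ι ⊕ ι → ℂ) → ℂ) (w + z) * (G : (ι ⊕ ι → ℂ) → ℂ) (-w + z))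
  have e1 : l a (fun i => (w + z) (Sum.inl i)) =
      l a (fun i => w (Sum.inl i)) + l a (fun i => z (Sum.inl i)) := map_add (l a) _ _
  have e2 : l a (fun i => (-w + z) (Sum.inl i)) =
      -l a (fun i => w (Sum.inl i)) + l a (fun i => z (Sum.inl i)) := by
    have h := map_add (l a) (fun i => (-w) (Sum.inl i)) (fun i => z (Sum.inl i))
    have h' : l a (fun i => (-w) (Sum.inl i)) = -l a (fun i => w (Sum.inl i)) := map_neg (l a) _
    rw [h'] at h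
    exact h
  have h1 : Complex.exp (((2 * k : ℕ) : ℂ) * (l a (fun i => z (Sum.inl i)) + c a)) =
      Complex.exp (k * (l a (fun i => (w + z) (Sum.inl i)) + c a)) *
        Complex.exp (k * (l a (fun i => (-w + z) (Sum.inl i)) + c a)) := by
    rw [← Complex.exp_add, e1, e2]
    congr 1
    push_cast
    ring
  rw [← add_assoc, ← add_assoc, hF, hG, h1]
  ring

/-- PROOF. As `ThS_pair'` in Helper63/LT/Zt.lean (`γ (-a) = - γ a`, `σ (γ (-a)) = - σ (γ a)`). -/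
theorem QS_pair' {k : ℕ} {F G : Ent (ι ⊕ ι)} (hF : F ∈ QS γ l c σ k) (hG : G ∈ QS γ l c σ k)
    (w : ι ⊕ ι → ℂ) : tr w F * rf w G ∈ QS γ l (cc c) σ (2 * k) := by
  intro a z
  change (F : (ι ⊕ ι → ℂ) → ℂ) (w + (z + Sum.elim (γ a) (σ (γ a)))) *
      (G : (ι ⊕ ι → ℂ) → ℂ) (w - (z + Sum.elim (γ a) (σ (γ a)))) =
    Complex.exp (((2 * k : ℕ) : ℂ) * (l a (fun i => z (Sum.inl i)) + (c a + c (-a)) / 2)) *
      ((F : (ι ⊕ ι → ℂ) → ℂ) (w + z) * (G : (ι ⊕ ι → ℂ) → ℂ) (w - z))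
  have h0 : w - (z + Sum.elim (γ a) (σ (γ a))) =
      w - z + Sum.elim (γ (-a)) (σ (γ (-a))) := by
    funext x
    rcases x with x | x
    · change w (Sum.inl x) - (z (Sum.inl x) + γ a x) = w (Sum.inl x) - z (Sum.inl x) + γ (-a) x
      rw [map_neg, Pi.neg_apply]
      ring
    · change w (Sum.inr x) - (z (Sum.inr x) + σ (γ a) x) =
        w (Sum.inr x) - z (Sum.inr x) + σ (γ (-a)) x
      rw [map_neg, map_neg, Pi.neg_apply]
      ring
  have e1 : l a (fun i => (w + z) (Sum.inl i)) =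
      l a (fun i => w (Sum.inl i)) + l a (fun i => z (Sum.inl i)) := map_add (l a) _ _
  have e2 : l (-a) (fun i => (w - z) (Sum.inl i)) =
      -(l a (fun i => w (Sum.inl i)) - l a (fun i => z (Sum.inl i))) := by
    have h : l a (fun i => (w - z) (Sum.inl i)) =
        l a (fun i => w (Sum.inl i)) - l a (fun i => z (Sum.inl i)) := map_sub (l a) _ _
    rw [map_neg, LinearMap.neg_apply, h]
  have h1 : Complex.exp (((2 * k : ℕ) : ℂ) *
      (l a (fun i => z (Sum.inl i)) + (c a + c (-a)) / 2)) =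
      Complex.exp (k * (l a (fun i => (w + z) (Sum.inl i)) + c a)) *
        Complex.exp (k * (l (-a) (fun i => (w - z) (Sum.inl i)) + c (-a))) := by
    rw [← Complex.exp_add, e1, e2]
    congr 1
    push_cast
    ring
  rw [← add_assoc, h0, hF, hG, h1]
  ring

theorem lft_QS {k : ℕ} {F : Ent ι} (hF : Theta γ l c k (F : (ι → ℂ) → ℂ)) :
    lft ι F ∈ QS γ l c σ k := by
  intro a z
  exact hF.2 a (fun i => z (Sum.inl i))

/-- The space of theta functions of the vector extension. -/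
def Th2 (k L : ℕ) : Submodule ℂ (Ent (ι ⊕ ι)) := QS γ l c σ k ⊓ Vn ι (L + 1)

theorem mem_Th2 {k L : ℕ} {F : Ent (ι ⊕ ι)} :
    F ∈ Th2 γ l c σ k L ↔ Theta2 γ l c σ k L (F : (ι ⊕ ι → ℂ) → ℂ) :=
  ⟨fun h => ⟨F.2, h.1, fun z => vn_poly L F h.2 z⟩, fun h => ⟨h.2.1, poly_vn L F h.2.2⟩⟩

theorem lft_Th2 {k : ℕ} {F : Ent ι} (hF : Theta γ l c k (F : (ι → ℂ) → ℂ)) :
    lft ι F ∈ Th2 γ l c σ k 0 :=
  ⟨lft_QS γ l c σ hF, lft_Vn F⟩

/-! Piece Yi-4: the operators -/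

/-- The operator `F ↦ D_(v, 0) F - (∑ v_i z_(inr i)) F`. -/
def opA (v : ι → ℂ) : Ent (ι ⊕ ι) →ₗ[ℂ] Ent (ι ⊕ ι) :=
  (dE (Sum.elim v 0)).toLinearMap - LinearMap.mulLeft ℂ (lin2 v)

theorem opA_apply (v : ι → ℂ) (F : Ent (ι ⊕ ι)) :
    opA v F = dE (Sum.elim v 0) F - lin2 v * F := rfl

/-- PROOF. Differentiate `F (z + Sum.elim (γ a) (σ (γ a))) = exp (l a z + c a) F z` in the direction `(v, 0)` (compare `Zt1_dE`
in Helper63/LT/Zt.lean and `qs_dE` in Helper94/LU/Dv.lean): the additional term is `l a v * F`, and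
`lin2 v (z + Sum.elim (γ a) (σ (γ a))) = lin2 v z + ∑ i, v i * σ (γ a) i = lin2 v z + l a v` by `hσ`. `Vn_dE`, `Vn_mono`,
`Vn_mul` with `lin2_Vn`. -/
theorem opA_mem (hσ : ∀ (a : A) (x : ι → ℂ), l a x = ∑ i, σ (γ a) i * x i) {L : ℕ}
    {F : Ent (ι ⊕ ι)} (hF : F ∈ Th2 γ l c σ 1 L) (v : ι → ℂ) : opA v F ∈ Th2 γ l c σ 1 (L + 1) := by
  have hd : ∀ a z, (dE (Sum.elim v 0) F : (ι ⊕ ι → ℂ) → ℂ) (z + Sum.elim (γ a) (σ (γ a))) =
      Complex.exp (((1 : ℕ) : ℂ) * (l a (fun i => z (Sum.inl i)) + c a)) *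
        ((dE (Sum.elim v 0) F : (ι ⊕ ι → ℂ) → ℂ) z + l a v * (F : (ι ⊕ ι → ℂ) → ℂ) z) := by
    intro a z
    have h1 := Pool.Agent.Helper94.LU.line F (z + Sum.elim (γ a) (σ (γ a))) (Sum.elim v 0)
    have h2 : (fun t : ℂ => (F : (ι ⊕ ι → ℂ) → ℂ)
        (z + Sum.elim (γ a) (σ (γ a)) + t • Sum.elim v 0)) = fun t : ℂ =>
        Complex.exp (((1 : ℕ) : ℂ) * (l a (fun i => z (Sum.inl i)) + t * l a v + c a)) *
          (F : (ι ⊕ ι → ℂ) → ℂ) (z + t • Sum.elim v 0) := by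
      funext t
      have h3 : z + Sum.elim (γ a) (σ (γ a)) + t • Sum.elim v 0 =
          z + t • Sum.elim v 0 + Sum.elim (γ a) (σ (γ a)) := by abel
      have h4 : l a (fun i => (z + t • (Sum.elim v 0 : ι ⊕ ι → ℂ)) (Sum.inl i)) =
          l a (fun i => z (Sum.inl i)) + t * l a v := by
        have h5 : l a (fun i => (z + t • (Sum.elim v 0 : ι ⊕ ι → ℂ)) (Sum.inl i)) =
          l a (fun i => z (Sum.inl i)) + l a (t • v) := map_add (l a) _ _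
        rw [h5, map_smul, smul_eq_mul]
      rw [h3, hF.1 a, h4]
    rw [h2] at h1
    have h3 : HasDerivAt (fun t : ℂ => ((1 : ℕ) : ℂ) *
        (l a (fun i => z (Sum.inl i)) + t * l a v + c a)) (((1 : ℕ) : ℂ) * l a v) 0 := by
      have h4 : HasDerivAt (fun t : ℂ => t * l a v) (1 * l a v) 0 := (hasDerivAt_id 0).mul_const _
      rw [one_mul] at h4
      exact ((h4.const_add (l a (fun i => z (Sum.inl i)))).add_const (c a)).const_mul _
    have h4 := h3.cexp.mul (Pool.Agent.Helper94.LU.line F z (Sum.elim v 0))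
    have h5 := h1.unique h4
    rw [h5]
    simp only [zero_mul, add_zero, zero_smul, Nat.cast_one, one_mul]
    ring
  refine ⟨?_, ?_⟩
  · intro a z
    have h1 := hd a z
    have h2 := hF.1 a z
    have h3 : (lin2 v : (ι ⊕ ι → ℂ) → ℂ) (z + Sum.elim (γ a) (σ (γ a))) =
        (lin2 v : (ι ⊕ ι → ℂ) → ℂ) z + l a v := by
      rw [lin2_apply, lin2_apply, hσ a v, ← Finset.sum_add_distrib]
      refine Finset.sum_congr rfl fun i _ => ?_
      change v i * (z (Sum.inr i) + σ (γ a) i) = _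
      ring
    change (dE (Sum.elim v 0) F : (ι ⊕ ι → ℂ) → ℂ) (z + Sum.elim (γ a) (σ (γ a))) -
        (lin2 v : (ι ⊕ ι → ℂ) → ℂ) (z + Sum.elim (γ a) (σ (γ a))) *
          (F : (ι ⊕ ι → ℂ) → ℂ) (z + Sum.elim (γ a) (σ (γ a))) =
      Complex.exp (((1 : ℕ) : ℂ) * (l a (fun i => z (Sum.inl i)) + c a)) *
        ((dE (Sum.elim v 0) F : (ι ⊕ ι → ℂ) → ℂ) z -
          (lin2 v : (ι ⊕ ι → ℂ) → ℂ) z * (F : (ι ⊕ ι → ℂ) → ℂ) z)
    rw [h1, h2, h3]
    ring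
  · refine Submodule.sub_mem _ (Vn_mono (Nat.le_succ (L + 1)) (Vn_dE hF.2 _)) ?_
    have h := Vn_mul (n := 1) (m := L) (lin2_Vn v) hF.2
    rw [add_comm 1 L] at h
    exact h

/-- PROOF. Leibniz rule, `dE_comm`, `dE_lin2`. -/
theorem dE_opA (v : ι → ℂ) (u : ι ⊕ ι → ℂ) (F : Ent (ι ⊕ ι)) :
    dE u (opA v F) = opA v (dE u F) - (∑ i, v i * u (Sum.inr i)) • F := by
  have h1 := dE_lin2 u v
  rw [opA_apply, opA_apply, map_sub, Derivation.leibniz, h1,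
    Pool.Agent.Helper63.LT.dE_comm u (Sum.elim v 0) F, smul_eq_mul, smul_eq_mul, mul_smul_comm,
    mul_one, sub_add_eq_sub_sub]

private theorem Yi4_dE (v : ι → ℂ) (u : ι ⊕ ι → ℂ) (F : Ent (ι ⊕ ι)) (m : ℕ) :
    dE u ((opA v)^[m] F) = (opA v)^[m] (dE u F) -
      ((m : ℂ) * ∑ i, v i * u (Sum.inr i)) • (opA v)^[m - 1] F := by
  induction m with
  | zero => simp
  | succ m ih =>
    rw [Function.iterate_succ_apply', dE_opA, ih, map_sub, map_smul,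
      ← Function.iterate_succ_apply' (opA v) m (dE u F), Nat.add_sub_cancel, Nat.cast_add,
      Nat.cast_one, add_mul, one_mul, add_smul, sub_sub]
    congr 2
    rcases m with - | k
    · simp
    · rw [Nat.add_sub_cancel, ← Function.iterate_succ_apply' (opA v) k F]

private theorem Yi4_smul (v : ι → ℂ) (a : ℂ) (F : Ent (ι ⊕ ι)) (m : ℕ) :
    (opA v)^[m] (a • F) = a • (opA v)^[m] F := by
  induction m with
  | zero => rfl
  | succ m ih => rw [Function.iterate_succ_apply', ih, map_smul, ← Function.iterate_succ_apply' (opA v) m F]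

private theorem Yi4_zero (v : ι → ℂ) (m : ℕ) : (opA v)^[m] (0 : Ent (ι ⊕ ι)) = 0 := by
  induction m with
  | zero => rfl
  | succ m ih => rw [Function.iterate_succ_apply', ih, map_zero]

private theorem Yi4_mem (hσ : ∀ (a : A) (x : ι → ℂ), l a x = ∑ i, σ (γ a) i * x i) {L : ℕ}
    {F : Ent (ι ⊕ ι)} (hF : F ∈ Th2 γ l c σ 1 L) (v : ι → ℂ) (m : ℕ) :
    (opA v)^[m] F ∈ Th2 γ l c σ 1 (m + L) := by
  induction m with
  | zero => rwa [Nat.zero_add]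
  | succ m ih =>
    rw [Function.iterate_succ_apply', Nat.add_right_comm]
    exact opA_mem γ l c σ hσ ih v

private theorem Yi4_coef (b : Module.Basis (ι ⊕ ι) ℂ (ι ⊕ ι → ℂ)) (j j0 : ι ⊕ ι)
    (hj : ∀ i, b j (Sum.inl i) = 0) [DecidableEq ι] :
    ∑ k, b.repr (Sum.elim 0 (Pi.single k 1)) j0 * b j (Sum.inr k) = b.repr (b j) j0 := by
  have h : b j = ∑ k, b j (Sum.inr k) • (Sum.elim 0 (Pi.single k 1) : ι ⊕ ι → ℂ) := by
    funext x
    rw [Finset.sum_apply]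
    rcases x with i | i
    · rw [hj i]
      exact (Finset.sum_eq_zero fun k _ => by simp).symm
    · rw [Finset.sum_eq_single i]
      · simp
      · intro k _ hk
        simp [hk.symm]
      · intro h
        exact absurd (Finset.mem_univ i) h
  have h2 : b.repr (b j) j0 =
      ∑ k, b j (Sum.inr k) * b.repr (Sum.elim 0 (Pi.single k 1)) j0 := by
    conv_lhs => rw [h]
    rw [map_sum, Finsupp.finsetSum_apply]
    exact Finset.sum_congr rfl fun k _ => by rw [map_smul]; rfl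
  rw [h2]
  exact Finset.sum_congr rfl fun k _ => mul_comm _ _

/-- PROOF. By induction on a subset `s` of `Jv`: there is `Φ` with (1) `Φ α ∈ Th2 1 (∑ j ∈ s, α j)`, (2) `Φ α = u0` if `α` is `0` on
`s`, (3) `dE (b j) (Φ α) = -(α j) • Φ (α - single j 1)` for `j ∈ s`, (4) `dE (b j) (Φ α) = 0` for `j ∈ Jv`, `j ∉ s`, (5)
`Φ (α - single j 1) = Φ α` for `j ∉ s`. `s = ∅`: `Φ α = u0` (`Vn_vert`). `insert j0 s`: `Φ' α = (opA v)^[α j0] (Φ α)` with
`v k = b.repr (Sum.elim 0 (Pi.single k 1)) j0`, so that `∑ k, v k * b j (inr k) = b.repr (b j) j0`, which is `1` for `j = j0` and `0` for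
the other `j ∈ Jv` (`b j` has the first coordinates `0`). `dE_opA` gives by induction on `m`:
`dE u ((opA v)^[m] F) = (opA v)^[m] (dE u F) - (m * ∑ k, v k * u (inr k)) • (opA v)^[m - 1] F`. Degrees: `opA_mem`. -/
theorem exists_Phi (hσ : ∀ (a : A) (x : ι → ℂ), l a x = ∑ i, σ (γ a) i * x i) (u0 : Ent (ι ⊕ ι))
    (hu : u0 ∈ Th2 γ l c σ 1 0) (b : Module.Basis (ι ⊕ ι) ℂ (ι ⊕ ι → ℂ)) (Jv : Finset (ι ⊕ ι))
    (hJ : ∀ j ∈ Jv, ∀ i, b j (Sum.inl i) = 0) :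
    ∃ Φ : (ι ⊕ ι →₀ ℕ) → Ent (ι ⊕ ι), (∀ α, Φ α ∈ Th2 γ l c σ 1 (∑ j ∈ Jv, α j)) ∧
      (∀ α : ι ⊕ ι →₀ ℕ, (∀ j ∈ Jv, α j = 0) → Φ α = u0) ∧
      ∀ α, ∀ j ∈ Jv, dE (b j) (Φ α) = (-(α j : ℂ)) • Φ (α - Finsupp.single j 1) := by
  classical
  have key : ∀ s : Finset (ι ⊕ ι), s ⊆ Jv → ∃ Φ : (ι ⊕ ι →₀ ℕ) → Ent (ι ⊕ ι),
      (∀ α, Φ α ∈ Th2 γ l c σ 1 (∑ j ∈ s, α j)) ∧
      (∀ α : ι ⊕ ι →₀ ℕ, (∀ j ∈ s, α j = 0) → Φ α = u0) ∧
      (∀ α, ∀ j ∈ s, dE (b j) (Φ α) = (-(α j : ℂ)) • Φ (α - Finsupp.single j 1)) ∧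
      (∀ α, ∀ j ∈ Jv, j ∉ s → dE (b j) (Φ α) = 0) ∧
      ∀ α β : ι ⊕ ι →₀ ℕ, (∀ j ∈ s, α j = β j) → Φ α = Φ β := by
    intro s
    induction s using Finset.induction_on with
    | empty =>
      intro _
      refine ⟨fun _ => u0, fun α => ?_, fun _ _ => rfl, fun α j hj => absurd hj (Finset.notMem_empty j),
        fun α j hj _ => Vn_vert hu.2 (b j) (hJ j hj), fun _ _ _ => rfl⟩
      rw [Finset.sum_empty]
      exact hu
    | insert j0 s hj0 ih =>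
      intro hs
      obtain ⟨Φ, h1, h2, h3, h4, h5⟩ := ih ((Finset.subset_insert j0 s).trans hs)
      have hj0J : j0 ∈ Jv := hs (Finset.mem_insert_self j0 s)
      set v : ι → ℂ := fun k => b.repr (Sum.elim 0 (Pi.single k 1)) j0 with hv
      have hco : ∀ j ∈ Jv, ∑ i, v i * b j (Sum.inr i) = if j = j0 then 1 else 0 := by
        intro j hj
        rw [hv, Yi4_coef b j j0 (hJ j hj), Module.Basis.repr_self, Finsupp.single_apply]
      refine ⟨fun α => (opA v)^[α j0] (Φ α), fun α => ?_, fun α hα => ?_, fun α j hj => ?_,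
        fun α j hj hjs => ?_, fun α β hαβ => ?_⟩
      · rw [Finset.sum_insert hj0]
        exact Yi4_mem γ l c σ hσ (h1 α) v (α j0)
      · change (opA v)^[α j0] (Φ α) = u0
        rw [hα j0 (Finset.mem_insert_self j0 s)]
        exact h2 α fun j hj => hα j (Finset.mem_insert_of_mem hj)
      · change dE (b j) ((opA v)^[α j0] (Φ α)) = _ • (opA v)^[(α - Finsupp.single j 1 : ι ⊕ ι →₀ ℕ) j0]
          (Φ (α - Finsupp.single j 1))
        rw [Yi4_dE, hco j (hs hj)]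
        rcases Finset.mem_insert.1 hj with hjj | hjs
        · subst hjj
          rw [h4 α j hj0J hj0, Yi4_zero, if_pos rfl, mul_one, zero_sub, neg_smul, Finsupp.tsub_apply,
            Finsupp.single_eq_same, h5 (α - Finsupp.single j 1) α ?_]
          intro i hi
          rw [Finsupp.tsub_apply, Finsupp.single_apply, if_neg, Nat.sub_zero]
          rintro rfl
          exact hj0 hi
        · have hne : j ≠ j0 := by
            rintro rfl
            exact hj0 hjs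
          rw [h3 α j hjs, if_neg hne, mul_zero, zero_smul, sub_zero, Yi4_smul, Finsupp.tsub_apply,
            Finsupp.single_apply, if_neg hne, Nat.sub_zero]
      · have hne : j ≠ j0 := by
          rintro rfl
          exact hjs (Finset.mem_insert_self j s)
        change dE (b j) ((opA v)^[α j0] (Φ α)) = 0
        rw [Yi4_dE, hco j hj, if_neg hne, mul_zero, zero_smul, sub_zero,
          h4 α j hj fun h => hjs (Finset.mem_insert_of_mem h), Yi4_zero]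
      · change (opA v)^[α j0] (Φ α) = (opA v)^[β j0] (Φ β)
        rw [hαβ j0 (Finset.mem_insert_self j0 s), h5 α β fun j hj => hαβ j (Finset.mem_insert_of_mem hj)]
  obtain ⟨Φ, h1, h2, h3, -, -⟩ := key Jv (Finset.Subset.refl Jv)
  exact ⟨Φ, h1, h2, h3⟩

/-! Piece Yi-5: local coordinates -/

/-- PROOF. Let `M` be the space of the `f ∈ Th2 1 0` with `f 0 = 0`. If the linear map `f ↦ (dE (b j) f 0)_(j ∈ Ja)` from `M` to `Ja → ℂ`
is not surjective, there is a vector `c ≠ 0` supported in `Ja` with `∑ c j * dE (b j) f 0 = 0` for all `f ∈ M`. With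
`a = ∑ c j • b j` this is `dE a f 0 = 0`. By `h` the vector `x = (a (inl i))_i` is not `0`; take `F`, `G` from `him x`. Then
`f = (G 0) • lft F - (F 0) • lft G ∈ M` has `dE a f 0 = G 0 * fderiv F 0 x - F 0 * fderiv G 0 x ≠ 0` (`dE_lft`). -/
theorem exists_base (him : ∀ a : ι → ℂ, a ≠ 0 → ∃ F G, Theta γ l c 1 F ∧ Theta γ l c 1 G ∧
      fderiv ℂ F 0 a * G 0 ≠ F 0 * fderiv ℂ G 0 a) (b : Module.Basis (ι ⊕ ι) ℂ (ι ⊕ ι → ℂ))
    (Ja : Finset (ι ⊕ ι))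
    (h : ∀ c : ι ⊕ ι → ℂ, (∀ i, i ∉ Ja → c i = 0) → (∀ i, (∑ j, c j • b j) (Sum.inl i) = 0) → c = 0) :
    ∃ f : ι ⊕ ι → Ent (ι ⊕ ι), (∀ i ∈ Ja, f i ∈ Th2 γ l c σ 1 0) ∧
      (∀ i ∈ Ja, (f i : (ι ⊕ ι → ℂ) → ℂ) 0 = 0) ∧
      ∀ i ∈ Ja, ∀ j ∈ Ja, (∀ _ : j = i, (dE (b j) (f i) : (ι ⊕ ι → ℂ) → ℂ) 0 = 1) ∧
        (∀ _ : j ≠ i, (dE (b j) (f i) : (ι ⊕ ι → ℂ) → ℂ) 0 = 0) := by
  classical
  let ev : Ent (ι ⊕ ι) →ₗ[ℂ] ℂ := (evE (0 : ι ⊕ ι → ℂ)).toLinearMap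
  have hev : ∀ F : Ent (ι ⊕ ι), ev F = (F : (ι ⊕ ι → ℂ) → ℂ) 0 := fun F => rfl
  let M : Submodule ℂ (Ent (ι ⊕ ι)) := Th2 γ l c σ 1 0 ⊓ LinearMap.ker ev
  let T : M →ₗ[ℂ] (Ja → ℂ) :=
    LinearMap.pi fun j : Ja => (ev ∘ₗ (dE (b j)).toLinearMap) ∘ₗ M.subtype
  have hT : ∀ (m : M) (j : Ja), T m j = (dE (b j) (m : Ent (ι ⊕ ι)) : (ι ⊕ ι → ℂ) → ℂ) 0 :=
    fun m j => rfl
  have hsurj : LinearMap.range T = ⊤ := by
    by_contra hne
    obtain ⟨φ, hφ0, hφ⟩ := Submodule.exists_le_ker_of_lt_top _ (lt_top_iff_ne_top.2 hne)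
    apply hφ0
    let e : ι ⊕ ι → ℂ := fun j => if hj : j ∈ Ja then φ (Pi.single ⟨j, hj⟩ 1) else 0
    have he : ∀ i, i ∉ Ja → e i = 0 := fun i hi => dif_neg hi
    have hφe : ∀ y : Ja → ℂ, φ y = ∑ j : Ja, e j * y j := by
      intro y
      rw [LinearMap.pi_apply_eq_sum_univ φ y]
      refine Finset.sum_congr rfl fun j _ => ?_
      have h1 : e j = φ (Pi.single j 1) := dif_pos j.2
      rw [h1, smul_eq_mul, mul_comm]
      congr 2
      funext k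
      rw [Pi.single_apply]
      exact if_congr eq_comm rfl rfl
    suffices hx : e = 0 by
      refine LinearMap.ext fun y => ?_
      rw [hφe y, hx]
      simp
    refine h e he ?_
    by_contra hnx
    let a : ι ⊕ ι → ℂ := ∑ j, e j • b j
    let x : ι → ℂ := fun i => a (Sum.inl i)
    have hx0 : x ≠ 0 := fun h0 => hnx fun i => congrFun h0 i
    obtain ⟨F, G, hF, hG, hFG⟩ := him x hx0
    let F' : Ent ι := ⟨F, hF.1⟩
    let G' : Ent ι := ⟨G, hG.1⟩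
    let f : Ent (ι ⊕ ι) := G 0 • lft ι F' - F 0 • lft ι G'
    have hfM : f ∈ M := by
      refine ⟨Submodule.sub_mem _ (Submodule.smul_mem _ _ (lft_Th2 γ l c σ (F := F') hF))
        (Submodule.smul_mem _ _ (lft_Th2 γ l c σ (F := G') hG)), ?_⟩
      change ev f = 0
      have h1 : ev (lft ι F') = F 0 := rfl
      have h2 : ev (lft ι G') = G 0 := rfl
      rw [map_sub, map_smul, map_smul, h1, h2, smul_eq_mul, smul_eq_mul, mul_comm, sub_self]
    have h3 : ev (dE a f) = ∑ j : Ja, e j * ev (dE (b j) f) := by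
      have h4 : ∀ v : ι ⊕ ι → ℂ, ev (dE v f) = fderiv ℂ (f : (ι ⊕ ι → ℂ) → ℂ) 0 v := fun v => rfl
      rw [h4, map_sum]
      simp only [map_smul, smul_eq_mul, h4]
      rw [Finset.sum_coe_sort Ja (fun j => e j * (fderiv ℂ (f : (ι ⊕ ι → ℂ) → ℂ) 0) (b j))]
      refine (Finset.sum_subset (Finset.subset_univ _) fun i _ hi => ?_).symm
      rw [he i hi, zero_mul]
    have h5 : ev (dE a f) = 0 := by
      have h6 : φ (T ⟨f, hfM⟩) = 0 := hφ ⟨⟨f, hfM⟩, rfl⟩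
      rw [hφe] at h6
      rw [h3]
      exact h6
    have h7 : ev (dE a f) = G 0 * fderiv ℂ F 0 x - F 0 * fderiv ℂ G 0 x := by
      rw [map_sub, map_sub, Derivation.map_smul, Derivation.map_smul, map_smul, map_smul, dE_lft, dE_lft]
      rfl
    apply hFG
    rw [h5] at h7
    linear_combination -h7
  have hex : ∀ i : ι ⊕ ι, ∃ f : Ent (ι ⊕ ι), ∀ hi : i ∈ Ja, f ∈ M ∧
      ∀ j : Ja, (dE (b j) f : (ι ⊕ ι → ℂ) → ℂ) 0 = if j = ⟨i, hi⟩ then 1 else 0 := by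
    intro i
    by_cases hi : i ∈ Ja
    · obtain ⟨m, hm⟩ := LinearMap.range_eq_top.1 hsurj (fun j => if j = ⟨i, hi⟩ then 1 else 0)
      refine ⟨m, fun _ => ⟨m.2, fun j => ?_⟩⟩
      rw [← hT, hm]
    · exact ⟨0, fun h => absurd h hi⟩
  choose f hf using hex
  refine ⟨f, fun i hi => (hf i hi).1.1, fun i hi => ?_, fun i hi j hj => ⟨fun hji => ?_, fun hji => ?_⟩⟩
  · exact (hf i hi).1.2
  · rw [(hf i hi).2 ⟨j, hj⟩, if_pos (Subtype.ext hji)]
  · rw [(hf i hi).2 ⟨j, hj⟩, if_neg fun h => hji (congrArg Subtype.val h)]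

/-! Piece Yi-6: the system -/

theorem Th2_mul {k L k' L' : ℕ} {F G : Ent (ι ⊕ ι)} (hF : F ∈ Th2 γ l c σ k L)
    (hG : G ∈ Th2 γ l c σ k' L') : F * G ∈ Th2 γ l c σ (k + k') (L + L') :=
  ⟨QS_mul γ l c σ hF.1 hG.1, Vn_mul hF.2 hG.2⟩

theorem Th2_one : (1 : Ent (ι ⊕ ι)) ∈ Th2 γ l c σ 0 0 := ⟨QS_one γ l c σ, Vn_one⟩

theorem Th2_mono (k : ℕ) {L L' : ℕ} (h : L ≤ L') : Th2 γ l c σ k L ≤ Th2 γ l c σ k L' :=
  fun _ hF => ⟨hF.1, Vn_mono (Nat.succ_le_succ h) hF.2⟩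

theorem exists_LE (hc : ∃ R : ℝ, ∀ z, ∃ a, ‖z - γ a‖ ≤ R)
    (hb : ∀ p, ∃ F, Theta γ l c 1 F ∧ F p ≠ 0) :
    ∃ (X : LE (ι ⊕ ι)) (C : ℕ), (∀ k L, X.T k L = Th2 γ l c σ k L) ∧
      (∀ k L, X.T' k L = Th2 γ l (cc c) σ k L) ∧
      ∀ k L, Module.finrank ℂ (X.T' (2 * k) L) ≤
        C * ((k + 1) ^ Fintype.card ι * (L + 1) ^ Fintype.card ι) := by
  obtain ⟨C1, h1⟩ := dim2_nat hb hc σ
  obtain ⟨C2, h2⟩ := dim2_two hb hc σ
  obtain ⟨u, hu, hu0⟩ := hb 0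
  let X : LE (ι ⊕ ι) :=
    { T := fun k L => Th2 γ l c σ k L
      T' := fun k L => Th2 γ l (cc c) σ k L
      b0 := Pi.basisFun ℂ (ι ⊕ ι)
      u0 := lft ι ⟨u, hu.1⟩
      hu := lft_Th2 γ l c σ (F := ⟨u, hu.1⟩) hu
      hu0 := hu0
      T_one := Th2_one γ l c σ
      T_mul := fun hF hG => Th2_mul γ l c σ hF hG
      T_mono := fun k _ _ h => Th2_mono γ l c σ k h
      T_pair := fun hF hG w => ⟨QS_pair γ l c σ hF.1 hG.1 w, Vn_mul (Vn_tr hF.2 w) (Vn_tr hG.2 (-w))⟩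
      T_fin := fun k L => (h1 k L _ fun F hF => (mem_Th2 γ l c σ).1 hF).1
      T_dim := ⟨C1, fun k => by
        refine (h1 k k _ fun F hF => (mem_Th2 γ l c σ).1 hF).2.trans (le_of_eq ?_)
        rw [Fintype.card_sum, pow_add]⟩
      T'_one := Th2_one γ l (cc c) σ
      T'_mul := fun hF hG => Th2_mul γ l (cc c) σ hF hG
      T'_mono := fun k _ _ h => Th2_mono γ l (cc c) σ k h
      T_pair' := fun hF hG w => ⟨QS_pair' γ l c σ hF.1 hG.1 w, Vn_mul (Vn_tr hF.2 w) (Vn_rf hG.2 w)⟩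
      T'_fin := fun k L => (h2 k L _ fun F hF => (mem_Th2 γ l (cc c) σ).1 hF).1 }
  exact ⟨X, C2, fun _ _ => rfl, fun _ _ => rfl,
    fun k L => (h2 k L _ fun F hF => (mem_Th2 γ l (cc c) σ).1 hF).2⟩

/-- The vertical subspace. -/
theorem exists_Low (hσ : ∀ (a : A) (x : ι → ℂ), l a x = ∑ i, σ (γ a) i * x i)
    (him : ∀ a : ι → ℂ, a ≠ 0 → ∃ F G, Theta γ l c 1 F ∧ Theta γ l c 1 G ∧
      fderiv ℂ F 0 a * G 0 ≠ F 0 * fderiv ℂ G 0 a)
    (X : LE (ι ⊕ ι)) (hX : ∀ k L, X.T k L = Th2 γ l c σ k L) :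
    X.Low (LinearMap.ker (LinearMap.funLeft ℂ ℂ (Sum.inl : ι → ι ⊕ ι))) := by
  have hV : ∀ v : ι ⊕ ι → ℂ, v ∈ LinearMap.ker (LinearMap.funLeft ℂ ℂ (Sum.inl : ι → ι ⊕ ι)) ↔
      ∀ i, v (Sum.inl i) = 0 := by
    intro v
    rw [LinearMap.mem_ker]
    exact ⟨fun h i => congrFun h i, fun h => funext h⟩
  refine ⟨?_, ?_, ?_⟩
  · intro v hv F hF
    rw [hX] at hF
    exact Vn_vert hF.2 v ((hV v).1 hv)
  · intro b Ja hJa
    obtain ⟨f, h1, h2, h3⟩ := exists_base γ l c σ him b Ja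
      (fun c hc h => hJa c hc ((hV _).2 h))
    exact ⟨f, fun i hi => by rw [hX]; exact h1 i hi, h2, h3⟩
  · intro b Jv hJv
    obtain ⟨Φ, h1, h2, h3⟩ := exists_Phi γ l c σ hσ X.u0 (by rw [← hX]; exact X.hu) b Jv
      (fun j hj => (hV _).1 (hJv j hj))
    exact ⟨Φ, fun α => by rw [hX]; exact h1 α, h2, h3⟩

end

end Pool.Agent.Helper63.LU
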